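import Mathlib

/-!
# Averaging operators along integer vectors
-/

set_option autoImplicit false

open Set MeasureTheory

namespace Pool.Agent.Helper99.MK

variable {k : ℕ}

/-- an integer vector as a real vector -/
def ic (z : Fin k → ℤ) : Fin k → ℝ := fun j => (z j : ℝ)

lemma ic_add (z w : Fin k → ℤ) : ic (z + w) = ic z + ic w := by
  ext j; simp [ic]

lemma ic_smul (n : ℤ) (z : Fin k → ℤ) : ic (n • z) = (n : ℝ) • ic z := by
  ext j; simp [ic]

lemma ic_neg (z : Fin k → ℤ) : ic (-z) = - ic z := by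
  ext j; simp [ic]

/-- average over a closed one-parameter subgroup of the torus -/
noncomputable def PP (w : Fin k → ℤ) (f : (Fin k → ℝ) → ℝ) (x : Fin k → ℝ) : ℝ :=
  ∫ θ in (0:ℝ)..1, f (x + θ • ic w)

/-- iterated averages -/
noncomputable def PL (l : List (Fin k → ℤ)) (f : (Fin k → ℝ) → ℝ) : (Fin k → ℝ) → ℝ :=
  l.foldr PP f

@[simp] lemma PL_nil (f : (Fin k → ℝ) → ℝ) : PL [] f = f := rfl

@[simp] lemma PL_cons (w : Fin k → ℤ) (l : List (Fin k → ℤ)) (f : (Fin k → ℝ) → ℝ) :
    PL (w :: l) f = PP w (PL l f) := rfl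

/-- continuous and periodic functions -/
structure Good (f : (Fin k → ℝ) → ℝ) : Prop where
  cont : Continuous f
  per : ∀ x (z : Fin k → ℤ), f (x + ic z) = f x

/-- directions of invariance -/
def Inv (f : (Fin k → ℝ) → ℝ) : Submodule ℝ (Fin k → ℝ) where
  carrier := {v | ∀ x, ∀ t : ℝ, f (x + t • v) = f x}
  add_mem' := by
    intro v w hv hw x t
    rw [smul_add, ← add_assoc, hw, hv]
  zero_mem' := by
    intro x t
    simp
  smul_mem' := by
    intro c v hv x t
    rw [smul_smul, hv]

lemma mem_Inv {f : (Fin k → ℝ) → ℝ} {v : Fin k → ℝ} :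
    v ∈ Inv f ↔ ∀ x, ∀ t : ℝ, f (x + t • v) = f x := Iff.rfl

lemma Inv_apply {f : (Fin k → ℝ) → ℝ} {v : Fin k → ℝ} (hv : v ∈ Inv f) (x : Fin k → ℝ) :
    f (x + v) = f x := by
  have := hv x 1
  rwa [one_smul] at this

lemma PP_cont {w : Fin k → ℤ} {f : (Fin k → ℝ) → ℝ} (hf : Continuous f) : Continuous (PP w f) := by
  unfold PP
  apply intervalIntegral.continuous_parametric_intervalIntegral_of_continuous'
  fun_prop

lemma PP_good {w : Fin k → ℤ} {f : (Fin k → ℝ) → ℝ} (hf : Good f) : Good (PP w f) := by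
  refine ⟨PP_cont hf.cont, fun x z => ?_⟩
  unfold PP
  refine intervalIntegral.integral_congr fun θ _ => ?_
  rw [add_right_comm, hf.per]

lemma PP_inv_self {w : Fin k → ℤ} {f : (Fin k → ℝ) → ℝ} (hf : Good f) : ic w ∈ Inv (PP w f) := by
  intro x t
  unfold PP
  have h1 : ∀ θ : ℝ, f (x + t • ic w + θ • ic w) = (fun s : ℝ => f (x + s • ic w)) (θ + t) := by
    intro θ
    simp only
    rw [add_assoc, ← add_smul, add_comm t θ]
  simp only [h1]
  rw [intervalIntegral.integral_comp_add_right (fun s : ℝ => f (x + s • ic w)) t]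
  have hper : Function.Periodic (fun s : ℝ => f (x + s • ic w)) 1 := by
    intro s
    simp only
    rw [add_smul, one_smul, ← add_assoc, hf.per]
  have := hper.intervalIntegral_add_eq t 0
  rw [zero_add] at this
  rw [zero_add, add_comm 1 t, this]

lemma Inv_le_PP (w : Fin k → ℤ) (f : (Fin k → ℝ) → ℝ) : Inv f ≤ Inv (PP w f) := by
  intro v hv x t
  unfold PP
  refine intervalIntegral.integral_congr fun θ _ => ?_
  rw [add_right_comm, hv]

lemma PP_comm {w v : Fin k → ℤ} {f : (Fin k → ℝ) → ℝ} (hf : Continuous f) :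
    PP w (PP v f) = PP v (PP w f) := by
  ext x
  unfold PP
  rw [intervalIntegral_intervalIntegral_swap]
  · refine intervalIntegral.integral_congr fun θ _ => ?_
    refine intervalIntegral.integral_congr fun η _ => ?_
    rw [add_right_comm]
  · have hc : Continuous (Function.uncurry fun (θ η : ℝ) => f (x + θ • ic w + η • ic v)) := by
      fun_prop
    apply (hc.continuousOn (s := uIcc (0:ℝ) 1 ×ˢ uIcc (0:ℝ) 1)).integrableOn_compact
      (isCompact_uIcc.prod isCompact_uIcc) |>.mono_set
    exact prod_mono uIoc_subset_uIcc uIoc_subset_uIcc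

lemma PP_of_mem {w : Fin k → ℤ} {f : (Fin k → ℝ) → ℝ} (h : ic w ∈ Inv f) : PP w f = f := by
  ext x
  unfold PP
  have h1 : ∀ θ : ℝ, f (x + θ • ic w) = f x := fun θ => h x θ
  simp only [h1]
  simp

lemma PL_cont {l : List (Fin k → ℤ)} {f : (Fin k → ℝ) → ℝ} (hf : Continuous f) :
    Continuous (PL l f) := by
  induction l with
  | nil => exact hf
  | cons w l ih => exact PP_cont ih

lemma PL_good {l : List (Fin k → ℤ)} {f : (Fin k → ℝ) → ℝ} (hf : Good f) : Good (PL l f) := by
  induction l with
  | nil => exact hf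
  | cons w l ih => exact PP_good ih

lemma Inv_le_PL (l : List (Fin k → ℤ)) (f : (Fin k → ℝ) → ℝ) : Inv f ≤ Inv (PL l f) := by
  induction l with
  | nil => exact le_rfl
  | cons w l ih => exact ih.trans (Inv_le_PP w _)

/-- the real span of a list of integer vectors -/
def spn (l : List (Fin k → ℤ)) : Submodule ℝ (Fin k → ℝ) :=
  Submodule.span ℝ {v | ∃ w ∈ l, v = ic w}

lemma mem_spn {l : List (Fin k → ℤ)} {w : Fin k → ℤ} (h : w ∈ l) : ic w ∈ spn l :=
  Submodule.subset_span ⟨w, h, rfl⟩

lemma spn_le_iff {l : List (Fin k → ℤ)} {S : Submodule ℝ (Fin k → ℝ)} :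
    spn l ≤ S ↔ ∀ w ∈ l, ic w ∈ S := by
  rw [spn, Submodule.span_le]
  constructor
  · intro h w hw
    exact h ⟨w, hw, rfl⟩
  · rintro h _ ⟨w, hw, rfl⟩
    exact h w hw

lemma spn_nil : spn ([] : List (Fin k → ℤ)) = ⊥ := by
  rw [eq_bot_iff, spn_le_iff]
  simp

lemma spn_cons (w : Fin k → ℤ) (l : List (Fin k → ℤ)) :
    spn (w :: l) = Submodule.span ℝ {ic w} ⊔ spn l := by
  apply le_antisymm
  · rw [spn_le_iff]
    intro v hv
    rcases List.mem_cons.mp hv with rfl | hv
    · exact Submodule.mem_sup_left (Submodule.mem_span_singleton_self _)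
    · exact Submodule.mem_sup_right (mem_spn hv)
  · apply sup_le
    · rw [Submodule.span_singleton_le_iff_mem]
      exact mem_spn (List.mem_cons_self)
    · rw [spn_le_iff]
      intro v hv
      exact mem_spn (List.mem_cons_of_mem _ hv)

lemma spn_le_Inv {l : List (Fin k → ℤ)} {f : (Fin k → ℝ) → ℝ} (hf : Good f) :
    spn l ≤ Inv (PL l f) := by
  induction l with
  | nil => rw [spn_nil]; exact bot_le
  | cons w l ih =>
    rw [spn_cons]
    apply sup_le
    · rw [Submodule.span_singleton_le_iff_mem]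
      exact PP_inv_self (PL_good hf)
    · exact ih.trans (Inv_le_PP w _)

lemma PL_of_le {l : List (Fin k → ℤ)} {f : (Fin k → ℝ) → ℝ} (h : spn l ≤ Inv f) : PL l f = f := by
  induction l with
  | nil => rfl
  | cons w l ih =>
    rw [spn_le_iff] at h
    have h1 : PL l f = f := ih (by
      rw [spn_le_iff]
      exact fun v hv => h v (List.mem_cons_of_mem _ hv))
    rw [PL_cons, h1]
    exact PP_of_mem (h w (List.mem_cons_self))

lemma PP_PL_comm {w : Fin k → ℤ} {l : List (Fin k → ℤ)} {f : (Fin k → ℝ) → ℝ}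
    (hf : Continuous f) : PP w (PL l f) = PL l (PP w f) := by
  induction l with
  | nil => rfl
  | cons v l ih =>
    rw [PL_cons, PL_cons, ← ih, PP_comm (PL_cont hf)]

lemma PL_PL_comm {l l' : List (Fin k → ℤ)} {f : (Fin k → ℝ) → ℝ}
    (hf : Continuous f) : PL l (PL l' f) = PL l' (PL l f) := by
  induction l with
  | nil => rfl
  | cons v l ih =>
    rw [PL_cons, PL_cons, ih, PP_PL_comm (PL_cont hf)]

/-- iterated averages only depend on the span -/
theorem PL_eq_of_spn_eq {l l' : List (Fin k → ℤ)} {f : (Fin k → ℝ) → ℝ} (hf : Good f)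
    (h : spn l = spn l') : PL l f = PL l' f := by
  have h1 : PL l (PL l' f) = PL l' f := PL_of_le (h ▸ spn_le_Inv hf)
  have h2 : PL l' (PL l f) = PL l f := PL_of_le (h ▸ spn_le_Inv hf)
  rw [← h1, PL_PL_comm hf.cont, h2]

lemma PP_mono {w : Fin k → ℤ} {f g : (Fin k → ℝ) → ℝ} (hf : Continuous f) (hg : Continuous g)
    (h : ∀ x, f x ≤ g x) (x : Fin k → ℝ) : PP w f x ≤ PP w g x := by
  unfold PP
  apply intervalIntegral.integral_mono_on zero_le_one
  · apply Continuous.intervalIntegrable; fun_prop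
  · apply Continuous.intervalIntegrable; fun_prop
  · intro θ _
    exact h _

lemma PL_mono {l : List (Fin k → ℤ)} {f g : (Fin k → ℝ) → ℝ} (hf : Continuous f)
    (hg : Continuous g) (h : ∀ x, f x ≤ g x) (x : Fin k → ℝ) : PL l f x ≤ PL l g x := by
  induction l generalizing x with
  | nil => exact h x
  | cons w l ih => exact PP_mono (PL_cont hf) (PL_cont hg) ih x

lemma PP_const (w : Fin k → ℤ) (C : ℝ) : PP w (fun _ => C) = fun _ => C := by
  ext x; simp [PP]

lemma PL_const (l : List (Fin k → ℤ)) (C : ℝ) : PL l (fun _ => C) = fun _ => C := by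
  induction l with
  | nil => rfl
  | cons w l ih => rw [PL_cons, ih, PP_const]

lemma PP_add {w : Fin k → ℤ} {f g : (Fin k → ℝ) → ℝ} (hf : Continuous f) (hg : Continuous g) :
    PP w (fun x => f x + g x) = fun x => PP w f x + PP w g x := by
  ext x
  unfold PP
  apply intervalIntegral.integral_add
  · apply Continuous.intervalIntegrable; fun_prop
  · apply Continuous.intervalIntegrable; fun_prop

lemma PL_add {l : List (Fin k → ℤ)} {f g : (Fin k → ℝ) → ℝ} (hf : Continuous f)
    (hg : Continuous g) : PL l (fun x => f x + g x) = fun x => PL l f x + PL l g x := by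
  induction l with
  | nil => rfl
  | cons w l ih => rw [PL_cons, ih, PP_add (PL_cont hf) (PL_cont hg)]; rfl

lemma PP_smul (w : Fin k → ℤ) (c : ℝ) (f : (Fin k → ℝ) → ℝ) :
    PP w (fun x => c * f x) = fun x => c * PP w f x := by
  ext x
  unfold PP
  exact intervalIntegral.integral_const_mul _ _

lemma PL_smul (l : List (Fin k → ℤ)) (c : ℝ) (f : (Fin k → ℝ) → ℝ) :
    PL l (fun x => c * f x) = fun x => c * PL l f x := by
  induction l with
  | nil => rfl
  | cons w l ih => rw [PL_cons, ih, PP_smul]; rfl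

lemma PL_zero (l : List (Fin k → ℤ)) : PL l (fun _ => (0:ℝ)) = fun _ => 0 := PL_const l 0

lemma PL_sum {ι : Type*} {l : List (Fin k → ℤ)} (T : Finset ι) (f : ι → (Fin k → ℝ) → ℝ)
    (hf : ∀ i, Continuous (f i)) :
    PL l (fun x => ∑ i ∈ T, f i x) = fun x => ∑ i ∈ T, PL l (f i) x := by
  classical
  induction T using Finset.induction_on with
  | empty => simp only [Finset.sum_empty]; exact PL_zero l
  | insert i T hi ih =>
    simp only [Finset.sum_insert hi]
    rw [PL_add (hf i) (continuous_finsetSum _ fun i _ => hf i), ih]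

lemma PL_sub {l : List (Fin k → ℤ)} {f g : (Fin k → ℝ) → ℝ} (hf : Continuous f)
    (hg : Continuous g) : PL l (fun x => f x - g x) = fun x => PL l f x - PL l g x := by
  have h1 := PL_add (l := l) hf (hg.const_mul (-1) : Continuous fun x => -1 * g x)
  rw [PL_smul] at h1
  have h2 : (fun x => f x - g x) = fun x => f x + -1 * g x := by ext x; ring
  rw [h2, h1]
  ext x; ring

/-- upper bound of an average by a bound on the coset -/
lemma PL_le_of_forall {l : List (Fin k → ℤ)} {f : (Fin k → ℝ) → ℝ} (hf : Continuous f) {C : ℝ}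
    (x : Fin k → ℝ) (h : ∀ u ∈ spn l, f (x + u) ≤ C) : PL l f x ≤ C := by
  induction l generalizing x with
  | nil =>
    have := h 0 (Submodule.zero_mem _)
    rwa [add_zero] at this
  | cons w l ih =>
    rw [PL_cons]
    have h1 : ∀ θ : ℝ, PL l f (x + θ • ic w) ≤ C := by
      intro θ
      apply ih
      intro u hu
      rw [add_assoc]
      apply h
      rw [spn_cons]
      exact Submodule.add_mem_sup (Submodule.smul_mem _ _ (Submodule.mem_span_singleton_self _)) hu
    unfold PP
    have hc := PL_cont (l := l) hf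
    calc ∫ θ in (0:ℝ)..1, PL l f (x + θ • ic w) ≤ ∫ θ in (0:ℝ)..1, C := by
          apply intervalIntegral.integral_mono_on zero_le_one
          · apply Continuous.intervalIntegrable; fun_prop
          · exact intervalIntegrable_const
          · intro θ _
            exact h1 θ
      _ = C := by simp

end Pool.Agent.Helper99.MK
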