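import Mathlib

/-!
# A zero bound for real exponential sums with small frequencies
-/

set_option autoImplicit false

open Set

namespace Pool.Agent.Helper99.MK

/-- `f` has at least `n` distinct zeros in `[a,b]` -/
def NZ (f : ℝ → ℝ) (a b : ℝ) (n : ℕ) : Prop :=
  ∃ Z : Finset ℝ, n ≤ Z.card ∧ ∀ z ∈ Z, z ∈ Icc a b ∧ f z = 0

lemma NZ_rolle {f f' : ℝ → ℝ} {a b : ℝ} {n : ℕ} (hf : ∀ x ∈ Icc a b, HasDerivAt f (f' x) x)
    (h : NZ f a b (n + 1)) : NZ f' a b n := by
  classical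
  obtain ⟨Z, hn, hZ⟩ := h
  have key : ∀ p : ℝ × ℝ, ∃ c : ℝ, (p.1 ∈ Z ∧ p.2 ∈ Z ∧ p.1 < p.2) →
      (c ∈ Icc a b ∧ f' c = 0 ∧ p.1 < c ∧ c < p.2) := by
    intro p
    by_cases hp : p.1 ∈ Z ∧ p.2 ∈ Z ∧ p.1 < p.2
    · obtain ⟨h1, h2, h3⟩ := hp
      have hsub : ∀ x ∈ Icc p.1 p.2, x ∈ Icc a b := fun x hx =>
        ⟨(hZ _ h1).1.1.trans hx.1, hx.2.trans (hZ _ h2).1.2⟩
      obtain ⟨c, hc, hc0⟩ := exists_hasDerivAt_eq_zero (f := f) (f' := f') h3
        (fun x hx => (hf x (hsub x hx)).continuousAt.continuousWithinAt)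
        (by rw [(hZ _ h1).2, (hZ _ h2).2])
        (fun x hx => hf x (hsub x ⟨hx.1.le, hx.2.le⟩))
      exact ⟨c, fun _ => ⟨hsub c ⟨hc.1.le, hc.2.le⟩, hc0, hc.1, hc.2⟩⟩
    · exact ⟨0, fun h => absurd h hp⟩
  choose g hg using key
  set t : Finset ℝ := ((Z ×ˢ Z).filter (fun p => p.1 < p.2)).image g with ht
  refine ⟨t, ?_, ?_⟩
  · have := Finset.card_le_of_interleaved (s := Z) (t := t) (by
      intro x hx y hy hxy _
      refine ⟨g (x, y), ?_, ?_⟩
      · rw [ht, Finset.mem_image]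
        exact ⟨(x, y), by simp [hx, hy, hxy], rfl⟩
      · have := hg (x, y) ⟨hx, hy, hxy⟩
        exact ⟨this.2.2.1, this.2.2.2⟩)
    omega
  · intro z hz
    rw [ht, Finset.mem_image] at hz
    obtain ⟨p, hp, rfl⟩ := hz
    rw [Finset.mem_filter, Finset.mem_product] at hp
    have := hg p ⟨hp.1.1, hp.1.2, hp.2⟩
    exact ⟨this.1, this.2.1⟩

lemma zero_of_deriv_zero {f f' : ℝ → ℝ} {a b : ℝ} (hf : ∀ x ∈ Icc a b, HasDerivAt f (f' x) x)
    (h0 : ∀ x ∈ Icc a b, f' x = 0) {z : ℝ} (hz : z ∈ Icc a b) (hfz : f z = 0) :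
    ∀ x ∈ Icc a b, f x = 0 := by
  intro x hx
  have h1 : ∀ y ∈ Icc a b, HasDerivWithinAt f 0 (Icc a b) y := by
    intro y hy
    have := (hf y hy).hasDerivWithinAt (s := Icc a b)
    rwa [h0 y hy] at this
  have h2 := Convex.norm_image_sub_le_of_norm_hasDerivWithin_le (f := f) (f' := fun _ => 0)
    (C := 0) (s := Icc a b) (x := z) (y := x) (fun y hy => h1 y hy) (by simp) (convex_Icc a b) hz hx
  rw [zero_mul, hfz, sub_zero] at h2
  exact norm_le_zero_iff.mp h2

/-- real exponential sum -/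
noncomputable def rex {ι : Type*} (T : Finset ι) (b : ι → ℂ) (ν : ι → ℝ) (s : ℝ) : ℝ :=
  ∑ m ∈ T, (b m * Complex.exp (Complex.I * (ν m) * s)).re

lemma rex_hasDerivAt {ι : Type*} (T : Finset ι) (b : ι → ℂ) (ν : ι → ℝ) (s : ℝ) :
    HasDerivAt (rex T b ν) (rex T (fun m => Complex.I * ν m * b m) ν s) s := by
  unfold rex
  apply HasDerivAt.fun_sum
  intro m _
  have h1 : HasDerivAt (fun z : ℂ => b m * Complex.exp (Complex.I * (ν m) * z))
      (b m * (Complex.exp (Complex.I * (ν m) * s) * (Complex.I * (ν m)))) (s : ℂ) := by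
    apply HasDerivAt.const_mul
    apply HasDerivAt.cexp
    simpa using (hasDerivAt_id (s : ℂ)).const_mul (Complex.I * (ν m))
  have h2 := h1.real_of_complex
  refine h2.congr_deriv ?_
  congr 1
  ring

/-- the zero lemma -/
theorem zero_lemma {ι : Type*} (T : Finset ι) (ν : ι → ℝ) {a b : ℝ}
    (hν : ∀ m ∈ T, |ν m| * (b - a) < Real.pi) : ∀ (β : ι → ℂ),
    NZ (rex T β ν) a b (2 * T.card) → ∀ x ∈ Icc a b, rex T β ν x = 0 := by
  classical
  induction T using Finset.induction_on with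
  | empty =>
    intro β _ x _
    simp [rex]
  | insert m₀ T hm₀ ih =>
    intro β h
    rcases lt_or_ge b a with hab | hab
    · intro x hx
      exact absurd (hx.1.trans hx.2) (not_le.mpr hab)
    have ih' := ih (fun m hm => hν m (Finset.mem_insert_of_mem hm))
    set φ := rex (insert m₀ T) β ν with hφ
    set φ1 := rex (insert m₀ T) (fun m => Complex.I * ν m * β m) ν with hφ1
    set φ2 := rex (insert m₀ T) (fun m => Complex.I * ν m * (Complex.I * ν m * β m)) ν with hφ2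
    have hd1 : ∀ x, HasDerivAt φ (φ1 x) x := fun x => rex_hasDerivAt _ _ _ _
    have hd2 : ∀ x, HasDerivAt φ1 (φ2 x) x := fun x => rex_hasDerivAt _ _ _ _
    set μ := ν m₀ with hμ
    set s₀ := (a + b) / 2 with hs₀
    have hcos : ∀ x ∈ Icc a b, 0 < Real.cos (μ * (x - s₀)) := by
      intro x hx
      apply Real.cos_pos_of_mem_Ioo
      have h1 := hν m₀ (Finset.mem_insert_self _ _)
      have h2 : |μ * (x - s₀)| ≤ |μ| * ((b - a) / 2) := by
        rw [abs_mul]
        apply mul_le_mul_of_nonneg_left _ (abs_nonneg _)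
        rw [abs_le, hs₀]
        constructor <;> linarith [hx.1, hx.2]
      have h3 : |μ * (x - s₀)| < Real.pi / 2 := by
        refine lt_of_le_of_lt h2 ?_
        linarith
      rw [abs_lt] at h3
      exact ⟨by linarith [h3.1], h3.2⟩
    -- quotient
    set q : ℝ → ℝ := fun x => φ x / Real.cos (μ * (x - s₀)) with hq
    set r : ℝ → ℝ := fun x => φ1 x * Real.cos (μ * (x - s₀)) + μ * φ x * Real.sin (μ * (x - s₀))
      with hr
    have hcosd : ∀ x, HasDerivAt (fun x => Real.cos (μ * (x - s₀))) (-(μ * Real.sin (μ * (x - s₀)))) x := by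
      intro x
      have h1 : HasDerivAt (fun x : ℝ => μ * (x - s₀)) μ x := by
        simpa using ((hasDerivAt_id x).sub_const s₀).const_mul μ
      exact h1.cos.congr_deriv (by ring)
    have hsind : ∀ x, HasDerivAt (fun x => Real.sin (μ * (x - s₀))) (μ * Real.cos (μ * (x - s₀))) x := by
      intro x
      have h1 : HasDerivAt (fun x : ℝ => μ * (x - s₀)) μ x := by
        simpa using ((hasDerivAt_id x).sub_const s₀).const_mul μ
      exact h1.sin.congr_deriv (by ring)
    have hqd : ∀ x ∈ Icc a b, HasDerivAt q (r x / (Real.cos (μ * (x - s₀))) ^ 2) x := by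
      intro x hx
      have h1 := (hd1 x).div (hcosd x) (hcos x hx).ne'
      refine h1.congr_deriv ?_
      rw [hr]
      ring
    have hrd : ∀ x, HasDerivAt r ((φ2 x + μ ^ 2 * φ x) * Real.cos (μ * (x - s₀))) x := by
      intro x
      have h1 := ((hd2 x).mul (hcosd x)).add (((hd1 x).const_mul μ).mul (hsind x))
      refine h1.congr_deriv ?_
      ring
    have hnq : NZ q a b (2 * T.card + 1 + 1) := by
      obtain ⟨Z, hZ1, hZ2⟩ := h
      refine ⟨Z, ?_, fun z hz => ⟨(hZ2 z hz).1, ?_⟩⟩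
      · rw [Finset.card_insert_of_notMem hm₀] at hZ1
        omega
      · rw [hq]
        simp only
        rw [(hZ2 z hz).2, zero_div]
    have hnr : NZ r a b (2 * T.card + 1) := by
      obtain ⟨Z, hZ1, hZ2⟩ := NZ_rolle hqd hnq
      refine ⟨Z, hZ1, fun z hz => ⟨(hZ2 z hz).1, ?_⟩⟩
      have h1 := (hZ2 z hz).2
      rw [div_eq_zero_iff] at h1
      rcases h1 with h1 | h1
      · exact h1
      · have := hcos z (hZ2 z hz).1
        have : (0:ℝ) < Real.cos (μ * (z - s₀)) ^ 2 := by positivity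
        linarith
    have hn2 : NZ (fun x => φ2 x + μ ^ 2 * φ x) a b (2 * T.card) := by
      obtain ⟨Z, hZ1, hZ2⟩ := NZ_rolle (fun x _ => hrd x) hnr
      refine ⟨Z, hZ1, fun z hz => ⟨(hZ2 z hz).1, ?_⟩⟩
      have h1 := (hZ2 z hz).2
      rcases mul_eq_zero.mp h1 with h1 | h1
      · exact h1
      · exact absurd h1 (hcos z (hZ2 z hz).1).ne'
    have hred : ∀ x, φ2 x + μ ^ 2 * φ x = rex T (fun m => ((μ ^ 2 - ν m ^ 2 : ℝ) : ℂ) * β m) ν x := by
      intro x
      rw [hφ2, hφ, rex, rex, rex, Finset.sum_insert hm₀, Finset.sum_insert hm₀, mul_add,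
        Finset.mul_sum]
      have h1 : (Complex.I * ν m₀ * (Complex.I * ν m₀ * β m₀) *
          Complex.exp (Complex.I * (ν m₀) * x)).re = - (μ ^ 2 * (β m₀ *
          Complex.exp (Complex.I * (ν m₀) * x)).re) := by
        rw [show Complex.I * ν m₀ * (Complex.I * ν m₀ * β m₀) *
          Complex.exp (Complex.I * (ν m₀) * x) = (((-(μ ^ 2) : ℝ)) : ℂ) * (β m₀ *
          Complex.exp (Complex.I * (ν m₀) * x)) by
            push_cast
            rw [← hμ]
            linear_combination (μ:ℂ) ^ 2 * β m₀ * Complex.exp (Complex.I * μ * x) * Complex.I_sq]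
        rw [Complex.re_ofReal_mul]
        ring
      rw [h1]
      have h2 : ∑ m ∈ T, ((((μ ^ 2 - ν m ^ 2 : ℝ) : ℂ) * β m) * Complex.exp (Complex.I * (ν m) * x)).re
          = ∑ m ∈ T, (Complex.I * ν m * (Complex.I * ν m * β m) *
          Complex.exp (Complex.I * (ν m) * x)).re + ∑ m ∈ T, μ ^ 2 * (β m *
          Complex.exp (Complex.I * (ν m) * x)).re := by
        rw [← Finset.sum_add_distrib]
        refine Finset.sum_congr rfl fun m _ => ?_
        rw [← Complex.re_ofReal_mul, ← Complex.add_re]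
        congr 1
        push_cast
        linear_combination (-(ν m:ℂ) ^ 2 * β m * Complex.exp (Complex.I * ν m * x)) * Complex.I_sq
      rw [h2]
      ring
    have hz2 : ∀ x ∈ Icc a b, φ2 x + μ ^ 2 * φ x = 0 := by
      intro x hx
      rw [hred]
      apply ih' _ _ x hx
      obtain ⟨Z, hZ1, hZ2⟩ := hn2
      refine ⟨Z, hZ1, fun z hz => ⟨(hZ2 z hz).1, ?_⟩⟩
      rw [← hred]
      exact (hZ2 z hz).2
    have hr0 : ∀ x ∈ Icc a b, r x = 0 := by
      obtain ⟨Z, hZ1, hZ2⟩ := hnr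
      have hne : Z.Nonempty := Finset.card_pos.mp (by omega)
      obtain ⟨z, hz⟩ := hne
      refine zero_of_deriv_zero (fun x _ => hrd x) (fun x hx => ?_) (hZ2 z hz).1 (hZ2 z hz).2
      rw [hz2 x hx, zero_mul]
    have hq0 : ∀ x ∈ Icc a b, q x = 0 := by
      obtain ⟨Z, hZ1, hZ2⟩ := hnq
      have hne : Z.Nonempty := Finset.card_pos.mp (by omega)
      obtain ⟨z, hz⟩ := hne
      refine zero_of_deriv_zero hqd (fun x hx => ?_) (hZ2 z hz).1 (hZ2 z hz).2
      rw [hr0 x hx, zero_div]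
    intro x hx
    have h1 := hq0 x hx
    rw [hq] at h1
    simp only at h1
    rw [div_eq_zero_iff] at h1
    rcases h1 with h1 | h1
    · exact h1
    · exact absurd h1 (hcos x hx).ne'

end Pool.Agent.Helper99.MK
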