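import Mathlib
import Pool.Agent.Helper99.MK.Z
import Pool.Agent.Helper99.MK.P

/-!
# The variation bound
-/

set_option autoImplicit false

open Set MeasureTheory

namespace Pool.Agent.Helper99.MK

variable {k : ℕ}

lemma crossing_bound {h : ℝ → ℝ} (hc : Continuous h) {S N : ℕ} {α : ℝ} (hα0 : 0 ≤ α)
    (hα1 : α ≤ 1) (hN : NZ h 0 S N → ∀ x ∈ Icc (0:ℝ) S, h x = 0) :
    |∑ i ∈ Finset.range S, ((if 0 < h ((i:ℝ) + α) then (1:ℝ) else 0) -
      (if 0 < h (i:ℝ) then 1 else 0))| ≤ N := by
  classical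
  have hmem : ∀ i ∈ Finset.range S, ((i:ℝ) ∈ Icc (0:ℝ) S) ∧ ((i:ℝ) + α ∈ Icc (0:ℝ) S) := by
    intro i hi
    have h1 : (i:ℝ) + 1 ≤ S := by
      have := Finset.mem_range.mp hi
      exact_mod_cast this
    have h0 : (0:ℝ) ≤ i := Nat.cast_nonneg i
    exact ⟨⟨h0, by linarith⟩, ⟨by linarith, by linarith⟩⟩
  by_cases hz : NZ h 0 S N
  · have h0 := hN hz
    rw [Finset.sum_eq_zero]
    · simp
    · intro i hi
      rw [h0 _ (hmem i hi).1, h0 _ (hmem i hi).2]
      simp
  · set U := (Finset.range S).filter (fun i : ℕ => h (i:ℝ) ≤ 0 ∧ 0 < h ((i:ℝ) + α)) with hU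
    set D := (Finset.range S).filter (fun i : ℕ => 0 < h (i:ℝ) ∧ h ((i:ℝ) + α) ≤ 0) with hD
    have hsum : ∑ i ∈ Finset.range S, ((if 0 < h ((i:ℝ) + α) then (1:ℝ) else 0) -
      (if 0 < h (i:ℝ) then 1 else 0)) = (U.card : ℝ) - D.card := by
      have h1 : ∀ i ∈ Finset.range S, ((if 0 < h ((i:ℝ) + α) then (1:ℝ) else 0) -
        (if 0 < h (i:ℝ) then 1 else 0)) =
        (if h (i:ℝ) ≤ 0 ∧ 0 < h ((i:ℝ) + α) then (1:ℝ) else 0) -
        (if 0 < h (i:ℝ) ∧ h ((i:ℝ) + α) ≤ 0 then (1:ℝ) else 0) := by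
        intro i _
        rcases lt_or_ge 0 (h (i:ℝ)) with h2 | h2 <;> rcases lt_or_ge 0 (h ((i:ℝ) + α)) with h3 | h3
        · simp [h2, h3, not_le.mpr h2, not_le.mpr h3]
        · simp [h2, h3, not_le.mpr h2, not_lt.mpr h3]
        · simp [h2, h3, not_lt.mpr h2, not_le.mpr h3]
        · simp [h2, h3, not_lt.mpr h2, not_lt.mpr h3]
      rw [Finset.sum_congr rfl h1, Finset.sum_sub_distrib, hU, hD, Finset.card_filter,
        Finset.card_filter]
      push_cast
      rfl
    have hUN : U.card < N := by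
      by_contra hcon
      push Not at hcon
      apply hz
      have hex : ∀ i ∈ U, ∃ s : ℝ, (i:ℝ) ≤ s ∧ s < i + α ∧ h s = 0 := by
        intro i hi
        rw [hU, Finset.mem_filter] at hi
        obtain ⟨_, h1, h2⟩ := hi
        obtain ⟨s, hs, hs0⟩ := intermediate_value_Icc (a := (i:ℝ)) (b := i + α) (by linarith)
          (hc.continuousOn) (show (0:ℝ) ∈ Icc (h (i:ℝ)) (h ((i:ℝ) + α)) from ⟨h1, h2.le⟩)
        refine ⟨s, hs.1, lt_of_le_of_ne hs.2 ?_, hs0⟩
        rintro rfl
        rw [hs0] at h2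
        exact lt_irrefl _ h2
      choose! s hs1 hs2 hs3 using hex
      refine ⟨U.image s, ?_, ?_⟩
      · rw [Finset.card_image_of_injOn]
        · exact hcon
        · intro i hi j hj hij
          have h1 := hs1 i hi
          have h2 := hs2 i hi
          have h3 := hs1 j hj
          have h4 := hs2 j hj
          rw [hij] at h1 h2
          have h5 : (i:ℝ) < j + 1 := by linarith
          have h6 : (j:ℝ) < i + 1 := by linarith
          have h7 : i < j + 1 := by exact_mod_cast h5
          have h8 : j < i + 1 := by exact_mod_cast h6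
          omega
      · intro z hz
        rw [Finset.mem_image] at hz
        obtain ⟨i, hi, rfl⟩ := hz
        have hir : i ∈ Finset.range S := by
          rw [hU] at hi
          exact (Finset.mem_filter.mp hi).1
        refine ⟨⟨(hmem i hir).1.1.trans (hs1 i hi), (hs2 i hi).le.trans (hmem i hir).2.2⟩,
          hs3 i hi⟩
    have hDN : D.card < N := by
      by_contra hcon
      push Not at hcon
      apply hz
      have hex : ∀ i ∈ D, ∃ s : ℝ, (i:ℝ) < s ∧ s ≤ i + α ∧ h s = 0 := by
        intro i hi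
        rw [hD, Finset.mem_filter] at hi
        obtain ⟨_, h1, h2⟩ := hi
        obtain ⟨s, hs, hs0⟩ := intermediate_value_Icc' (a := (i:ℝ)) (b := i + α) (by linarith)
          (hc.continuousOn) (show (0:ℝ) ∈ Icc (h ((i:ℝ) + α)) (h (i:ℝ)) from ⟨h2, h1.le⟩)
        refine ⟨s, lt_of_le_of_ne hs.1 ?_, hs.2, hs0⟩
        rintro rfl
        rw [hs0] at h1
        exact lt_irrefl _ h1
      choose! s hs1 hs2 hs3 using hex
      refine ⟨D.image s, ?_, ?_⟩
      · rw [Finset.card_image_of_injOn]
        · exact hcon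
        · intro i hi j hj hij
          have h1 := hs1 i hi
          have h2 := hs2 i hi
          have h3 := hs1 j hj
          have h4 := hs2 j hj
          rw [hij] at h1 h2
          have h5 : (i:ℝ) < j + 1 := by linarith
          have h6 : (j:ℝ) < i + 1 := by linarith
          have h7 : i < j + 1 := by exact_mod_cast h5
          have h8 : j < i + 1 := by exact_mod_cast h6
          omega
      · intro z hz
        rw [Finset.mem_image] at hz
        obtain ⟨i, hi, rfl⟩ := hz
        have hir : i ∈ Finset.range S := by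
          rw [hD] at hi
          exact (Finset.mem_filter.mp hi).1
        refine ⟨⟨(hmem i hir).1.1.trans (hs1 i hi).le, (hs2 i hi).trans (hmem i hir).2.2⟩,
          hs3 i hi⟩
    rw [hsum, abs_le]
    have h1 : (U.card : ℝ) < N := by exact_mod_cast hUN
    have h2 : (D.card : ℝ) < N := by exact_mod_cast hDN
    have h3 : (0:ℝ) ≤ U.card := Nat.cast_nonneg _
    have h4 : (0:ℝ) ≤ D.card := Nat.cast_nonneg _
    constructor <;> linarith

open Classical in
lemma level_int {A B y : ℝ} (h1 : A ≤ y) (h2 : y ≤ B) :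
    IntervalIntegrable (fun l : ℝ => if l < y then (1:ℝ) else 0) volume A B ∧
    ∫ l in A..B, (if l < y then (1:ℝ) else 0) = y - A := by
  have hi1 : IntervalIntegrable (fun l : ℝ => if l < y then (1:ℝ) else 0) volume A y := by
    have h3 : IntervalIntegrable (fun _ : ℝ => (1:ℝ)) volume A y := intervalIntegrable_const
    refine h3.congr_ae ?_
    rw [Filter.EventuallyEq, ae_restrict_iff' measurableSet_uIoc]
    have h4 : ∀ᵐ x : ℝ, x ≠ y := by
      rw [ae_iff]; simp
    filter_upwards [h4] with x hx hx2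
    rw [uIoc_of_le h1] at hx2
    rw [if_pos (lt_of_le_of_ne hx2.2 hx)]
  have hi2 : IntervalIntegrable (fun l : ℝ => if l < y then (1:ℝ) else 0) volume y B := by
    have h3 : IntervalIntegrable (fun _ : ℝ => (0:ℝ)) volume y B := intervalIntegrable_const
    refine h3.congr fun x hx => ?_
    rw [uIoc_of_le h2] at hx
    rw [if_neg (not_lt.mpr hx.1.le)]
  refine ⟨hi1.trans hi2, ?_⟩
  rw [← intervalIntegral.integral_add_adjacent_intervals hi1 hi2]
  have e1 : ∫ l in A..y, (if l < y then (1:ℝ) else 0) = ∫ l in A..y, (1:ℝ) := by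
    apply intervalIntegral.integral_congr_ae
    have h4 : ∀ᵐ x : ℝ, x ≠ y := by
      rw [ae_iff]; simp
    filter_upwards [h4] with x hx hx2
    rw [uIoc_of_le h1] at hx2
    rw [if_pos (lt_of_le_of_ne hx2.2 hx)]
  have e2 : ∫ l in y..B, (if l < y then (1:ℝ) else 0) = ∫ l in y..B, (0:ℝ) := by
    apply intervalIntegral.integral_congr_ae
    filter_upwards with x hx2
    rw [uIoc_of_le h2] at hx2
    rw [if_neg (not_lt.mpr hx2.1.le)]
  rw [e1, e2]
  simp

/-- the exponential sum as a function on `ℝ^k` -/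
noncomputable def FF (c : Fin k → ℂ) (x : Fin k → ℝ) : ℂ :=
  ∑ j, c j * Complex.exp (2 * Real.pi * Complex.I * x j)

/-- truncated logarithm of the absolute value -/
noncomputable def gg (c : Fin k → ℂ) (δ : ℝ) (x : Fin k → ℝ) : ℝ := Real.log (max ‖FF c x‖ δ)

lemma FF_cont (c : Fin k → ℂ) : Continuous (FF c) := by
  unfold FF
  fun_prop

lemma gg_cont (c : Fin k → ℂ) {δ : ℝ} (hδ : 0 < δ) : Continuous (gg c δ) := by
  unfold gg
  apply Continuous.log
  · exact (FF_cont c).norm.max continuous_const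
  · intro x
    have : 0 < max ‖FF c x‖ δ := lt_max_of_lt_right hδ
    exact this.ne'

lemma FF_per (c : Fin k → ℂ) (x : Fin k → ℝ) (z : Fin k → ℤ) : FF c (x + ic z) = FF c x := by
  unfold FF
  refine Finset.sum_congr rfl fun j _ => ?_
  congr 1
  have : (2 * Real.pi * Complex.I * ((x + ic z) j : ℝ) : ℂ) =
      2 * Real.pi * Complex.I * x j + (z j) * (2 * Real.pi * Complex.I) := by
    simp only [Pi.add_apply, ic]
    push_cast
    ring
  rw [this, Complex.exp_add, Complex.exp_int_mul_two_pi_mul_I, mul_one]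

lemma gg_good (c : Fin k → ℂ) {δ : ℝ} (hδ : 0 < δ) : Good (gg c δ) :=
  ⟨gg_cont c hδ, fun x z => by unfold gg; rw [FF_per]⟩

/-- the vector of ones -/
def one1 : Fin k → ℤ := fun _ => 1

lemma FF_one (c : Fin k → ℂ) (x : Fin k → ℝ) (t : ℝ) :
    FF c (x + t • ic one1) = Complex.exp (2 * Real.pi * t * Complex.I) * FF c x := by
  unfold FF
  rw [Finset.mul_sum]
  refine Finset.sum_congr rfl fun j _ => ?_
  rw [mul_left_comm, ← Complex.exp_add]
  congr 2
  simp only [Pi.add_apply, Pi.smul_apply, ic, one1, smul_eq_mul]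
  push_cast
  ring

lemma gg_one (c : Fin k → ℂ) (δ : ℝ) : ic one1 ∈ Inv (gg c δ) := by
  intro x t
  unfold gg
  rw [FF_one, norm_mul]
  have : (2 * Real.pi * t * Complex.I : ℂ) = ((2 * Real.pi * t : ℝ) : ℂ) * Complex.I := by
    push_cast; ring
  rw [this, Complex.norm_exp_ofReal_mul_I, one_mul]

lemma FF_norm_le (c : Fin k → ℂ) (x : Fin k → ℝ) : ‖FF c x‖ ≤ ∑ j, ‖c j‖ := by
  unfold FF
  refine (norm_sum_le _ _).trans (le_of_eq ?_)
  refine Finset.sum_congr rfl fun j _ => ?_
  have : (2 * Real.pi * Complex.I * x j : ℂ) = ((2 * Real.pi * x j : ℝ) : ℂ) * Complex.I := by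
    push_cast; ring
  rw [norm_mul, this, Complex.norm_exp_ofReal_mul_I, mul_one]

/-- coefficients of the real exponential sum `‖FF‖² - M` -/
noncomputable def bcoef (c : Fin k → ℂ) (x : Fin k → ℝ) (M : ℝ) : Option (Fin k × Fin k) → ℂ
  | none => -(M : ℂ)
  | some p => (c p.1 * Complex.exp (2 * Real.pi * Complex.I * x p.1)) *
      (starRingEnd ℂ) (c p.2 * Complex.exp (2 * Real.pi * Complex.I * x p.2))

/-- frequencies -/
noncomputable def nfreq (y : Fin k → ℝ) : Option (Fin k × Fin k) → ℝ
  | none => 0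
  | some p => 2 * Real.pi * (y p.1 - y p.2)

lemma normSq_eq (c : Fin k → ℂ) (x y : Fin k → ℝ) (M s : ℝ) :
    ‖FF c (x + s • y)‖ ^ 2 - M =
      rex Finset.univ (bcoef c x M) (nfreq y) s := by
  unfold rex
  rw [Fintype.sum_option, Fintype.sum_prod_type]
  have h1 : ((‖FF c (x + s • y)‖ ^ 2 : ℝ) : ℂ) = FF c (x + s • y) * (starRingEnd ℂ) (FF c (x + s • y)) := by
    rw [Complex.mul_conj, Complex.normSq_eq_norm_sq]
  have h2 : FF c (x + s • y) * (starRingEnd ℂ) (FF c (x + s • y)) = ∑ i, ∑ j,
      bcoef c x M (some (i, j)) * Complex.exp (Complex.I * (nfreq y (some (i, j))) * s) := by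
    unfold FF
    rw [map_sum, Finset.sum_mul_sum]
    refine Finset.sum_congr rfl fun i _ => Finset.sum_congr rfl fun j _ => ?_
    simp only [bcoef, nfreq, map_mul]
    rw [← Complex.exp_conj, ← Complex.exp_conj]
    have e1 : (starRingEnd ℂ) (2 * Real.pi * Complex.I * ((x + s • y) j : ℝ)) =
      -(2 * Real.pi * Complex.I * ((x + s • y) j : ℝ)) := by
      simp only [map_mul, Complex.conj_ofReal, Complex.conj_I, map_ofNat]
      ring
    have e2 : (starRingEnd ℂ) (2 * Real.pi * Complex.I * (x j : ℝ)) =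
      -(2 * Real.pi * Complex.I * (x j : ℝ)) := by
      simp only [map_mul, Complex.conj_ofReal, Complex.conj_I, map_ofNat]
      ring
    rw [e1, e2]
    have e3 : Complex.exp (2 * Real.pi * Complex.I * ((x + s • y) i : ℝ)) =
        Complex.exp (2 * Real.pi * Complex.I * (x i : ℝ)) *
        Complex.exp (2 * Real.pi * Complex.I * (s * y i : ℝ)) := by
      rw [← Complex.exp_add]
      congr 1
      simp only [Pi.add_apply, Pi.smul_apply, smul_eq_mul]
      push_cast
      ring
    have e4 : Complex.exp (-(2 * Real.pi * Complex.I * ((x + s • y) j : ℝ))) =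
        Complex.exp (-(2 * Real.pi * Complex.I * (x j : ℝ))) *
        Complex.exp (-(2 * Real.pi * Complex.I * (s * y j : ℝ))) := by
      rw [← Complex.exp_add]
      congr 1
      simp only [Pi.add_apply, Pi.smul_apply, smul_eq_mul]
      push_cast
      ring
    have e5 : Complex.exp (Complex.I * ((2 * Real.pi * (y i - y j) : ℝ) : ℂ) * s) =
        Complex.exp (2 * Real.pi * Complex.I * (s * y i : ℝ)) *
        Complex.exp (-(2 * Real.pi * Complex.I * (s * y j : ℝ))) := by
      rw [← Complex.exp_add]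
      congr 1
      push_cast
      ring
    rw [e3, e4, e5]
    ring
  have h3 : ‖FF c (x + s • y)‖ ^ 2 = (∑ i, ∑ j,
      bcoef c x M (some (i, j)) * Complex.exp (Complex.I * (nfreq y (some (i, j))) * s)).re := by
    rw [← h2, ← h1, Complex.ofReal_re]
  rw [h3, Complex.re_sum]
  simp only [Complex.re_sum]
  have h4 : (bcoef c x M none * Complex.exp (Complex.I * (nfreq y none) * s)).re = -M := by
    simp [bcoef, nfreq]
  rw [h4]
  ring

/-- the variation property -/
def VB (f : (Fin k → ℝ) → ℝ) (V : ℝ) : Prop :=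
  ∀ (x y : Fin k → ℝ) (S : ℕ) (α : ℝ), (∀ j, (S:ℝ) * |y j| ≤ 1 / 8) → 0 ≤ α → α ≤ 1 →
    |∑ i ∈ Finset.range S, (f (x + ((i:ℝ) + α) • y) - f (x + (i:ℝ) • y))| ≤ V

theorem gg_VB (c : Fin k → ℂ) {δ L : ℝ} (hδ : 0 < δ) (hδL : δ ≤ L) (hL : ∑ j, ‖c j‖ ≤ L) :
    VB (gg c δ) ((2 * (k ^ 2 + 1)) * Real.log (L / δ)) := by
  classical
  intro x y S α hy hα0 hα1
  have hLpos : 0 < L := by linarith
  set A := Real.log δ with hA
  set B := Real.log L with hB
  have hAB : A ≤ B := Real.log_le_log hδ hδL
  have hrange : ∀ v : Fin k → ℝ, A ≤ gg c δ v ∧ gg c δ v ≤ B := by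
    intro v
    unfold gg
    constructor
    · exact Real.log_le_log hδ (le_max_right _ _)
    · apply Real.log_le_log (lt_max_of_lt_right hδ)
      exact max_le ((FF_norm_le c v).trans hL) hδL
  have hlev : ∀ l ∈ Ioc A B, ∀ v : Fin k → ℝ, l < gg c δ v ↔ 0 < ‖FF c v‖ ^ 2 - Real.exp l ^ 2 := by
    intro l hl v
    have h1 : δ < Real.exp l := by
      rw [← Real.exp_log hδ]
      exact Real.exp_lt_exp.mpr hl.1
    unfold gg
    rw [Real.lt_log_iff_exp_lt (lt_max_of_lt_right hδ), lt_max_iff, sub_pos,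
      sq_lt_sq₀ (Real.exp_pos _).le (norm_nonneg _)]
    constructor
    · rintro (h | h)
      · exact h
      · exact absurd h (not_lt.mpr h1.le)
    · exact fun h => Or.inl h
  have hS : ∑ i ∈ Finset.range S, (gg c δ (x + ((i:ℝ) + α) • y) - gg c δ (x + (i:ℝ) • y)) =
      ∫ l in A..B, ∑ i ∈ Finset.range S, ((if l < gg c δ (x + ((i:ℝ) + α) • y) then (1:ℝ) else 0) -
        (if l < gg c δ (x + (i:ℝ) • y) then (1:ℝ) else 0)) := by
    rw [intervalIntegral.integral_finsetSum]
    · refine Finset.sum_congr rfl fun i _ => ?_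
      have h1 := level_int (hrange (x + ((i:ℝ) + α) • y)).1 (hrange (x + ((i:ℝ) + α) • y)).2
      have h2 := level_int (hrange (x + (i:ℝ) • y)).1 (hrange (x + (i:ℝ) • y)).2
      rw [intervalIntegral.integral_sub h1.1 h2.1, h1.2, h2.2]
      ring
    · intro i _
      have h1 := level_int (hrange (x + ((i:ℝ) + α) • y)).1 (hrange (x + ((i:ℝ) + α) • y)).2
      have h2 := level_int (hrange (x + (i:ℝ) • y)).1 (hrange (x + (i:ℝ) • y)).2
      exact h1.1.sub h2.1
  rw [hS]
  have hfreq : ∀ m ∈ (Finset.univ : Finset (Option (Fin k × Fin k))),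
      |nfreq y m| * ((S:ℝ) - 0) < Real.pi := by
    intro m _
    rcases m with _ | p
    · simp [nfreq, Real.pi_pos]
    · simp only [nfreq, sub_zero]
      rw [abs_mul, abs_of_pos (by positivity : 0 < 2 * Real.pi)]
      have h1 := hy p.1
      have h2 := hy p.2
      have h3 : |y p.1 - y p.2| ≤ |y p.1| + |y p.2| := abs_sub _ _
      have h4 : (S:ℝ) * |y p.1 - y p.2| ≤ 1 / 4 := by
        calc (S:ℝ) * |y p.1 - y p.2| ≤ S * (|y p.1| + |y p.2|) :=
              mul_le_mul_of_nonneg_left h3 (Nat.cast_nonneg _)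
          _ ≤ 1 / 4 := by linarith
      calc 2 * Real.pi * |y p.1 - y p.2| * S = 2 * Real.pi * ((S:ℝ) * |y p.1 - y p.2|) := by ring
        _ ≤ 2 * Real.pi * (1 / 4) := by
            apply mul_le_mul_of_nonneg_left h4
            positivity
        _ < Real.pi := by linarith [Real.pi_pos]
  have hbound : ∀ l ∈ uIoc A B, ‖∑ i ∈ Finset.range S,
      ((if l < gg c δ (x + ((i:ℝ) + α) • y) then (1:ℝ) else 0) -
        (if l < gg c δ (x + (i:ℝ) • y) then (1:ℝ) else 0))‖ ≤ 2 * (k ^ 2 + 1) := by
    intro l hl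
    rw [uIoc_of_le hAB] at hl
    rw [Real.norm_eq_abs]
    set h : ℝ → ℝ := fun s => ‖FF c (x + s • y)‖ ^ 2 - Real.exp l ^ 2 with hh
    have hcont : Continuous h := by
      have h1 : Continuous fun s : ℝ => FF c (x + s • y) := (FF_cont c).comp (by fun_prop)
      rw [hh]
      exact (h1.norm.pow 2).sub continuous_const
    have heq : h = rex Finset.univ (bcoef c x (Real.exp l ^ 2)) (nfreq y) := by
      ext s
      exact normSq_eq c x y _ s
    have h1 := crossing_bound (h := h) hcont (S := S) (N := 2 * (Finset.univ :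
      Finset (Option (Fin k × Fin k))).card) hα0 hα1 (by
        intro hz
        rw [heq] at hz ⊢
        exact zero_lemma Finset.univ (nfreq y) hfreq _ hz)
    have h2 : ∑ i ∈ Finset.range S,
      ((if l < gg c δ (x + ((i:ℝ) + α) • y) then (1:ℝ) else 0) -
        (if l < gg c δ (x + (i:ℝ) • y) then (1:ℝ) else 0)) =
        ∑ i ∈ Finset.range S, ((if 0 < h ((i:ℝ) + α) then (1:ℝ) else 0) -
      (if 0 < h (i:ℝ) then 1 else 0)) := by
      refine Finset.sum_congr rfl fun i _ => ?_
      simp only [hlev l hl, hh]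
    rw [h2]
    refine h1.trans (le_of_eq ?_)
    rw [Finset.card_univ, Fintype.card_option, Fintype.card_prod, Fintype.card_fin]
    push_cast
    ring
  have h5 := intervalIntegral.norm_integral_le_of_norm_le_const hbound
  rw [Real.norm_eq_abs] at h5
  refine h5.trans (le_of_eq ?_)
  rw [abs_of_nonneg (by linarith), Real.log_div hLpos.ne' hδ.ne']

lemma VB_PP {f : (Fin k → ℝ) → ℝ} {V : ℝ} (hf : Continuous f) (h : VB f V) (w : Fin k → ℤ) :
    VB (PP w f) V := by
  intro x y S α hy hα0 hα1
  have h1 : ∑ i ∈ Finset.range S, (PP w f (x + ((i:ℝ) + α) • y) - PP w f (x + (i:ℝ) • y)) =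
      ∫ θ in (0:ℝ)..1, ∑ i ∈ Finset.range S, (f ((x + θ • ic w) + ((i:ℝ) + α) • y) -
        f ((x + θ • ic w) + (i:ℝ) • y)) := by
    rw [intervalIntegral.integral_finsetSum]
    · refine Finset.sum_congr rfl fun i _ => ?_
      rw [intervalIntegral.integral_sub]
      · unfold PP
        congr 1
        · refine intervalIntegral.integral_congr fun θ _ => ?_
          rw [add_right_comm]
        · refine intervalIntegral.integral_congr fun θ _ => ?_
          rw [add_right_comm]
      · apply Continuous.intervalIntegrable; fun_prop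
      · apply Continuous.intervalIntegrable; fun_prop
    · intro i _
      apply Continuous.intervalIntegrable; fun_prop
  rw [h1]
  have h2 := intervalIntegral.norm_integral_le_of_norm_le_const (a := (0:ℝ)) (b := 1) (C := V)
    (f := fun θ : ℝ => ∑ i ∈ Finset.range S, (f ((x + θ • ic w) + ((i:ℝ) + α) • y) -
        f ((x + θ • ic w) + (i:ℝ) • y))) (fun θ _ => by
          rw [Real.norm_eq_abs]
          exact h _ y S α hy hα0 hα1)
  rw [Real.norm_eq_abs] at h2
  simpa using h2

lemma VB_PL {f : (Fin k → ℝ) → ℝ} {V : ℝ} (hf : Continuous f) (h : VB f V)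
    (l : List (Fin k → ℤ)) : VB (PL l f) V := by
  induction l with
  | nil => exact h
  | cons w l ih => exact VB_PP (PL_cont hf) ih w

/-- the key lemma: averaging over an integer vector close to the span changes little -/
theorem key_close {f : (Fin k → ℝ) → ℝ} {V : ℝ} (hf : Good f) (h : VB f V)
    (l : List (Fin k → ℤ)) (z : Fin k → ℤ) (u : Fin k → ℝ) (hu : u ∈ spn l) {S : ℕ} (hS : 1 ≤ S)
    (hy : ∀ j, (S:ℝ) * |ic z j - u j| ≤ 1 / 8) (x : Fin k → ℝ) :
    |PL (z :: l) f x - PL l f x| ≤ V / S := by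
  set g := PL l f with hg
  have hgood : Good g := PL_good hf
  have hgV : VB g V := VB_PL hf.cont h l
  have huI : u ∈ Inv g := spn_le_Inv hf hu
  set y : Fin k → ℝ := ic z - u with hydef
  have hSpos : (0:ℝ) < S := by exact_mod_cast hS
  -- integer steps do not change
  have hstep : ∀ (x : Fin k → ℝ), g (x + y) = g x := by
    intro x
    have h1 : x + y = (x + ic z) + (-1 : ℝ) • u := by
      rw [hydef, neg_one_smul]
      abel
    rw [h1, huI, hgood.per]
  have hsteps : ∀ (i : ℕ) (x : Fin k → ℝ), g (x + (i:ℝ) • y) = g x := by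
    intro i
    induction i with
    | zero => intro x; simp
    | succ i ih =>
      intro x
      rw [Nat.cast_succ, add_smul, one_smul, ← add_assoc, hstep, ih]
  have hα : ∀ α ∈ Icc (0:ℝ) 1, |g (x + α • y) - g x| ≤ V / S := by
    intro α hα
    have h1 := hgV x y S α (fun j => by simpa [hydef] using hy j) hα.1 hα.2
    have h2 : ∀ i ∈ Finset.range S, g (x + ((i:ℝ) + α) • y) - g (x + (i:ℝ) • y) =
        g (x + α • y) - g x := by
      intro i _
      rw [hsteps, add_smul, add_comm ((i:ℝ) • y), ← add_assoc, hsteps]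
    rw [Finset.sum_congr rfl h2, Finset.sum_const, Finset.card_range, nsmul_eq_mul, abs_mul,
      abs_of_pos hSpos] at h1
    rw [le_div_iff₀ hSpos]
    linarith
  have hPP : PL (z :: l) f x - PL l f x = ∫ θ in (0:ℝ)..1, (g (x + θ • y) - g x) := by
    rw [PL_cons, intervalIntegral.integral_sub]
    · unfold PP
      congr 1
      · refine intervalIntegral.integral_congr fun θ _ => ?_
        have h1 : x + θ • ic z = (x + θ • y) + θ • u := by
          rw [hydef, smul_sub]
          abel
        simp only [← hg]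
        rw [h1, huI]
      · simp [hg]
    · apply Continuous.intervalIntegrable
      have := hgood.cont
      fun_prop
    · exact intervalIntegrable_const
  rw [hPP]
  have h2 := intervalIntegral.norm_integral_le_of_norm_le_const (a := (0:ℝ)) (b := 1)
    (C := V / S) (f := fun θ : ℝ => g (x + θ • y) - g x) (fun θ hθ => by
          rw [Real.norm_eq_abs]
          rw [uIoc_of_le zero_le_one] at hθ
          exact hα θ ⟨hθ.1.le, hθ.2⟩)
  rw [Real.norm_eq_abs] at h2
  simpa using h2

end Pool.Agent.Helper99.MK
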