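import Mathlib
import Pool.Agent.Helper99.MK.V

/-!
# Closed subspaces and closures
-/

set_option autoImplicit false

open Set MeasureTheory Module

namespace Pool.Agent.Helper99.MK

variable {k : ℕ}

/-- `U` contains all integer vectors at distance at most `ρ` from `U` -/
def Clo (U : Submodule ℝ (Fin k → ℝ)) (ρ : ℝ) : Prop :=
  ∀ (z : Fin k → ℤ) (u : Fin k → ℝ), u ∈ U → (∀ j, |ic z j - u j| ≤ ρ) → ic z ∈ U

lemma VB_nonneg {f : (Fin k → ℝ) → ℝ} {V : ℝ} (h : VB f V) : 0 ≤ V := by
  have := h 0 0 0 0 (by simp) le_rfl zero_le_one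
  simpa using this

theorem closure_exists (ρ : ℝ) : ∀ (n : ℕ) (l : List (Fin k → ℤ)), k ≤ finrank ℝ (spn l) + n →
    ∃ l' : List (Fin k → ℤ), spn l ≤ spn l' ∧ Clo (spn l') ρ ∧
      (∀ U : Submodule ℝ (Fin k → ℝ), Clo U ρ → spn l ≤ U → spn l' ≤ U) ∧
      ∀ (f : (Fin k → ℝ) → ℝ) (V : ℝ) (S : ℕ), Good f → VB f V → 1 ≤ S → S * ρ ≤ 1 / 8 →
        ∀ x, |PL l' f x - PL l f x| ≤ n * (V / S) := by
  intro n
  induction n with
  | zero =>
    intro l hl
    refine ⟨l, le_rfl, ?_, fun U _ h => h, ?_⟩
    · have htop : spn l = ⊤ := by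
        apply Submodule.eq_top_of_finrank_eq
        apply le_antisymm (Submodule.finrank_le _)
        rw [finrank_fin_fun]
        omega
      intro z u _ _
      rw [htop]
      exact Submodule.mem_top
    · intro f V S _ _ _ _ x
      simp
  | succ n ih =>
    intro l hl
    by_cases hc : Clo (spn l) ρ
    · refine ⟨l, le_rfl, hc, fun U _ h => h, ?_⟩
      intro f V S _ hV hS _ x
      have h1 := VB_nonneg hV
      rw [sub_self, abs_zero]
      positivity
    · unfold Clo at hc
      push Not at hc
      obtain ⟨z, u, hu, hz, hzU⟩ := hc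
      have hlt : spn l < spn (z :: l) := by
        rw [spn_cons]
        refine lt_of_le_of_ne le_sup_right ?_
        intro heq
        apply hzU
        rw [heq]
        exact Submodule.mem_sup_left (Submodule.mem_span_singleton_self _)
      have hfin := Submodule.finrank_lt_finrank_of_lt hlt
      obtain ⟨l', h1, h2, h3, h4⟩ := ih (z :: l) (by omega)
      refine ⟨l', hlt.le.trans h1, h2, ?_, ?_⟩
      · intro U hU hlU
        apply h3 U hU
        rw [spn_cons]
        apply sup_le _ hlU
        rw [Submodule.span_singleton_le_iff_mem]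
        exact hU z u (hlU hu) hz
      · intro f V S hf hV hS hSρ x
        have e1 := h4 f V S hf hV hS hSρ x
        have hSpos : (0:ℝ) < S := by exact_mod_cast hS
        have e2 := key_close hf hV l z u hu hS (fun j => by
          calc (S:ℝ) * |ic z j - u j| ≤ S * ρ := by
                apply mul_le_mul_of_nonneg_left (hz j) hSpos.le
            _ ≤ 1 / 8 := hSρ) x
        have e3 : PL l' f x - PL l f x = (PL l' f x - PL (z :: l) f x) +
          (PL (z :: l) f x - PL l f x) := by ring
        rw [e3]
        refine (abs_add_le _ _).trans ?_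
        push_cast
        linarith

end Pool.Agent.Helper99.MK
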