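import Mathlib
import Pool.Agent.Helper99.MK.C

/-!
# Short relations detect closed subspaces
-/

set_option autoImplicit false

open Set MeasureTheory Module

namespace Pool.Agent.Helper99.MK

variable {k : ℕ}

/-- integer dot product -/
def idot (H w : Fin k → ℤ) : ℤ := ∑ j, H j * w j

/-- characters (real part) -/
noncomputable def ch (H : Fin k → ℤ) (x : Fin k → ℝ) : ℝ :=
  Real.cos (2 * Real.pi * ∑ j, (H j : ℝ) * x j)

lemma ch_cont (H : Fin k → ℤ) : Continuous (ch H) := by
  unfold ch; fun_prop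

lemma ch_zero (H : Fin k → ℤ) : ch H 0 = 1 := by simp [ch]

lemma sum_add_smul (H : Fin k → ℤ) (x v : Fin k → ℝ) (t : ℝ) :
    ∑ j, (H j : ℝ) * (x + t • v) j = ∑ j, (H j : ℝ) * x j + t * ∑ j, (H j : ℝ) * v j := by
  rw [Finset.mul_sum, ← Finset.sum_add_distrib]
  refine Finset.sum_congr rfl fun j _ => ?_
  simp only [Pi.add_apply, Pi.smul_apply, smul_eq_mul]
  ring

lemma ch_inv {H : Fin k → ℤ} {v : Fin k → ℝ} (h : ∑ j, (H j : ℝ) * v j = 0) : v ∈ Inv (ch H) := by
  intro x t
  unfold ch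
  rw [sum_add_smul, h, mul_zero, add_zero]

lemma idot_cast (H w : Fin k → ℤ) : ((idot H w : ℤ) : ℝ) = ∑ j, (H j : ℝ) * ic w j := by
  simp [idot, ic]

lemma PP_ch_of_ne {H w : Fin k → ℤ} (h : idot H w ≠ 0) : PP w (ch H) = fun _ => 0 := by
  ext x
  unfold PP ch
  simp only [sum_add_smul]
  rw [← idot_cast]
  set n := idot H w
  set s := ∑ j, (H j : ℝ) * x j
  have hn : (2 * Real.pi * (n:ℝ)) ≠ 0 := by
    have : (n:ℝ) ≠ 0 := by exact_mod_cast h
    positivity
  have h1 : ∀ θ : ℝ, Real.cos (2 * Real.pi * (s + θ * n)) =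
      (fun y => Real.cos y) ((2 * Real.pi * n) * θ + 2 * Real.pi * s) := by
    intro θ
    simp only
    congr 1; ring
  simp only [h1]
  rw [intervalIntegral.integral_comp_mul_add (fun y => Real.cos y) hn, integral_cos]
  rw [mul_zero, zero_add, mul_one, add_comm (2 * Real.pi * (n:ℝ)),
    show 2 * Real.pi * s + 2 * Real.pi * (n:ℝ) = 2 * Real.pi * s + n * (2 * Real.pi) by ring,
    Real.sin_add_int_mul_two_pi, sub_self, smul_zero]

lemma PP_ch_of_eq {H w : Fin k → ℤ} (h : idot H w = 0) : PP w (ch H) = ch H := by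
  apply PP_of_mem
  apply ch_inv
  rw [← idot_cast, h, Int.cast_zero]

open Classical in
lemma PL_ch (l : List (Fin k → ℤ)) (H : Fin k → ℤ) :
    PL l (ch H) = if ∀ w ∈ l, idot H w = 0 then ch H else fun _ => 0 := by
  induction l with
  | nil => simp
  | cons w l ih =>
    rw [PL_cons, ih]
    by_cases h1 : ∀ v ∈ l, idot H v = 0
    · rw [if_pos h1]
      by_cases h2 : idot H w = 0
      · rw [PP_ch_of_eq h2, if_pos]
        intro v hv
        rcases List.mem_cons.mp hv with rfl | hv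
        · exact h2
        · exact h1 v hv
      · rw [PP_ch_of_ne h2, if_neg]
        intro h3
        exact h2 (h3 w (List.mem_cons_self))
    · rw [if_neg h1, PP_const, if_neg]
      intro h3
      exact h1 fun v hv => h3 v (List.mem_cons_of_mem _ hv)

/-- the Fejér-like kernel -/
noncomputable def ww (x : Fin k → ℝ) : ℝ := ∏ j, ((1 + Real.cos (2 * Real.pi * x j)) / 2)

lemma ww_cont : Continuous (ww (k := k)) := by
  unfold ww; fun_prop

lemma fac_nonneg (t : ℝ) : 0 ≤ (1 + Real.cos t) / 2 := by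
  linarith [Real.neg_one_le_cos t]

lemma fac_le_one (t : ℝ) : (1 + Real.cos t) / 2 ≤ 1 := by
  linarith [Real.cos_le_one t]

lemma ww_nonneg (x : Fin k → ℝ) : 0 ≤ ww x := Finset.prod_nonneg fun _ _ => fac_nonneg _

lemma ww_le_one (x : Fin k → ℝ) : ww x ≤ 1 :=
  Finset.prod_le_one (fun _ _ => fac_nonneg _) fun _ _ => fac_le_one _

lemma ww_le_fac (x : Fin k → ℝ) (j : Fin k) : ww x ≤ (1 + Real.cos (2 * Real.pi * x j)) / 2 := by
  classical
  unfold ww
  rw [← Finset.mul_prod_erase Finset.univ _ (Finset.mem_univ j)]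
  apply mul_le_of_le_one_right (fac_nonneg _)
  exact Finset.prod_le_one (fun _ _ => fac_nonneg _) fun _ _ => fac_le_one _

lemma fac_pow (M : ℕ) (t : ℝ) : ((((1 + Real.cos (2 * Real.pi * t)) / 2) ^ M : ℝ) : ℂ) =
    ∑ i ∈ Finset.range (2 * M + 1), (((2 * M).choose i : ℝ) / 4 ^ M : ℝ) *
      Complex.exp (2 * Real.pi * Complex.I * (((i:ℤ) - (M:ℤ) : ℤ) : ℂ) * t) := by
  set E := Complex.exp (2 * Real.pi * Complex.I * t) with hE
  have hE0 : E ≠ 0 := Complex.exp_ne_zero _
  have h1 : (((1 + Real.cos (2 * Real.pi * t)) / 2 : ℝ) : ℂ) = E⁻¹ * (E + 1) ^ 2 / 4 := by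
    push_cast
    rw [Complex.cos]
    have e1 : (2 * (Real.pi:ℂ) * t) * Complex.I = 2 * Real.pi * Complex.I * t := by ring
    have e2 : -(2 * (Real.pi:ℂ) * t) * Complex.I = -(2 * Real.pi * Complex.I * t) := by ring
    rw [e1, e2, ← hE]
    have e3 : Complex.exp (-(2 * Real.pi * Complex.I * t)) = E⁻¹ := by
      rw [Complex.exp_neg]
    rw [e3]
    field_simp
    ring
  rw [Complex.ofReal_pow, h1, div_pow, mul_pow, ← pow_mul, add_pow, Finset.mul_sum, Finset.sum_div]
  refine Finset.sum_congr rfl fun i hi => ?_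
  have e4 : Complex.exp (2 * Real.pi * Complex.I * (((i:ℤ) - (M:ℤ) : ℤ) : ℂ) * t) =
      E ^ i * E⁻¹ ^ M := by
    rw [hE, ← Complex.exp_neg, ← Complex.exp_nat_mul, ← Complex.exp_nat_mul, ← Complex.exp_add]
    congr 1
    push_cast
    ring
  rw [e4]
  push_cast
  rw [one_pow]
  ring

/-- expansion of a power of the kernel -/
lemma ww_pow (M : ℕ) (x : Fin k → ℝ) : ww x ^ M =
    ∑ p ∈ Fintype.piFinset (fun _ : Fin k => Finset.range (2 * M + 1)),
      (∏ j, (((2 * M).choose (p j) : ℝ) / 4 ^ M)) *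
        ch (fun j => (p j : ℤ) - (M:ℤ)) x := by
  have h1 : ((ww x ^ M : ℝ) : ℂ) = ∑ p ∈ Fintype.piFinset (fun _ : Fin k => Finset.range (2 * M + 1)),
      (((∏ j, (((2 * M).choose (p j) : ℝ) / 4 ^ M)) : ℝ) : ℂ) *
        Complex.exp (((2 * Real.pi * ∑ j, (((p j : ℤ) - (M:ℤ) : ℤ) : ℝ) * x j : ℝ) : ℂ) * Complex.I) := by
    unfold ww
    rw [← Finset.prod_pow, Complex.ofReal_prod]
    simp only [fac_pow]
    rw [Finset.prod_univ_sum]
    refine Finset.sum_congr rfl fun p _ => ?_
    rw [Finset.prod_mul_distrib, ← Complex.exp_sum, Complex.ofReal_prod]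
    congr 2
    push_cast
    rw [Finset.mul_sum, Finset.sum_mul]
    refine Finset.sum_congr rfl fun j _ => ?_
    ring
  have h2 : ww x ^ M = ((ww x ^ M : ℝ) : ℂ).re := by rw [Complex.ofReal_re]
  rw [h2, h1, Complex.re_sum]
  refine Finset.sum_congr rfl fun p _ => ?_
  rw [Complex.re_ofReal_mul, Complex.exp_ofReal_mul_I_re]
  rfl

open Classical in
lemma PL_ww_pow (l : List (Fin k → ℤ)) (M : ℕ) : PL l (fun x => ww x ^ M) = fun x =>
    ∑ p ∈ Fintype.piFinset (fun _ : Fin k => Finset.range (2 * M + 1)),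
      (∏ j, (((2 * M).choose (p j) : ℝ) / 4 ^ M)) *
        (if ∀ w ∈ l, idot (fun j => (p j : ℤ) - (M:ℤ)) w = 0 then
          ch (fun j => (p j : ℤ) - (M:ℤ)) x else 0) := by
  have h1 : (fun x : Fin k → ℝ => ww x ^ M) = fun x =>
    ∑ p ∈ Fintype.piFinset (fun _ : Fin k => Finset.range (2 * M + 1)),
      (fun x => (∏ j, (((2 * M).choose (p j) : ℝ) / 4 ^ M)) *
        ch (fun j => (p j : ℤ) - (M:ℤ)) x) x := by
    ext x
    exact ww_pow M x
  rw [h1, PL_sum _ (fun (p : Fin k → ℕ) (x : Fin k → ℝ) =>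
    (∏ j, (((2 * M).choose (p j) : ℝ) / 4 ^ M)) * ch (fun j => (p j : ℤ) - (M:ℤ)) x)
    (fun p => (ch_cont _).const_mul _)]
  ext x
  refine Finset.sum_congr rfl fun p _ => ?_
  rw [PL_smul, PL_ch]
  simp only
  split_ifs <;> rfl

lemma PL_ww_zero_ge (l : List (Fin k → ℤ)) (M : ℕ) :
    (1 / (2 * M + 1) : ℝ) ^ k ≤ PL l (fun x => ww x ^ M) 0 := by
  classical
  rw [PL_ww_pow]
  simp only
  have hmem : (fun _ : Fin k => M) ∈ Fintype.piFinset (fun _ : Fin k => Finset.range (2 * M + 1)) := by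
    rw [Fintype.mem_piFinset]
    intro j
    rw [Finset.mem_range]
    omega
  refine le_trans ?_ (Finset.single_le_sum (fun p _ => ?_) hmem)
  · rw [if_pos, ch_zero, mul_one, Finset.prod_const, Finset.card_univ, Fintype.card_fin]
    · apply pow_le_pow_left₀ (by positivity)
      rw [div_le_div_iff₀ (by positivity) (by positivity), one_mul]
      have h1 := Nat.four_pow_le_two_mul_add_one_mul_central_binom M
      have h2 : ((4:ℝ)) ^ M ≤ (2 * M + 1) * ((2 * M).choose M : ℝ) := by exact_mod_cast h1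
      linarith
    · intro w _
      simp [idot]
  · apply mul_nonneg
    · exact Finset.prod_nonneg fun _ _ => by positivity
    · split_ifs
      · rw [ch_zero]; exact zero_le_one
      · exact le_rfl

lemma sum_inv {ι : Type*} (T : Finset ι) (f : ι → (Fin k → ℝ) → ℝ) {v : Fin k → ℝ}
    (h : ∀ i ∈ T, v ∈ Inv (f i)) : v ∈ Inv (fun x => ∑ i ∈ T, f i x) := by
  intro x t
  refine Finset.sum_congr rfl fun i hi => ?_
  exact h i hi x t

lemma PL_ww_inv {l : List (Fin k → ℤ)} {M₀ M : ℕ} (hM : M ≤ M₀) {a : Fin k → ℝ}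
    (h : ∀ H : Fin k → ℤ, (∀ w ∈ l, idot H w = 0) → ∑ j, |H j| ≤ k * M₀ →
      ∑ j, (H j : ℝ) * a j = 0) : a ∈ Inv (PL l (fun x => ww x ^ M)) := by
  classical
  rw [PL_ww_pow]
  refine sum_inv _ (fun (p : Fin k → ℕ) (x : Fin k → ℝ) => (∏ j, (((2 * M).choose (p j) : ℝ) / 4 ^ M)) *
        (if ∀ w ∈ l, idot (fun j => (p j : ℤ) - (M:ℤ)) w = 0 then
          ch (fun j => (p j : ℤ) - (M:ℤ)) x else 0)) fun p hp => ?_
  intro x t
  simp only
  by_cases h1 : ∀ w ∈ l, idot (fun j => (p j : ℤ) - (M:ℤ)) w = 0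
  · rw [if_pos h1, if_pos h1]
    congr 1
    apply ch_inv
    apply h _ h1
    rw [Fintype.mem_piFinset] at hp
    calc ∑ j, |(p j : ℤ) - (M:ℤ)| ≤ ∑ _j : Fin k, (M₀:ℤ) := by
          refine Finset.sum_le_sum fun j _ => ?_
          have := Finset.mem_range.mp (hp j)
          rw [abs_le]
          constructor <;> omega
      _ = k * M₀ := by simp
  · rw [if_neg h1, if_neg h1]

/-- transference theorem -/
theorem transference {l : List (Fin k → ℤ)} {ρ : ℝ} (hρ : 0 < ρ) (hρ1 : ρ ≤ 1) (hcl : Clo (spn l) ρ)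
    (a : Fin k → ℝ) (M : ℕ) (hM : (1 - 4 * (ρ / 3) ^ 2) ^ M < (1 / (2 * M + 1) : ℝ) ^ k)
    (h : ∀ H : Fin k → ℤ, (∀ w ∈ l, idot H w = 0) → ∑ j, |H j| ≤ k * M →
      ∑ j, (H j : ℝ) * a j = 0) : a ∈ spn l := by
  classical
  set β := ρ / 3 with hβ
  have hβ0 : 0 < β := by positivity
  set δ := 4 * β ^ 2 with hδ
  have hδ1 : δ < 1 := by
    rw [hδ, hβ]; nlinarith
  -- choice of the exponent
  have hex : ∃ m < M, (1 - δ) * PL l (fun x => ww x ^ m) 0 < PL l (fun x => ww x ^ (m + 1)) 0 := by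
    by_contra hcon
    push Not at hcon
    have h1 : ∀ m ≤ M, PL l (fun x => ww x ^ m) 0 ≤ (1 - δ) ^ m := by
      intro m
      induction m with
      | zero =>
        intro _
        simp only [pow_zero, PL_const]
        exact le_rfl
      | succ m ih =>
        intro hm
        refine (hcon m (by omega)).trans ?_
        rw [pow_succ, mul_comm ((1 - δ) ^ m)]
        exact mul_le_mul_of_nonneg_left (ih (by omega)) (by linarith)
    have h2 := h1 M le_rfl
    have h3 := PL_ww_zero_ge l M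
    linarith
  obtain ⟨m, hmM, hm⟩ := hex
  have hc1 : Continuous fun x : Fin k → ℝ => ww x ^ (m + 1) := ww_cont.pow _
  have hc2 : Continuous fun x : Fin k → ℝ => (1 - δ) * ww x ^ m := (ww_cont.pow _).const_mul _
  have hinv1 : a ∈ Inv (PL l (fun x => ww x ^ (m + 1))) := PL_ww_inv (by omega) h
  have hinv2 : a ∈ Inv (PL l (fun x => ww x ^ m)) := PL_ww_inv (by omega) h
  -- near integer points everywhere on the line
  have hnear : ∀ t : ℝ, ∃ u ∈ spn l, ∃ z : Fin k → ℤ, ∀ j, |(t • a + u) j - ic z j| ≤ β := by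
    intro t
    by_contra hcon
    push Not at hcon
    have h1 : PL l (fun x => ww x ^ (m + 1) - (1 - δ) * ww x ^ m) (t • a) ≤ 0 := by
      apply PL_le_of_forall (hc1.sub hc2)
      intro u hu
      by_contra hpos
      push Not at hpos
      have h2 : 0 < ww (t • a + u) ^ m * (ww (t • a + u) - (1 - δ)) := by
        have hpos' : 0 < ww (t • a + u) ^ (m + 1) - (1 - δ) * ww (t • a + u) ^ m := hpos
        rw [pow_succ] at hpos'
        linarith
      have h3 : 1 - δ < ww (t • a + u) := by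
        have h4 : 0 ≤ ww (t • a + u) ^ m := pow_nonneg (ww_nonneg _) _
        by_contra hle
        push Not at hle
        have : ww (t • a + u) ^ m * (ww (t • a + u) - (1 - δ)) ≤ 0 :=
          mul_nonpos_of_nonneg_of_nonpos h4 (by linarith)
        linarith
      obtain ⟨j, hj⟩ := hcon u hu (fun j => round ((t • a + u) j))
      have h5 := h3.trans_le (ww_le_fac _ j)
      set y := (t • a + u) j with hy
      have h6 : Real.cos (2 * Real.pi * y) = Real.cos (2 * Real.pi * (y - round y)) := by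
        rw [show 2 * Real.pi * (y - round y) = 2 * Real.pi * y - (round y : ℤ) * (2 * Real.pi) by ring,
          Real.cos_sub_int_mul_two_pi]
      have h7 : |y - round y| ≤ 1 / 2 := abs_sub_round y
      have h8 : Real.cos (2 * Real.pi * (y - round y)) ≤
          1 - 2 / Real.pi ^ 2 * (2 * Real.pi * (y - round y)) ^ 2 := by
        apply Real.cos_le_one_sub_mul_cos_sq
        rw [abs_mul, abs_of_pos (by positivity : 0 < 2 * Real.pi)]
        nlinarith [Real.pi_pos]
      have h9 : 1 - 2 / Real.pi ^ 2 * (2 * Real.pi * (y - round y)) ^ 2 =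
          1 - 8 * (y - round y) ^ 2 := by
        have := Real.pi_ne_zero
        field_simp
        ring
      rw [h6] at h5
      rw [h9] at h8
      have h10 : (y - round y) ^ 2 < β ^ 2 := by
        rw [hδ] at h5
        linarith
      have h11 : |y - round y| < β := abs_lt_of_sq_lt_sq h10 hβ0.le
      simp only [ic] at hj
      linarith
    rw [PL_sub hc1 hc2, PL_smul] at h1
    simp only at h1
    have e1 := hinv1 0 t
    have e2 := hinv2 0 t
    rw [zero_add] at e1 e2
    rw [e1, e2] at h1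
    linarith
  -- discrete continuity
  set τ := β / (‖a‖ + 1) with hτ
  have hτ0 : 0 < τ := by positivity
  have hτa : ∀ j, |τ * a j| ≤ β := by
    intro j
    rw [abs_mul, abs_of_pos hτ0]
    have h1 : |a j| ≤ ‖a‖ := by
      rw [← Real.norm_eq_abs]
      exact norm_le_pi_norm a j
    calc τ * |a j| ≤ τ * (‖a‖ + 1) := by
          apply mul_le_mul_of_nonneg_left _ hτ0.le
          linarith
      _ = β := by
          rw [hτ]
          field_simp
  have hclaim : ∀ n : ℕ, ∃ u ∈ spn l, ∀ j, |((n:ℝ) * τ) * a j - u j| ≤ β := by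
    intro n
    induction n with
    | zero =>
      refine ⟨0, Submodule.zero_mem _, fun j => ?_⟩
      simp [hβ0.le]
    | succ n ih =>
      obtain ⟨u, hu, hua⟩ := ih
      obtain ⟨v, hv, z, hz⟩ := hnear (((n + 1 : ℕ) : ℝ) * τ)
      have hzU : ic z ∈ spn l := by
        apply hcl z (v + u) (Submodule.add_mem _ hv hu)
        intro j
        have e1 := hz j
        have e2 := hua j
        have e3 := hτa j
        have e4 : ic z j - (v + u) j = -((((((n + 1 : ℕ) : ℝ) * τ) • a + v) j - ic z j)) +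
            (((n:ℝ) * τ) * a j - u j) + τ * a j := by
          simp only [Pi.add_apply, Pi.smul_apply, smul_eq_mul]
          push_cast
          ring
        rw [e4]
        refine (abs_add_le _ _).trans ?_
        refine (add_le_add (abs_add_le _ _) le_rfl).trans ?_
        rw [abs_neg]
        rw [hβ] at e1 e2 e3
        linarith
      refine ⟨ic z - v, Submodule.sub_mem _ hzU hv, fun j => ?_⟩
      have e1 := hz j
      have e4 : (((n + 1 : ℕ) : ℝ) * τ) * a j - (ic z - v) j =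
          ((((n + 1 : ℕ) : ℝ) * τ) • a + v) j - ic z j := by
        simp only [Pi.add_apply, Pi.sub_apply, Pi.smul_apply, smul_eq_mul]
        ring
      rw [e4]
      exact e1
  -- conclusion
  have hclosed : IsClosed ((spn l : Submodule ℝ (Fin k → ℝ)) : Set (Fin k → ℝ)) :=
    Submodule.closed_of_finiteDimensional _
  have hmem : a ∈ closure ((spn l : Submodule ℝ (Fin k → ℝ)) : Set (Fin k → ℝ)) := by
    rw [Metric.mem_closure_iff]
    intro ε hε
    obtain ⟨n, hn⟩ := exists_nat_gt (β / (τ * ε))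
    have hn0 : 0 < (n:ℝ) := lt_of_le_of_lt (by positivity) hn
    obtain ⟨u, hu, hua⟩ := hclaim n
    refine ⟨((n:ℝ) * τ)⁻¹ • u, Submodule.smul_mem _ _ hu, ?_⟩
    rw [dist_eq_norm]
    have hb : ‖a - ((n:ℝ) * τ)⁻¹ • u‖ ≤ ((n:ℝ) * τ)⁻¹ * β := by
      rw [pi_norm_le_iff_of_nonneg (by positivity)]
      intro j
      have e1 := hua j
      have e2 : (a - ((n:ℝ) * τ)⁻¹ • u) j = ((n:ℝ) * τ)⁻¹ * (((n:ℝ) * τ) * a j - u j) := by
        simp only [Pi.sub_apply, Pi.smul_apply, smul_eq_mul]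
        field_simp
      rw [e2, Real.norm_eq_abs, abs_mul, abs_of_pos (by positivity : 0 < ((n:ℝ) * τ)⁻¹)]
      exact mul_le_mul_of_nonneg_left e1 (by positivity)
    refine lt_of_le_of_lt hb ?_
    rw [div_lt_iff₀ (by positivity)] at hn
    rw [inv_mul_lt_iff₀ (by positivity)]
    linarith
  rwa [hclosed.closure_eq] at hmem

end Pool.Agent.Helper99.MK
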