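import Mathlib
import Pool.Graph.R_seed8.H338R2.AS.T3
import Pool.Agent.Helper99.MK.T

/-!
# Stability of the truncated logarithmic integral
-/

set_option autoImplicit false

open Set MeasureTheory Module

namespace Pool.Agent.Helper99.MK

open Pool.Agent.H338R2.AS (es sp lm Sim small_values)
open Pool.Agent.H338R2.AS.T3 (VV VV_meas VV_tendsto zero_null es_continuous es_norm_le lm_eq
  log_integrable)

variable {k : ℕ}

/-- orthogonality to a submodule -/
lemma dot_zero_of_mem {l : List (Fin k → ℤ)} {H : Fin k → ℤ} (h : ∀ w ∈ l, idot H w = 0)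
    {v : Fin k → ℝ} (hv : v ∈ spn l) : ∑ j, (H j : ℝ) * v j = 0 := by
  let φ : (Fin k → ℝ) →ₗ[ℝ] ℝ :=
    { toFun := fun v => ∑ j, (H j : ℝ) * v j
      map_add' := by
        intro v w
        rw [← Finset.sum_add_distrib]
        refine Finset.sum_congr rfl fun j _ => ?_
        simp only [Pi.add_apply]; ring
      map_smul' := by
        intro t v
        simp only [RingHom.id_apply, smul_eq_mul]
        rw [Finset.mul_sum]
        refine Finset.sum_congr rfl fun j _ => ?_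
        simp only [Pi.smul_apply, smul_eq_mul]; ring }
  have h1 : spn l ≤ LinearMap.ker φ := by
    rw [spn_le_iff]
    intro w hw
    rw [LinearMap.mem_ker]
    change ∑ j, (H j : ℝ) * ic w j = 0
    rw [← idot_cast, h w hw, Int.cast_zero]
  exact h1 hv

theorem mem_of_sim {a d : Fin k → ℤ} {ρ : ℝ} (hρ : 0 < ρ) (hρ1 : ρ ≤ 1) {M m : ℕ}
    (hM : (1 - 4 * (ρ / 3) ^ 2) ^ M < (1 / (2 * M + 1) : ℝ) ^ k) (hkm : k * M ≤ 2 * m)
    (hs : ∀ u : Fin k → ℤ, ∑ j, u j = 0 → ∑ j, |u j| ≤ 2 * m → ∑ j, u j * d j = 0 →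
      ∑ j, u j * a j = 0) {l : List (Fin k → ℤ)} (hl : spn [d, one1] ≤ spn l)
    (hcl : Clo (spn l) ρ) : ic a ∈ spn l := by
  apply transference hρ hρ1 hcl (ic a) M hM
  intro H hH hlen
  have hd : ic d ∈ spn l := hl (mem_spn (by simp))
  have h1 : ic one1 ∈ spn l := hl (mem_spn (by simp))
  have e1 := dot_zero_of_mem hH hd
  have e2 := dot_zero_of_mem hH h1
  have e3 : ∑ j, H j * d j = 0 := by
    have : ((∑ j, H j * d j : ℤ) : ℝ) = 0 := by
      rw [← e1]
      push_cast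
      rfl
    exact_mod_cast this
  have e4 : ∑ j, H j = 0 := by
    have : ((∑ j, H j : ℤ) : ℝ) = 0 := by
      rw [← e2]
      push_cast
      refine Finset.sum_congr rfl fun j _ => ?_
      simp [ic, one1]
    exact_mod_cast this
  have e5 := hs H e4 (hlen.trans (by exact_mod_cast hkm)) e3
  have : ((∑ j, H j * a j : ℤ) : ℝ) = 0 := by rw [e5]; simp
  rw [← this]
  push_cast
  rfl

lemma PL_pair (c : Fin k → ℂ) {δ : ℝ} (hδ : 0 < δ) (a : Fin k → ℤ) :
    PL [a, one1] (gg c δ) 0 = ∫ t in (0:ℝ)..1, Real.log (max ‖es c a t‖ δ) := by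
  rw [PL_cons, PL_cons, PL_nil, PP_of_mem (gg_one c δ)]
  unfold PP
  refine intervalIntegral.integral_congr fun t _ => ?_
  have h1 : FF c (0 + t • ic a) = es c a t := by
    unfold FF es
    refine Finset.sum_congr rfl fun j _ => ?_
    congr 2
    simp only [zero_add, Pi.smul_apply, smul_eq_mul, ic]
    push_cast
    ring
  simp only [gg, h1]

/-- **Stability of truncated logarithmic integrals** -/
theorem trunc_stable (c : Fin k → ℂ) {δ L : ℝ} (hδ : 0 < δ) (hδL : δ ≤ L) (hL : ∑ j, ‖c j‖ ≤ L)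
    {a d : Fin k → ℤ} {ρ : ℝ} (hρ : 0 < ρ) (hρ1 : ρ ≤ 1) {M m : ℕ}
    (hM : (1 - 4 * (ρ / 3) ^ 2) ^ M < (1 / (2 * M + 1) : ℝ) ^ k) (hkm : k * M ≤ 2 * m)
    (hs : Sim m a d) {S : ℕ} (hS : 1 ≤ S) (hSρ : S * ρ ≤ 1 / 8) :
    |(∫ t in (0:ℝ)..1, Real.log (max ‖es c a t‖ δ)) -
      ∫ t in (0:ℝ)..1, Real.log (max ‖es c d t‖ δ)| ≤
      2 * (k * (((2 * (k ^ 2 + 1)) * Real.log (L / δ)) / S)) := by
  obtain ⟨la, ha1, ha2, ha3, ha4⟩ := closure_exists ρ k [a, one1] (by omega)
  obtain ⟨ld, hd1, hd2, hd3, hd4⟩ := closure_exists ρ k [d, one1] (by omega)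
  have hone_a : ic (one1 : Fin k → ℤ) ∈ spn la := ha1 (mem_spn (by simp))
  have hone_d : ic (one1 : Fin k → ℤ) ∈ spn ld := hd1 (mem_spn (by simp))
  have hmem1 : ic a ∈ spn ld := mem_of_sim hρ hρ1 hM hkm
    (fun u h1 h2 h3 => (hs u h1 h2).mpr h3) hd1 hd2
  have hmem2 : ic d ∈ spn la := mem_of_sim hρ hρ1 hM hkm
    (fun u h1 h2 h3 => (hs u h1 h2).mp h3) ha1 ha2
  have hle1 : spn la ≤ spn ld := by
    apply ha3 _ hd2
    rw [spn_le_iff]
    intro w hw
    simp only [List.mem_cons, List.not_mem_nil, or_false] at hw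
    rcases hw with rfl | rfl
    · exact hmem1
    · exact hone_d
  have hle2 : spn ld ≤ spn la := by
    apply hd3 _ ha2
    rw [spn_le_iff]
    intro w hw
    simp only [List.mem_cons, List.not_mem_nil, or_false] at hw
    rcases hw with rfl | rfl
    · exact hmem2
    · exact hone_a
  have heq : PL la (gg c δ) = PL ld (gg c δ) :=
    PL_eq_of_spn_eq (gg_good c hδ) (le_antisymm hle1 hle2)
  have hVB := gg_VB c hδ hδL hL
  have e1 := ha4 (gg c δ) _ S (gg_good c hδ) hVB hS hSρ 0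
  have e2 := hd4 (gg c δ) _ S (gg_good c hδ) hVB hS hSρ 0
  rw [← PL_pair c hδ a, ← PL_pair c hδ d]
  rw [heq] at e1
  have e3 : PL [a, one1] (gg c δ) 0 - PL [d, one1] (gg c δ) 0 =
      -(PL ld (gg c δ) 0 - PL [a, one1] (gg c δ) 0) +
      (PL ld (gg c δ) 0 - PL [d, one1] (gg c δ) 0) := by ring
  rw [e3]
  refine (abs_add_le _ _).trans ?_
  rw [abs_neg]
  linarith

section tail
variable {G : ℝ → ℂ} {r : ℕ} {H s : ℝ}

open Classical in
lemma tail_layer (hr : 1 ≤ r) (hs : 0 < s) (hH : 0 < H)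
    {t : ℝ} (ht : t ∈ Icc (0 : ℝ) 1) (hw : 0 < ‖G t‖) :
    ENNReal.ofReal (Real.log (max ‖G t‖ ((s / 2) ^ r * H)) - Real.log ‖G t‖) ≤
      ENNReal.ofReal (r * Real.log 2) * ∑' n, (VV G r H s n).indicator 1 t := by
  have hδ : 0 < (s / 2) ^ r * H := by positivity
  by_cases hge : (s / 2) ^ r * H ≤ ‖G t‖
  · rw [max_eq_left hge, sub_self, ENNReal.ofReal_zero]
    exact zero_le
  · push Not at hge
    rw [max_eq_right hge.le]
    have hex : ∃ n, t ∉ VV G r H s n := by
      have := (VV_tendsto (s := s) (H := H) hr).eventually (gt_mem_nhds hw)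
      obtain ⟨n, hn⟩ := this.exists
      exact ⟨n, fun h => absurd h.2 (not_lt.mpr hn.le)⟩
    set n₀ := Nat.find hex with hn₀
    have hn1 : t ∉ VV G r H s n₀ := Nat.find_spec hex
    have hn2 : ∀ i < n₀, t ∈ VV G r H s i := fun i hi => not_not.mp (Nat.find_min hex hi)
    have hge2 : ((s / 2 ^ n₀) / 2) ^ r * H ≤ ‖G t‖ := by
      by_contra hcon
      exact hn1 ⟨ht, not_le.mp hcon⟩
    have hlog : Real.log ((s / 2) ^ r * H) - Real.log ‖G t‖ ≤ (r * Real.log 2) * n₀ := by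
      have h5 : Real.log (((s / 2 ^ n₀) / 2) ^ r * H) ≤ Real.log ‖G t‖ :=
        Real.log_le_log (by positivity) hge2
      have h6 : ((s / 2 ^ n₀) / 2) ^ r * H = ((s / 2) ^ r * H) / (2 ^ (n₀ * r)) := by
        rw [show (s / 2 ^ n₀) / 2 = (s / 2) / 2 ^ n₀ by ring, div_pow, ← pow_mul]
        ring
      rw [h6, Real.log_div hδ.ne' (by positivity), Real.log_pow] at h5
      push_cast at h5
      linarith
    have htsum : (n₀ : ENNReal) ≤ ∑' n, (VV G r H s n).indicator (1 : ℝ → ENNReal) t := by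
      have h1 := ENNReal.sum_le_tsum (f := fun n => (VV G r H s n).indicator (1 : ℝ → ENNReal) t)
        (Finset.range n₀)
      refine le_trans (le_of_eq ?_) h1
      rw [Finset.sum_congr rfl fun n hn => show (VV G r H s n).indicator (1 : ℝ → ENNReal) t = 1 by
        rw [Set.indicator_of_mem (hn2 n (Finset.mem_range.mp hn))]; rfl]
      simp
    have hβ : 0 ≤ r * Real.log 2 := by
      have := Real.log_nonneg (show (1 : ℝ) ≤ 2 by norm_num)
      positivity
    calc ENNReal.ofReal (Real.log ((s / 2) ^ r * H) - Real.log ‖G t‖)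
        ≤ ENNReal.ofReal ((r * Real.log 2) * n₀) := ENNReal.ofReal_le_ofReal hlog
      _ = ENNReal.ofReal (r * Real.log 2) * n₀ := by
          rw [ENNReal.ofReal_mul hβ, ENNReal.ofReal_natCast]
      _ ≤ _ := by gcongr

/-- the truncation changes the logarithmic integral by little -/
theorem tail_bound (hr : 1 ≤ r) (hG : Continuous G) (hH : 0 < H) (hs : 0 < s)
    (hV : ∀ s : ℝ, 0 < s → volume {t : ℝ | t ∈ Set.Icc (0:ℝ) 1 ∧ ‖G t‖ < (s / 2) ^ r * H} ≤
      ENNReal.ofReal (20 * r * s))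
    (hint : IntervalIntegrable (fun t => Real.log ‖G t‖) volume 0 1) :
    0 ≤ (∫ t in (0:ℝ)..1, Real.log (max ‖G t‖ ((s / 2) ^ r * H))) -
      ∫ t in (0:ℝ)..1, Real.log ‖G t‖ ∧
    (∫ t in (0:ℝ)..1, Real.log (max ‖G t‖ ((s / 2) ^ r * H))) -
      ∫ t in (0:ℝ)..1, Real.log ‖G t‖ ≤ (r * Real.log 2) * (40 * r * s) := by
  classical
  have hδ : 0 < (s / 2) ^ r * H := by positivity
  set μ : Measure ℝ := volume.restrict (Set.Ioc 0 1) with hμ
  have hae : ∀ᵐ t ∂μ, 0 < ‖G t‖ := by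
    rw [hμ, ae_restrict_iff' measurableSet_Ioc]
    have h0 := zero_null hH hV
    rw [ae_iff]
    refine measure_mono_null ?_ h0
    intro t ht
    simp only [Set.mem_ofPred_eq, not_forall, not_lt] at ht
    obtain ⟨h1, h2⟩ := ht
    exact ⟨⟨h1.1.le, h1.2⟩, le_antisymm h2 (norm_nonneg _)⟩
  have hmem : ∀ᵐ t ∂μ, t ∈ Set.Icc (0 : ℝ) 1 := by
    rw [hμ]
    exact (ae_restrict_mem measurableSet_Ioc).mono fun t ht => ⟨ht.1.le, ht.2⟩
  have hcontmax : Continuous fun t => Real.log (max ‖G t‖ ((s / 2) ^ r * H)) := by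
    apply Continuous.log
    · exact hG.norm.max continuous_const
    · intro t
      exact (lt_max_of_lt_right hδ).ne'
  have hsub : (∫ t in (0:ℝ)..1, Real.log (max ‖G t‖ ((s / 2) ^ r * H))) -
      ∫ t in (0:ℝ)..1, Real.log ‖G t‖ =
      ∫ t, (Real.log (max ‖G t‖ ((s / 2) ^ r * H)) - Real.log ‖G t‖) ∂μ := by
    rw [← intervalIntegral.integral_sub (hcontmax.intervalIntegrable _ _) hint,
      intervalIntegral.integral_of_le zero_le_one]
  rw [hsub]
  have hnn : 0 ≤ᵐ[μ] fun t => Real.log (max ‖G t‖ ((s / 2) ^ r * H)) - Real.log ‖G t‖ := by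
    filter_upwards [hae] with t ht
    have := Real.log_le_log ht (le_max_left ‖G t‖ ((s / 2) ^ r * H))
    simpa using this
  refine ⟨integral_nonneg_of_ae hnn, ?_⟩
  have hmeas : AEStronglyMeasurable (fun t => Real.log (max ‖G t‖ ((s / 2) ^ r * H)) -
      Real.log ‖G t‖) μ := by
    apply Measurable.aestronglyMeasurable
    exact hcontmax.measurable.sub (Real.measurable_log.comp hG.norm.measurable)
  rw [integral_eq_lintegral_of_nonneg_ae hnn hmeas]
  have hβ : 0 ≤ r * Real.log 2 := by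
    have := Real.log_nonneg (show (1 : ℝ) ≤ 2 by norm_num)
    positivity
  refine ENNReal.toReal_le_of_le_ofReal (by positivity) ?_
  have hVm : ∀ n, MeasurableSet (VV G r H s n) := fun n => VV_meas hG n
  have hind : ∀ n, Measurable ((VV G r H s n).indicator (1 : ℝ → ENNReal)) := fun n =>
    measurable_one.indicator (hVm n)
  have hμV : ∀ n, μ (VV G r H s n) ≤ ENNReal.ofReal (20 * r * (s / 2 ^ n)) := by
    intro n
    refine le_trans (Measure.restrict_apply_le _ _) ?_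
    exact hV (s / 2 ^ n) (by positivity)
  have hlint : ∀ n, ∫⁻ t, (VV G r H s n).indicator (1 : ℝ → ENNReal) t ∂μ = μ (VV G r H s n) := by
    intro n
    rw [lintegral_indicator_one (hVm n)]
  have hgeo : ∑' n, ENNReal.ofReal (20 * r * (s / 2 ^ n)) = ENNReal.ofReal (40 * r * s) := by
    rw [← ENNReal.ofReal_tsum_of_nonneg (fun n => by positivity)]
    · congr 1
      have h1 : ∀ n : ℕ, (20 : ℝ) * r * (s / 2 ^ n) = (20 * r * s) * (1 / 2) ^ n := by
        intro n
        rw [one_div, inv_pow]; ring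
      rw [tsum_congr h1, tsum_mul_left, tsum_geometric_two]
      ring
    · have h1 : ∀ n : ℕ, (20 : ℝ) * r * (s / 2 ^ n) = (20 * r * s) * (1 / 2) ^ n := by
        intro n
        rw [one_div, inv_pow]; ring
      simp only [h1]
      exact summable_geometric_two.mul_left _
  have hpt : ∀ᵐ t ∂μ, ENNReal.ofReal (Real.log (max ‖G t‖ ((s / 2) ^ r * H)) - Real.log ‖G t‖) ≤
      ENNReal.ofReal (r * Real.log 2) * ∑' n, (VV G r H s n).indicator 1 t := by
    filter_upwards [hae, hmem] with t ht ht2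
    exact tail_layer hr hs hH ht2 ht
  calc ∫⁻ t, ENNReal.ofReal (Real.log (max ‖G t‖ ((s / 2) ^ r * H)) - Real.log ‖G t‖) ∂μ
      ≤ ∫⁻ t, ENNReal.ofReal (r * Real.log 2) * ∑' n, (VV G r H s n).indicator 1 t ∂μ :=
        lintegral_mono_ae hpt
    _ = ENNReal.ofReal (r * Real.log 2) * ∑' n, μ (VV G r H s n) := by
        rw [lintegral_const_mul _ (Measurable.tsum hind),
          lintegral_tsum (fun n => (hind n).aemeasurable)]
        congr 1
        exact tsum_congr fun n => hlint n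
    _ ≤ ENNReal.ofReal (r * Real.log 2) * ∑' n, ENNReal.ofReal (20 * r * (s / 2 ^ n)) := by
        gcongr with n
        exact hμV n
    _ = ENNReal.ofReal ((r * Real.log 2) * (40 * r * s)) := by
        rw [hgeo, ← ENNReal.ofReal_mul hβ]

end tail

/-- comparison of logarithmic Mahler measures, general parameters -/
theorem lm_compare {r : ℕ} (hr : 1 ≤ r) (c : Fin (r + 1) → ℤ) (hc : ∀ j, c j ≠ 0)
    (a d : Fin (r + 1) → ℕ) (ha : Function.Injective a) (hd : Function.Injective d)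
    {ρ : ℝ} (hρ : 0 < ρ) (hρ1 : ρ ≤ 1) {M m : ℕ}
    (hM : (1 - 4 * (ρ / 3) ^ 2) ^ M < (1 / (2 * M + 1) : ℝ) ^ (r + 1))
    (hkm : (r + 1) * M ≤ 2 * m)
    (h : Sim m (fun j => (a j : ℤ)) (fun j => (d j : ℤ)))
    {S : ℕ} (hS : 1 ≤ S) (hSρ : S * ρ ≤ 1 / 8) (s : ℝ) (hs : 0 < s) (hs1 : s ≤ 1) :
    |lm (sp c a) - lm (sp c d)| ≤
      2 * (((r + 1 : ℕ) : ℝ) * (((2 * (((r + 1 : ℕ) : ℝ) ^ 2 + 1)) *
        (Real.log (r + 1) + r * Real.log (2 / s))) / S)) + (r * Real.log 2) * (40 * r * s) := by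
  classical
  obtain ⟨j₀, hj₀⟩ := Finite.exists_max (fun j => ‖(c j : ℂ)‖)
  set C : Fin (r + 1) → ℂ := fun j => (c j : ℂ) with hC
  set H : ℝ := ‖C j₀‖ with hH
  set L : ℝ := ∑ j, ‖C j‖ with hL
  have hHpos : 0 < H := by
    rw [hH, norm_pos_iff]
    exact Int.cast_ne_zero.mpr (hc j₀)
  have hHL : H ≤ L := Finset.single_le_sum (f := fun j => ‖C j‖) (fun j _ => norm_nonneg _)
    (Finset.mem_univ j₀)
  have hLH : L ≤ (r + 1) * H := by
    have := Finset.sum_le_card_nsmul Finset.univ (fun j => ‖C j‖) H (fun j _ => hj₀ j)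
    simpa using this
  have hLpos : 0 < L := by linarith
  set δ : ℝ := (s / 2) ^ r * H with hδdef
  have hδ : 0 < δ := by positivity
  have hδH : δ ≤ H := by
    rw [hδdef]
    apply mul_le_of_le_one_left hHpos.le
    apply pow_le_one₀ (by positivity)
    linarith
  have hst := trunc_stable C hδ (hδH.trans hHL) le_rfl hρ hρ1 hM hkm h hS hSρ
  have hone : ∀ (b : Fin (r + 1) → ℕ), Function.Injective b →
      0 ≤ (∫ t in (0:ℝ)..1, Real.log (max ‖es C (fun j => (b j : ℤ)) t‖ δ)) - lm (sp c b) ∧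
      (∫ t in (0:ℝ)..1, Real.log (max ‖es C (fun j => (b j : ℤ)) t‖ δ)) - lm (sp c b) ≤
        (r * Real.log 2) * (40 * r * s) := by
    intro b hb
    have hb' : Function.Injective (fun j => (b j : ℤ)) := fun x y hxy => hb (Nat.cast_injective hxy)
    rw [lm_eq]
    exact tail_bound hr (es_continuous C _) hHpos hs
      (fun s hs => small_values C _ hb' j₀ s hs) (log_integrable c b)
  obtain ⟨ha0, ha1⟩ := hone a ha
  obtain ⟨hd0, hd1⟩ := hone d hd
  have hlog : Real.log (L / δ) ≤ Real.log (r + 1) + r * Real.log (2 / s) := by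
    have h1 : L / δ ≤ (r + 1) * (2 / s) ^ r := by
      rw [div_le_iff₀ hδ, hδdef]
      calc L ≤ (r + 1) * H := hLH
        _ = (r + 1) * (2 / s) ^ r * ((s / 2) ^ r * H) := by
            have : (2 / s) ^ r * (s / 2) ^ r = 1 := by
              rw [← mul_pow, show 2 / s * (s / 2) = 1 by field_simp, one_pow]
            linear_combination (-(r + 1) * H) * this
    calc Real.log (L / δ) ≤ Real.log ((r + 1) * (2 / s) ^ r) :=
          Real.log_le_log (by positivity) h1
      _ = Real.log (r + 1) + r * Real.log (2 / s) := by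
          rw [Real.log_mul (by positivity) (by positivity), Real.log_pow]
  have hSpos : (0:ℝ) < S := by exact_mod_cast hS
  have hle : 2 * (((r + 1 : ℕ) : ℝ) * (((2 * (((r + 1 : ℕ) : ℝ) ^ 2 + 1)) * Real.log (L / δ)) / S)) ≤
      2 * (((r + 1 : ℕ) : ℝ) * (((2 * (((r + 1 : ℕ) : ℝ) ^ 2 + 1)) *
        (Real.log (r + 1) + r * Real.log (2 / s))) / S)) := by
    gcongr
  have hst2 := hst.trans hle
  rw [abs_le] at hst2 ⊢
  constructor <;> linarith [hst2.1, hst2.2]

end Pool.Agent.Helper99.MK
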