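import Mathlib
import Pool.Graph.R_seed8.H338R2.AS.T6
import Pool.Agent.Helper99.MK.S

/-!
# Choice of the parameters
-/

set_option autoImplicit false

open Set MeasureTheory Module

namespace Pool.Agent.Helper99.MK

open Pool.Agent.H338R2.AS (es sp lm Sim small_rep sim_inj)

/-- the number of steps -/
noncomputable def SS (k : ℕ) (η : ℝ) : ℕ := ⌈2560 * (k:ℝ) ^ 6 / η ^ 2⌉₊

/-- the length of the relations -/
noncomputable def mK (k : ℕ) (η : ℝ) : ℕ := k * (288 * k * (SS k η) ^ 2) ^ 2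

lemma SS_pos {k : ℕ} (hk : 2 ≤ k) {η : ℝ} (hη : 0 < η) : 1 ≤ SS k η := by
  unfold SS
  rw [Nat.one_le_iff_ne_zero, ← Nat.pos_iff_ne_zero, Nat.ceil_pos]
  have : (0:ℝ) < k := by positivity
  positivity

lemma SS_le {k : ℕ} (hk : 2 ≤ k) {η : ℝ} (hη : 0 < η) (hη1 : η ≤ 1) :
    (SS k η : ℝ) ≤ 2561 * (k:ℝ) ^ 6 / η ^ 2 := by
  have hk1 : (1:ℝ) ≤ k := by
    have : (2:ℝ) ≤ k := by exact_mod_cast hk
    linarith
  have h1 : (SS k η : ℝ) < 2560 * (k:ℝ) ^ 6 / η ^ 2 + 1 := Nat.ceil_lt_add_one (by positivity)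
  have h2 : (1:ℝ) ≤ (k:ℝ) ^ 6 / η ^ 2 := by
    rw [le_div_iff₀ (by positivity), one_mul]
    calc η ^ 2 ≤ 1 := pow_le_one₀ hη.le hη1
      _ ≤ (k:ℝ) ^ 6 := one_le_pow₀ hk1
  have h3 : 2561 * (k:ℝ) ^ 6 / η ^ 2 = 2560 * (k:ℝ) ^ 6 / η ^ 2 + (k:ℝ) ^ 6 / η ^ 2 := by ring
  linarith

lemma hM_holds {k : ℕ} (hk : 2 ≤ k) {S : ℕ} (hS : 1 ≤ S) :
    (1 - 4 * ((1 / (8 * (S:ℝ))) / 3) ^ 2) ^ ((288 * k * S ^ 2) ^ 2) <
      (1 / (2 * (((288 * k * S ^ 2) ^ 2 : ℕ) : ℝ) + 1) : ℝ) ^ k := by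
  have hSpos : (1:ℝ) ≤ S := by exact_mod_cast hS
  have hkpos : (2:ℝ) ≤ k := by exact_mod_cast hk
  set y : ℝ := 288 * k * S ^ 2 with hy
  have hy0 : 0 < y := by positivity
  have hMy : (((288 * k * S ^ 2) ^ 2 : ℕ) : ℝ) = y ^ 2 := by
    push_cast; rfl
  set δ : ℝ := 1 / (144 * (S:ℝ) ^ 2) with hδ
  have e1 : 4 * ((1 / (8 * (S:ℝ))) / 3) ^ 2 = δ := by
    rw [hδ]; field_simp; norm_num
  rw [e1, hMy]
  have hδ1 : δ ≤ 1 := by
    rw [hδ, div_le_one (by positivity)]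
    nlinarith
  have hδ0 : 0 < δ := by positivity
  have h1 : (1 - δ) ^ ((288 * k * S ^ 2) ^ 2) ≤ Real.exp (-(2 * k * y)) := by
    have h2 : 1 - δ ≤ Real.exp (-δ) := by
      have := Real.add_one_le_exp (-δ)
      linarith
    calc (1 - δ) ^ ((288 * k * S ^ 2) ^ 2) ≤ Real.exp (-δ) ^ ((288 * k * S ^ 2) ^ 2) :=
          pow_le_pow_left₀ (by linarith) h2 _
      _ = Real.exp (-(2 * k * y)) := by
          rw [← Real.exp_nat_mul, hMy]
          congr 1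
          rw [hδ, hy]
          field_simp
          ring
  have h3 : Real.log (2 * y ^ 2 + 1) < 2 * y := by
    rw [Real.log_lt_iff_lt_exp (by positivity)]
    have := Real.quadratic_le_exp_of_nonneg (x := 2 * y) (by positivity)
    nlinarith
  have h4 : (1 / (2 * y ^ 2 + 1) : ℝ) ^ k = Real.exp (-(k * Real.log (2 * y ^ 2 + 1))) := by
    rw [one_div, inv_pow, Real.exp_neg, Real.exp_nat_mul, Real.exp_log (by positivity)]
  rw [h4]
  refine lt_of_le_of_lt h1 ?_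
  apply Real.exp_lt_exp.mpr
  have : (k:ℝ) * Real.log (2 * y ^ 2 + 1) < k * (2 * y) :=
    mul_lt_mul_of_pos_left h3 (by linarith)
  linarith

/-- **Position space Boyd–Lawton bound** -/
theorem stable {k : ℕ} (hk : 2 ≤ k) (c : Fin k → ℤ) (hc : ∀ j, c j ≠ 0)
    (a d : Fin k → ℕ) (ha : Function.Injective a) (hd : Function.Injective d)
    {η : ℝ} (hη : 0 < η) (hη1 : η ≤ 1) {m : ℕ} (hm : mK k η ≤ m)
    (h : Sim m (fun j => (a j : ℤ)) (fun j => (d j : ℤ))) :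
    |lm (sp c a) - lm (sp c d)| ≤ η := by
  obtain ⟨r, rfl⟩ : ∃ r, k = r + 1 := ⟨k - 1, by omega⟩
  have hr : 1 ≤ r := by omega
  set K : ℝ := ((r + 1 : ℕ) : ℝ) with hkdef
  have hk2 : (2:ℝ) ≤ K := by rw [hkdef]; exact_mod_cast hk
  set S := SS (r + 1) η with hSdef
  have hS : 1 ≤ S := SS_pos hk hη
  have hSpos : (1:ℝ) ≤ S := by exact_mod_cast hS
  have hSge : 2560 * K ^ 6 / η ^ 2 ≤ S := Nat.le_ceil _
  set ρ : ℝ := 1 / (8 * (S:ℝ)) with hρdef
  have hρ : 0 < ρ := by positivity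
  have hρ1 : ρ ≤ 1 := by
    rw [hρdef, div_le_one (by positivity)]
    linarith
  have hSρ : S * ρ ≤ 1 / 8 := by
    rw [hρdef]
    apply le_of_eq
    field_simp
  set M := (288 * (r + 1) * S ^ 2) ^ 2 with hMdef
  have hM : (1 - 4 * (ρ / 3) ^ 2) ^ M < (1 / (2 * M + 1) : ℝ) ^ (r + 1) := hM_holds hk hS
  have hkm : (r + 1) * M ≤ 2 * m := by
    have : mK (r + 1) η = (r + 1) * M := rfl
    omega
  set s : ℝ := η / (80 * K ^ 2) with hs
  have hs0 : 0 < s := by positivity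
  have hs1 : s ≤ 1 := by
    rw [hs, div_le_one (by positivity)]
    nlinarith
  have hcmp := lm_compare hr c hc a d ha hd hρ hρ1 hM hkm h hS hSρ s hs0 hs1
  refine hcmp.trans ?_
  have hrk : (r:ℝ) = K - 1 := by rw [hkdef]; push_cast; ring
  -- the two errors
  have h2s : 2 / s = 160 * K ^ 2 / η := by
    rw [hs]; field_simp; norm_num
  have hbig : 0 < 160 * K ^ 2 / η := by positivity
  have hklt : (r:ℝ) + 1 ≤ 160 * K ^ 2 / η := by
    rw [hrk, le_div_iff₀ hη]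
    nlinarith
  have hlogs : Real.log (r + 1) + r * Real.log (2 / s) ≤ 160 * K ^ 3 / η := by
    rw [h2s]
    have h1 : Real.log (r + 1) ≤ Real.log (160 * K ^ 2 / η) :=
      Real.log_le_log (by positivity) hklt
    have h2 : Real.log (160 * K ^ 2 / η) ≤ 160 * K ^ 2 / η :=
      (Real.log_le_sub_one_of_pos hbig).trans (by linarith)
    have hr0 : (0:ℝ) ≤ r := Nat.cast_nonneg _
    calc Real.log (r + 1) + r * Real.log (160 * K ^ 2 / η) ≤
        160 * K ^ 2 / η + r * (160 * K ^ 2 / η) := by gcongr; exact h1.trans h2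
      _ = 160 * K ^ 3 / η := by rw [hrk]; ring
  have hlognn : 0 ≤ Real.log (r + 1) + r * Real.log (2 / s) := by
    have h1 : 0 ≤ Real.log ((r:ℝ) + 1) := Real.log_nonneg (by linarith [Nat.cast_nonneg (α := ℝ) r])
    have h2 : 0 ≤ Real.log (2 / s) := Real.log_nonneg (by rw [le_div_iff₀ hs0]; linarith)
    positivity
  have hE1 : 2 * (K * (((2 * (K ^ 2 + 1)) *
        (Real.log (r + 1) + r * Real.log (2 / s))) / S)) ≤ η / 2 := by
    have hk1 : K ^ 2 + 1 ≤ 2 * K ^ 2 := by nlinarith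
    calc 2 * (K * (((2 * (K ^ 2 + 1)) *
        (Real.log (r + 1) + r * Real.log (2 / s))) / S))
        ≤ 2 * (K * (((2 * (2 * K ^ 2)) * (160 * K ^ 3 / η)) / S)) := by
          gcongr
      _ = (1280 * K ^ 6 / η) / S := by ring
      _ ≤ η / 2 := by
          rw [div_le_iff₀ (by linarith)]
          calc 1280 * K ^ 6 / η = η / 2 * (2560 * K ^ 6 / η ^ 2) := by
                field_simp; norm_num
            _ ≤ η / 2 * S := by gcongr
  have hE2 : (r * Real.log 2) * (40 * r * s) ≤ η / 2 := by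
    have hl2 : Real.log 2 ≤ 1 := by
      have := Real.log_two_lt_d9
      linarith
    have hl0 : 0 ≤ Real.log 2 := Real.log_nonneg (by norm_num)
    have hrk' : (r:ℝ) ≤ K := by rw [hrk]; linarith
    calc (r * Real.log 2) * (40 * r * s) ≤ (K * 1) * (40 * K * s) := by gcongr
      _ = η / 2 := by rw [hs]; field_simp; norm_num
  linarith

/-- reduction to small exponents -/
theorem reduce {k : ℕ} (hk : 2 ≤ k) (c : Fin k → ℤ) (hc : ∀ j, c j ≠ 0)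
    (d : Fin k → ℕ) (hd : Function.Injective d) {η : ℝ} (hη : 0 < η) (hη1 : η ≤ 1) :
    ∃ a : Fin k → ℕ, Function.Injective a ∧ |lm (sp c a) - lm (sp c d)| ≤ η ∧
      ∀ j, a j ≤ 3 * ((4 * mK k η + 1) ^ k + 1) * (2 * mK k η + 1) ^ k := by
  have hm : 1 ≤ mK k η := by
    unfold mK
    have h1 := SS_pos hk hη
    have : 0 < k := by omega
    have : 0 < SS k η := by omega
    exact Nat.succ_le_of_lt (by positivity)
  obtain ⟨a, hsim, ha⟩ := small_rep hm d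
  have hainj := sim_inj hm hsim hd
  exact ⟨a, hainj, stable hk c hc a d hainj hd hη hη1 le_rfl hsim, ha⟩

lemma mK_le {k : ℕ} (hk : 2 ≤ k) {η : ℝ} (hη : 0 < η) (hη1 : η ≤ 1) :
    (mK k η : ℝ) ≤ ((k:ℝ) / η) ^ 89 := by
  have hk2 : (2:ℝ) ≤ k := by exact_mod_cast hk
  have h1 := SS_le hk hη hη1
  set q : ℝ := (k:ℝ) / η with hq
  have hkq : (k:ℝ) ≤ q := by
    rw [hq, le_div_iff₀ hη]
    nlinarith
  have hq2 : 2 ≤ q := hk2.trans hkq
  have hS : (SS k η : ℝ) ≤ 2561 * q ^ 6 := by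
    refine h1.trans ?_
    rw [hq, div_pow, mul_div_assoc]
    apply mul_le_mul_of_nonneg_left _ (by norm_num)
    apply div_le_div_of_nonneg_left (by positivity) (by positivity)
    exact pow_le_pow_of_le_one hη.le hη1 (by norm_num)
  have h2 : (mK k η : ℝ) = 82944 * (k:ℝ) ^ 3 * (SS k η : ℝ) ^ 4 := by
    unfold mK
    push_cast
    ring
  rw [h2]
  have h3 : (82944 * 2561 ^ 4 : ℝ) ≤ 2 ^ 62 := by norm_num
  calc 82944 * (k:ℝ) ^ 3 * (SS k η : ℝ) ^ 4 ≤ 82944 * q ^ 3 * (2561 * q ^ 6) ^ 4 := by gcongr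
    _ = (82944 * 2561 ^ 4) * q ^ 27 := by ring
    _ ≤ 2 ^ 62 * q ^ 27 := by gcongr
    _ ≤ q ^ 62 * q ^ 27 := by gcongr
    _ = q ^ 89 := by ring

lemma deg_le {k : ℕ} (hk : 2 ≤ k) {η : ℝ} (hη : 0 < η) (hη1 : η ≤ 1) :
    ((3 * ((4 * mK k η + 1) ^ k + 1) * (2 * mK k η + 1) ^ k : ℕ) : ℝ) ≤
      ((k:ℝ) / η) ^ (184 * k) := by
  have hk2 : (2:ℝ) ≤ k := by exact_mod_cast hk
  have hm := mK_le hk hη hη1
  have hmn : 1 ≤ mK k η := by
    unfold mK
    have h1 := SS_pos hk hη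
    have : 0 < k := by omega
    have : 0 < SS k η := by omega
    exact Nat.succ_le_of_lt (by positivity)
  set q : ℝ := (k:ℝ) / η with hq
  have hkq : (k:ℝ) ≤ q := by
    rw [hq, le_div_iff₀ hη]
    nlinarith
  have hq2 : 2 ≤ q := hk2.trans hkq
  have hm1 : (1:ℝ) ≤ mK k η := by exact_mod_cast hmn
  set x : ℝ := (mK k η : ℝ) with hx
  have hcast : ((3 * ((4 * mK k η + 1) ^ k + 1) * (2 * mK k η + 1) ^ k : ℕ) : ℝ) =
      3 * ((4 * x + 1) ^ k + 1) * (2 * x + 1) ^ k := by push_cast; rfl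
  rw [hcast]
  have h1 : (1:ℝ) ≤ (4 * x + 1) ^ k := one_le_pow₀ (by linarith)
  have h6 : (6:ℝ) ≤ 3 ^ k := by
    calc (6:ℝ) ≤ 3 ^ 2 := by norm_num
      _ ≤ 3 ^ k := pow_le_pow_right₀ (by norm_num) hk
  calc 3 * ((4 * x + 1) ^ k + 1) * (2 * x + 1) ^ k
      ≤ 3 * (2 * (4 * x + 1) ^ k) * (2 * x + 1) ^ k := by gcongr; linarith
    _ = 6 * ((4 * x + 1) * (2 * x + 1)) ^ k := by rw [mul_pow]; ring
    _ ≤ 3 ^ k * ((5 * x) * (3 * x)) ^ k := by gcongr <;> linarith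
    _ = (45 * x ^ 2) ^ k := by rw [← mul_pow]; ring
    _ ≤ (q ^ 6 * (q ^ 89) ^ 2) ^ k := by
        gcongr
        calc (45:ℝ) ≤ 2 ^ 6 := by norm_num
          _ ≤ q ^ 6 := by gcongr
    _ = q ^ (184 * k) := by rw [← pow_mul, ← pow_add, ← pow_mul]

end Pool.Agent.Helper99.MK
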