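import Mathlib

/-!
# Counting: symmetric faces force `2 ^ dim` points
-/

set_option autoImplicit false

open Module

namespace Pool.Agent.Helper99.MK

variable {k : ℕ}

open Classical in
/-- the face of `A` in the direction `u` -/
noncomputable def face (u : Fin k → ℚ) (A : Finset (Fin k)) : Finset (Fin k) :=
  A.filter fun j => ∀ i ∈ A, u j ≤ u i

lemma mem_face {u : Fin k → ℚ} {A : Finset (Fin k)} {j : Fin k} :
    j ∈ face u A ↔ j ∈ A ∧ ∀ i ∈ A, u j ≤ u i := by
  classical
  rw [face, Finset.mem_filter]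

lemma face_nonempty {u : Fin k → ℚ} {A : Finset (Fin k)} (hA : A.Nonempty) :
    (face u A).Nonempty := by
  obtain ⟨j, hj, hmin⟩ := Finset.exists_min_image A u hA
  exact ⟨j, mem_face.mpr ⟨hj, hmin⟩⟩

/-- the vectors of `U` which are constant on `A` -/
def KK (U : Submodule ℚ (Fin k → ℚ)) (A : Finset (Fin k)) : Submodule ℚ (Fin k → ℚ) where
  carrier := {b | b ∈ U ∧ ∀ i ∈ A, ∀ j ∈ A, b i = b j}
  add_mem' := by
    rintro b c ⟨hb, hb2⟩ ⟨hc, hc2⟩
    refine ⟨U.add_mem hb hc, fun i hi j hj => ?_⟩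
    simp only [Pi.add_apply]
    rw [hb2 i hi j hj, hc2 i hi j hj]
  zero_mem' := ⟨U.zero_mem, fun _ _ _ _ => rfl⟩
  smul_mem' := by
    rintro t b ⟨hb, hb2⟩
    refine ⟨U.smul_mem t hb, fun i hi j hj => ?_⟩
    simp only [Pi.smul_apply]
    rw [hb2 i hi j hj]

lemma mem_KK {U : Submodule ℚ (Fin k → ℚ)} {A : Finset (Fin k)} {b : Fin k → ℚ} :
    b ∈ KK U A ↔ b ∈ U ∧ ∀ i ∈ A, ∀ j ∈ A, b i = b j := Iff.rfl

lemma KK_le (U : Submodule ℚ (Fin k → ℚ)) (A : Finset (Fin k)) : KK U A ≤ U := fun _ h => h.1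

/-- faces of symmetric families: `2 ^ dim` points, and the case of equality -/
theorem count (U : Submodule ℚ (Fin k → ℚ)) (P Q : Finset (Fin k) → Prop)
    (σ : Finset (Fin k) → Fin k → Fin k)
    (hne : ∀ A, P A → A.Nonempty)
    (hface : ∀ A, P A → ∀ u ∈ U, P (face u A))
    (hσ1 : ∀ A, P A → ∀ j ∈ A, σ A j ∈ A)
    (hσ2 : ∀ A, P A → ∀ b ∈ U, ∀ i ∈ A, ∀ j ∈ A, b i + b (σ A i) = b j + b (σ A j))
    {e : Fin k → ℚ} (he : e ∈ U) (hinj : Function.Injective e)
    (hQ1 : ∀ A, P A → A.card = 1 → Q A)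
    (hQ2 : ∀ A A', P A → P A' → Disjoint A' (A'.image (σ A)) → A = A' ∪ A'.image (σ A) →
      Q A' → Q A) :
    ∀ (n : ℕ) (A : Finset (Fin k)), A.card = n → P A →
      2 ^ (finrank ℚ U - finrank ℚ (KK U A)) ≤ A.card ∧
      (A.card ≤ 2 ^ (finrank ℚ U - finrank ℚ (KK U A)) → Q A) := by
  classical
  intro n
  induction n using Nat.strong_induction_on with
  | _ n ih =>
  intro A hAn hPA
  have hAne := hne A hPA
  by_cases hconst : ∀ u ∈ U, ∀ i ∈ A, ∀ j ∈ A, u i = u j
  · have hK : KK U A = U := le_antisymm (KK_le U A) fun b hb => ⟨hb, hconst b hb⟩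
    rw [hK, Nat.sub_self, pow_zero]
    refine ⟨hAne.card_pos, fun h => hQ1 A hPA (le_antisymm h hAne.card_pos)⟩
  · -- a proper face of maximal cardinality
    have hex : ∃ m : ℕ, ∃ u ∈ U, (¬ ∀ i ∈ A, ∀ j ∈ A, u i = u j) ∧ (face u A).card = m := by
      push Not at hconst
      obtain ⟨u, hu, i, hi, j, hj, hij⟩ := hconst
      exact ⟨_, u, hu, fun h => hij (h i hi j hj), rfl⟩
    obtain ⟨u, hu, hunc, hmax⟩ : ∃ u ∈ U, (¬ ∀ i ∈ A, ∀ j ∈ A, u i = u j) ∧
        ∀ v ∈ U, (¬ ∀ i ∈ A, ∀ j ∈ A, v i = v j) → (face v A).card ≤ (face u A).card := by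
      have hbdd : ∀ m, (∃ u ∈ U, (¬ ∀ i ∈ A, ∀ j ∈ A, u i = u j) ∧ (face u A).card = m) →
          m ≤ A.card := by
        rintro m ⟨u, _, _, rfl⟩
        exact Finset.card_le_card (Finset.filter_subset _ _)
      obtain ⟨m, hm⟩ := hex
      have h1 := Nat.findGreatest_spec (P := fun m => ∃ u ∈ U,
        (¬ ∀ i ∈ A, ∀ j ∈ A, u i = u j) ∧ (face u A).card = m) (hbdd m hm) hm
      obtain ⟨u, hu, hunc, hcard⟩ := h1
      refine ⟨u, hu, hunc, fun v hv hvnc => ?_⟩
      rw [hcard]
      exact Nat.le_findGreatest (hbdd _ ⟨v, hv, hvnc, rfl⟩) ⟨v, hv, hvnc, rfl⟩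
    set A' := face u A with hA'
    have hsub : A' ⊆ A := Finset.filter_subset _ _
    have hA'ne : A'.Nonempty := face_nonempty hAne
    obtain ⟨j₀, hj₀⟩ := hA'ne
    have hj₀A : j₀ ∈ A := hsub hj₀
    have hu0 : ∀ j ∈ A', u j = u j₀ := fun j hj =>
      le_antisymm ((mem_face.mp hj).2 j₀ hj₀A) ((mem_face.mp hj₀).2 j (hsub hj))
    have hupos : ∀ j ∈ A, j ∉ A' → u j₀ < u j := by
      intro j hj hjn
      refine lt_of_le_of_ne ((mem_face.mp hj₀).2 j hj) ?_
      intro heq
      apply hjn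
      rw [hA', mem_face]
      exact ⟨hj, fun i hi => heq ▸ (mem_face.mp hj₀).2 i hi⟩
    have hne' : (A \ A').Nonempty := by
      by_contra hemp
      rw [Finset.not_nonempty_iff_eq_empty, Finset.sdiff_eq_empty_iff_subset] at hemp
      apply hunc
      intro i hi j hj
      rw [hu0 i (hemp hi), hu0 j (hemp hj)]
    -- the codimension of the face is one
    have hKle : KK U A' ≤ KK U A ⊔ Submodule.span ℚ {u} := by
      intro b hb
      by_contra hbn
      have hbt : ∀ t : ℚ, ¬ ∀ i ∈ A, ∀ j ∈ A, (b - t • u) i = (b - t • u) j := by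
        intro t ht
        apply hbn
        have h1 : b - t • u ∈ KK U A := ⟨U.sub_mem hb.1 (U.smul_mem t hu), ht⟩
        have h2 : b = (b - t • u) + t • u := by abel
        rw [h2]
        exact Submodule.add_mem_sup h1 (Submodule.smul_mem _ _ (Submodule.mem_span_singleton_self u))
      obtain ⟨j₁, hj₁, hmin⟩ := Finset.exists_min_image (A \ A')
        (fun j => (b j - b j₀) / (u j - u j₀)) hne'
      rw [Finset.mem_sdiff] at hj₁
      set t := (b j₁ - b j₀) / (u j₁ - u j₀) with ht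
      have hb0 : ∀ j ∈ A', b j = b j₀ := fun j hj => hb.2 j hj j₀ hj₀
      set w := b - t • u with hw
      have hwU : w ∈ U := U.sub_mem hb.1 (U.smul_mem t hu)
      have hw0 : ∀ j ∈ A', w j = w j₀ := by
        intro j hj
        simp only [hw, Pi.sub_apply, Pi.smul_apply, smul_eq_mul, hb0 j hj, hu0 j hj]
      have hwge : ∀ j ∈ A, w j₀ ≤ w j := by
        intro j hj
        by_cases hjA : j ∈ A'
        · rw [hw0 j hjA]
        · have h1 := hmin j (Finset.mem_sdiff.mpr ⟨hj, hjA⟩)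
          have h2 := hupos j hj hjA
          rw [le_div_iff₀ (by linarith)] at h1
          simp only [hw, Pi.sub_apply, Pi.smul_apply, smul_eq_mul]
          linarith
      have hw1 : w j₁ = w j₀ := by
        have h2 := hupos j₁ hj₁.1 hj₁.2
        have h3 : t * (u j₁ - u j₀) = b j₁ - b j₀ := by
          rw [ht]; exact div_mul_cancel₀ _ (by linarith)
        simp only [hw, Pi.sub_apply, Pi.smul_apply, smul_eq_mul]
        linarith
      have hbig : insert j₁ A' ⊆ face w A := by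
        intro j hj
        rw [mem_face]
        rcases Finset.mem_insert.mp hj with rfl | hj
        · exact ⟨hj₁.1, fun i hi => hw1 ▸ hwge i hi⟩
        · exact ⟨hsub hj, fun i hi => (hw0 j hj) ▸ hwge i hi⟩
      have h1 := Finset.card_le_card hbig
      rw [Finset.card_insert_of_notMem hj₁.2] at h1
      have h2 := hmax w hwU (hbt t)
      omega
    have hfin : finrank ℚ (KK U A') ≤ finrank ℚ (KK U A) + 1 := by
      have h1 := Submodule.finrank_mono hKle
      have h2 := Submodule.finrank_add_le_finrank_add_finrank (KK U A) (Submodule.span ℚ {u})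
      have h3 : finrank ℚ (Submodule.span ℚ {u}) ≤ 1 :=
        (finrank_span_le_card ({u} : Set (Fin k → ℚ))).trans (by simp)
      omega
    -- doubling
    have hσA := hσ1 A hPA
    have hσ := hσ2 A hPA
    have hσinj : Set.InjOn (σ A) A := by
      intro i hi j hj hij
      have h1 := hσ e he i hi j hj
      rw [hij] at h1
      exact hinj (add_right_cancel h1)
    have hdisj : Disjoint A' (A'.image (σ A)) := by
      rw [Finset.disjoint_left]
      intro j hj hj2
      obtain ⟨i, hi, rfl⟩ := Finset.mem_image.mp hj2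
      -- u (σ i) = u j₀ and u i = u j₀, so the sum is minimal: u is constant on A
      apply hunc
      have h1 := hu0 i hi
      have h2 := hu0 (σ A i) hj
      have hall : ∀ a ∈ A, u a = u j₀ := by
        intro a ha
        have h3 := hσ u hu a ha i (hsub hi)
        rw [h1, h2] at h3
        have h4 := (mem_face.mp hj₀).2 a ha
        have h5 := (mem_face.mp hj₀).2 (σ A a) (hσA a ha)
        linarith
      intro a ha b hb
      rw [hall a ha, hall b hb]
    have hunion : A' ∪ A'.image (σ A) ⊆ A := by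
      apply Finset.union_subset hsub
      intro j hj
      obtain ⟨i, hi, rfl⟩ := Finset.mem_image.mp hj
      exact hσA i (hsub hi)
    have hcu : (A' ∪ A'.image (σ A)).card = A'.card + A'.card := by
      rw [Finset.card_union_of_disjoint hdisj, Finset.card_image_of_injOn
        (hσinj.mono (by exact_mod_cast hsub))]
    have hcard : 2 * A'.card ≤ A.card := by
      have h1 := Finset.card_le_card hunion
      omega
    have hlt : A'.card < n := by
      have : 0 < A'.card := Finset.card_pos.mpr ⟨j₀, hj₀⟩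
      omega
    obtain ⟨hih1, hih2⟩ := ih A'.card hlt A' rfl (hface A hPA u hu)
    have hchain : 2 ^ (finrank ℚ U - finrank ℚ (KK U A)) ≤
        2 * 2 ^ (finrank ℚ U - finrank ℚ (KK U A')) := by
      calc 2 ^ (finrank ℚ U - finrank ℚ (KK U A))
          ≤ 2 ^ ((finrank ℚ U - finrank ℚ (KK U A')) + 1) := by
            apply Nat.pow_le_pow_right (by norm_num)
            omega
        _ = 2 * 2 ^ (finrank ℚ U - finrank ℚ (KK U A')) := by rw [pow_succ]; ring
    refine ⟨by omega, fun hle => ?_⟩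
    have hQA' : Q A' := hih2 (by omega)
    have hAeq : A = A' ∪ A'.image (σ A) := by
      symm
      apply Finset.eq_of_subset_of_card_le hunion
      omega
    exact hQ2 A A' hPA (hface A hPA u hu) hdisj hAeq hQA'

/-- the count for the whole set -/
theorem count_univ (U : Submodule ℚ (Fin k → ℚ)) (P Q : Finset (Fin k) → Prop)
    (σ : Finset (Fin k) → Fin k → Fin k)
    (hne : ∀ A, P A → A.Nonempty)
    (hface : ∀ A, P A → ∀ u ∈ U, P (face u A))
    (hσ1 : ∀ A, P A → ∀ j ∈ A, σ A j ∈ A)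
    (hσ2 : ∀ A, P A → ∀ b ∈ U, ∀ i ∈ A, ∀ j ∈ A, b i + b (σ A i) = b j + b (σ A j))
    {e : Fin k → ℚ} (he : e ∈ U) (hinj : Function.Injective e)
    (hQ1 : ∀ A, P A → A.card = 1 → Q A)
    (hQ2 : ∀ A A', P A → P A' → Disjoint A' (A'.image (σ A)) → A = A' ∪ A'.image (σ A) →
      Q A' → Q A) (huniv : P Finset.univ) :
    2 ^ (finrank ℚ U - 1) ≤ k ∧ (k ≤ 2 ^ (finrank ℚ U - 1) → Q Finset.univ) := by
  obtain ⟨h1, h1'⟩ := count U P Q σ hne hface hσ1 hσ2 he hinj hQ1 hQ2 _ Finset.univ rfl huniv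
  rw [Finset.card_univ, Fintype.card_fin] at h1 h1'
  have h2 : KK U Finset.univ ≤ Submodule.span ℚ {(fun _ => 1 : Fin k → ℚ)} := by
    rintro b ⟨_, hb⟩
    obtain ⟨j₀, _⟩ := hne _ huniv
    rw [Submodule.mem_span_singleton]
    refine ⟨b j₀, ?_⟩
    ext j
    simp only [Pi.smul_apply, smul_eq_mul, mul_one]
    exact hb j₀ (Finset.mem_univ _) j (Finset.mem_univ _)
  have h3 := Submodule.finrank_mono h2
  have h4 : finrank ℚ (Submodule.span ℚ {(fun _ => 1 : Fin k → ℚ)}) ≤ 1 :=
    (finrank_span_le_card ({(fun _ => 1 : Fin k → ℚ)} : Set (Fin k → ℚ))).trans (by simp)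
  have h5 : 2 ^ (finrank ℚ U - 1) ≤ 2 ^ (finrank ℚ U - finrank ℚ (KK U Finset.univ)) := by
    apply Nat.pow_le_pow_right (by norm_num)
    omega
  exact ⟨h5.trans h1, fun h => h1' (h.trans h5)⟩

end Pool.Agent.Helper99.MK
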