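import Mathlib
import Pool.Agent.Helper99.MK.S
import Pool.Agent.Helper99.MK.Cn

/-!
# Truncated Jensen inequality and faces
-/

set_option autoImplicit false

open Set MeasureTheory Module Polynomial

namespace Pool.Agent.Helper99.MK

variable {k : ℕ}

lemma logM_int (P : ℂ[X]) : P.logMahlerMeasure =
    ∫ t in (0:ℝ)..1, Real.log ‖P.eval (circleMap 0 1 (2 * Real.pi * t))‖ := by
  rw [Polynomial.logMahlerMeasure_def, Real.circleAverage_def]
  have h := intervalIntegral.integral_comp_mul_left (a := (0 : ℝ)) (b := 1)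
    (f := fun θ => Real.log ‖P.eval (circleMap 0 1 θ)‖)
    (c := 2 * Real.pi) (by positivity)
  rw [mul_zero, mul_one] at h
  rw [← h]

lemma logM_integrable (P : ℂ[X]) : IntervalIntegrable
    (fun t => Real.log ‖P.eval (circleMap 0 1 (2 * Real.pi * t))‖) volume 0 1 := by
  have h := Polynomial.intervalIntegrable_mahlerMeasure P
  have h2 := h.comp_mul_left (c := 2 * Real.pi)
  rw [zero_div, div_self (by positivity)] at h2
  exact h2

lemma circle_zeros (P : ℂ[X]) (hP : P ≠ 0) :
    ∀ᵐ t : ℝ, 0 < ‖P.eval (circleMap 0 1 (2 * Real.pi * t))‖ := by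
  have h1 : ({z : ℂ | P.eval z = 0}).Countable := by
    have : {z : ℂ | P.eval z = 0} = P.rootSet ℂ := by
      ext z
      rw [mem_rootSet]
      simp [hP, aeval_def, eval₂_eq_eval_map]
    rw [this]
    exact (P.rootSet_finite ℂ).countable
  have h2 : ((circleMap 0 1) ⁻¹' {z : ℂ | P.eval z = 0}).Countable :=
    h1.preimage_circleMap 0 one_ne_zero
  have h3 : ((fun t : ℝ => 2 * Real.pi * t) ⁻¹' ((circleMap 0 1) ⁻¹' {z : ℂ | P.eval z = 0})).Countable := by
    apply h2.preimage_of_injOn
    intro a _ b _ hab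
    have : (2 * Real.pi) ≠ 0 := by positivity
    exact mul_left_cancel₀ this hab
  rw [ae_iff]
  refine measure_mono_null ?_ (h3.measure_zero volume)
  intro t ht
  simp only [Set.mem_ofPred_eq, not_lt] at ht
  have : P.eval (circleMap 0 1 (2 * Real.pi * t)) = 0 := by
    rw [← norm_eq_zero]
    exact le_antisymm ht (norm_nonneg _)
  exact this

lemma eval_cont (P : ℂ[X]) : Continuous fun t : ℝ => P.eval (circleMap 0 1 (2 * Real.pi * t)) := by
  have h1 : Continuous fun t : ℝ => circleMap 0 1 (2 * Real.pi * t) :=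
    (continuous_circleMap 0 1).comp (by fun_prop)
  exact P.continuous.comp h1

/-- truncated Jensen inequality -/
theorem jensen_trunc (P : ℂ[X]) {δ : ℝ} (hδ : 0 < δ) : Real.log (max ‖P.coeff 0‖ δ) ≤
    ∫ t in (0:ℝ)..1, Real.log (max ‖P.eval (circleMap 0 1 (2 * Real.pi * t))‖ δ) := by
  have hcont : Continuous fun t : ℝ =>
      Real.log (max ‖P.eval (circleMap 0 1 (2 * Real.pi * t))‖ δ) := by
    apply Continuous.log
    · exact (eval_cont P).norm.max continuous_const
    · intro t
      exact (lt_max_of_lt_right hδ).ne'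
  have h1 : Real.log δ ≤
      ∫ t in (0:ℝ)..1, Real.log (max ‖P.eval (circleMap 0 1 (2 * Real.pi * t))‖ δ) := by
    have h2 : ∫ t in (0:ℝ)..1, Real.log δ = Real.log δ := by simp
    rw [← h2]
    apply intervalIntegral.integral_mono_on zero_le_one intervalIntegrable_const
      (hcont.intervalIntegrable _ _)
    intro t _
    exact Real.log_le_log hδ (le_max_right _ _)
  by_cases h0 : ‖P.coeff 0‖ ≤ δ
  · rw [max_eq_right h0]
    exact h1
  · push Not at h0
    rw [max_eq_left h0.le]
    have hP : P ≠ 0 := by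
      rintro rfl
      simp at h0
      linarith
    have hc0 : 0 < ‖P.coeff 0‖ := hδ.trans h0
    have h2 : Real.log ‖P.coeff 0‖ ≤ P.logMahlerMeasure := by
      have h3 := norm_coeff_le_choose_mul_mahlerMeasure 0 P
      rw [Nat.choose_zero_right, Nat.cast_one, one_mul, mahlerMeasure_def_of_ne_zero hP] at h3
      rw [Real.log_le_iff_le_exp hc0]
      exact h3
    refine h2.trans ?_
    rw [logM_int]
    apply intervalIntegral.integral_mono_ae zero_le_one (logM_integrable P)
      (hcont.intervalIntegrable _ _)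
    filter_upwards [circle_zeros P hP] with t ht
    exact Real.log_le_log ht (le_max_left _ _)

/-- restriction of the coefficients to a set -/
noncomputable def cA (c : Fin k → ℂ) (A : Finset (Fin k)) : Fin k → ℂ :=
  fun j => if j ∈ A then c j else 0

/-- Jensen's inequality in an integer direction -/
theorem PP_ge_face (c c' : Fin k → ℂ) {δ : ℝ} (hδ : 0 < δ) (u : Fin k → ℤ) (μ : ℤ)
    (h1 : ∀ j, c j ≠ 0 → μ ≤ u j) (h2 : ∀ j, c' j = if u j = μ then c j else 0)
    (x : Fin k → ℝ) : gg c' δ x ≤ PP u (gg c δ) x := by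
  classical
  set P : ℂ[X] := ∑ j, C (c j * Complex.exp (2 * Real.pi * Complex.I * x j)) *
    X ^ (u j - μ).toNat with hP
  have hcoeff : P.coeff 0 = FF c' x := by
    rw [hP, finset_sum_coeff, FF]
    refine Finset.sum_congr rfl fun j _ => ?_
    rw [coeff_C_mul, coeff_X_pow, h2]
    by_cases hc : c j = 0
    · simp [hc]
    · have h3 := h1 j hc
      by_cases hu : u j = μ
      · simp [hu]
      · have h4 : ¬ (0 = (u j - μ).toNat) := by omega
        simp [h4, hu]
  have hval : ∀ θ : ℝ, ‖FF c (x + θ • ic u)‖ = ‖P.eval (circleMap 0 1 (2 * Real.pi * θ))‖ := by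
    intro θ
    have h5 : FF c (x + θ • ic u) =
        Complex.exp (((2 * Real.pi * θ * μ : ℝ) : ℂ) * Complex.I) *
          P.eval (circleMap 0 1 (2 * Real.pi * θ)) := by
      rw [hP, eval_finset_sum, Finset.mul_sum, FF]
      refine Finset.sum_congr rfl fun j _ => ?_
      rw [eval_mul, eval_C, eval_pow, eval_X]
      by_cases hc : c j = 0
      · simp [hc]
      · have h3 := h1 j hc
        have h6 : (((u j - μ).toNat : ℕ) : ℤ) = u j - μ := Int.toNat_of_nonneg (by linarith)
        have h7 : (((u j - μ).toNat : ℕ) : ℂ) = (u j : ℂ) - μ := by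
          have := congrArg (fun n : ℤ => (n : ℂ)) h6
          push_cast at this
          exact this
        have h8 : circleMap 0 1 (2 * Real.pi * θ) ^ (u j - μ).toNat =
            Complex.exp (((u j : ℂ) - μ) * (2 * Real.pi * θ * Complex.I)) := by
          rw [circleMap, zero_add, Complex.ofReal_one, one_mul, ← Complex.exp_nat_mul, h7]
          push_cast
          rfl
        rw [h8, mul_left_comm, mul_assoc (c j), ← Complex.exp_add, ← Complex.exp_add]
        congr 2
        simp only [Pi.add_apply, Pi.smul_apply, ic, smul_eq_mul]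
        push_cast
        ring
    rw [h5, norm_mul, Complex.norm_exp_ofReal_mul_I, one_mul]
  unfold gg PP
  rw [← hcoeff]
  simp only [hval]
  exact jensen_trunc P hδ

end Pool.Agent.Helper99.MK
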