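import Mathlib
import Pool.Graph.R_seed8.H338R2.AS.T6
import Pool.Graph.R_pool_sql_team_seeded_63374d34.N772.SC.Main
import Pool.Agent.Helper99.MK.J

/-!
# Small Mahler measure forces symmetric exponents
-/

set_option autoImplicit false

open Set MeasureTheory Module Polynomial

namespace Pool.Agent.Helper99.MK

open Pool.Agent.H338R2.AS (es sp lm)

variable {k : ℕ}

/-- restriction of integer coefficients to a set -/
def cZ (c : Fin k → ℤ) (A : Finset (Fin k)) : Fin k → ℤ := fun j => if j ∈ A then c j else 0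

lemma sp_cZ (c : Fin k → ℤ) (A : Finset (Fin k)) (e : Fin k → ℕ) :
    sp (cZ c A) e = ∑ j ∈ A, C (c j) * X ^ (e j) := by
  classical
  rw [sp]
  have h1 : ∀ j, C (cZ c A j) * (X : ℤ[X]) ^ e j = if j ∈ A then C (c j) * X ^ e j else 0 := by
    intro j
    unfold cZ
    split_ifs <;> simp
  rw [Finset.sum_congr rfl fun j _ => h1 j, ← Finset.sum_filter]
  have h2 : (Finset.univ.filter fun j => j ∈ A) = A := by ext; simp
  rw [h2]

lemma mahler_X : (X : ℂ[X]).mahlerMeasure = 1 := by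
  have h1 := mahlerMeasure_X_sub_C 0
  rw [C_0, sub_zero, norm_zero, max_eq_left zero_le_one] at h1
  exact h1

lemma mahler_X_pow (n : ℕ) : ((X : ℂ[X]) ^ n).mahlerMeasure = 1 := by
  induction n with
  | zero => rw [pow_zero]; simp
  | succ n ih => rw [pow_succ, mahlerMeasure_mul, ih, mahler_X, one_mul]

lemma lm_log (F : ℤ[X]) : lm F = Real.log ((F.map (Int.castRingHom ℂ)).mahlerMeasure) :=
  logMahlerMeasure_eq_log_MahlerMeasure

lemma lm_X_pow_mul (n : ℕ) (F : ℤ[X]) : lm (X ^ n * F) = lm F := by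
  rw [lm_log, lm_log, Polynomial.map_mul, Polynomial.map_pow, map_X, mahlerMeasure_mul,
    mahler_X_pow, one_mul]

lemma mahler_X_pow_add (n : ℕ) (hn : 0 < n) (ε : ℤ) (hε : ε = 1 ∨ ε = -1) :
    ((X ^ n + C ε : ℤ[X]).map (Int.castRingHom ℂ)).mahlerMeasure = 1 := by
  have hmap : ((X ^ n + C ε : ℤ[X]).map (Int.castRingHom ℂ)) = X ^ n + C ((ε : ℤ) : ℂ) := by
    simp
  rw [hmap]
  have hmonic : (X ^ n + C ((ε : ℤ) : ℂ) : ℂ[X]).Monic := monic_X_pow_add_C _ hn.ne'
  rw [mahlerMeasure_eq_leadingCoeff_mul_prod_roots, hmonic.leadingCoeff, norm_one, one_mul]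
  apply Multiset.prod_eq_one
  intro x hx
  obtain ⟨z, hz, rfl⟩ := Multiset.mem_map.mp hx
  have h1 : z ^ n = -((ε : ℤ) : ℂ) := by
    have := (mem_roots hmonic.ne_zero).mp hz
    rw [IsRoot, eval_add, eval_pow, eval_X, eval_C] at this
    exact eq_neg_of_add_eq_zero_left this
  have h2 : ‖z‖ ^ n = 1 := by
    rw [← norm_pow, h1, norm_neg]
    rcases hε with h | h <;> rw [h] <;> simp
  have h3 : ‖z‖ = 1 := (pow_eq_one_iff_of_nonneg (norm_nonneg _) hn.ne').mp h2
  rw [h3, max_self]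

theorem sym_of_small (A : Finset (Fin k)) (hA : A.Nonempty) (c : Fin k → ℤ)
    (hc : ∀ j, c j ≠ 0) (e : Fin k → ℕ) (he : Function.Injective e)
    (hlm : lm (sp (cZ c A) e) < Real.log (128 / 100)) :
    ∃ (f : Fin k → Fin k) (T : ℤ) (ε : ℤ), (ε = 1 ∨ ε = -1) ∧
      ∀ j ∈ A, f j ∈ A ∧ (e j : ℤ) + e (f j) = T ∧ c (f j) = ε * c j := by
  classical
  obtain ⟨j₀, hj₀, hmin⟩ := Finset.exists_min_image A e hA
  set n₀ := e j₀ with hn₀
  set G : ℤ[X] := ∑ j ∈ A, C (c j) * X ^ (e j - n₀) with hG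
  have hspG : sp (cZ c A) e = X ^ n₀ * G := by
    rw [sp_cZ, hG, Finset.mul_sum]
    refine Finset.sum_congr rfl fun j hj => ?_
    rw [mul_left_comm, ← pow_add, Nat.add_sub_cancel' (hmin j hj)]
  have hcoeff : ∀ j ∈ A, G.coeff (e j - n₀) = c j := by
    intro j hj
    rw [hG, finsetSum_coeff, Finset.sum_eq_single j]
    · rw [coeff_C_mul, coeff_X_pow_self, mul_one]
    · intro i hi hij
      rw [coeff_C_mul, coeff_X_pow, if_neg, mul_zero]
      intro h
      apply hij
      apply he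
      have h1 := hmin i hi
      have h2 := hmin j hj
      omega
    · intro h; exact absurd hj h
  have hsupp : ∀ n, G.coeff n ≠ 0 → ∃ j ∈ A, e j - n₀ = n := by
    intro n hn
    by_contra hcon
    push Not at hcon
    apply hn
    rw [hG, finsetSum_coeff]
    apply Finset.sum_eq_zero
    intro j hj
    rw [coeff_C_mul, coeff_X_pow, if_neg, mul_zero]
    exact fun h => hcon j hj h.symm
  have hG0 : G.coeff 0 ≠ 0 := by
    have := hcoeff j₀ hj₀
    rw [← hn₀, Nat.sub_self] at this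
    rw [this]
    exact hc j₀
  have hlmG : lm (sp (cZ c A) e) = lm G := by
    rw [hspG, lm_X_pow_mul]
  have hsmall : (G.map (Int.castRingHom ℂ)).mahlerMeasure < 128 / 100 := by
    rw [hlmG, lm_log] at hlm
    by_contra hcon
    push Not at hcon
    have := Real.log_le_log (by norm_num) hcon
    linarith
  obtain ⟨ε, hε, hrev⟩ : ∃ ε : ℤ, (ε = 1 ∨ ε = -1) ∧ ∀ n, G.reverse.coeff n = ε * G.coeff n := by
    by_cases h1 : G.reverse = G
    · exact ⟨1, Or.inl rfl, fun n => by rw [h1, one_mul]⟩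
    · by_cases h2 : G.reverse = -G
      · exact ⟨-1, Or.inr rfl, fun n => by rw [h2, coeff_neg]; ring⟩
      · have := Pool.Agent.N772.SC.smyth G hG0 h1 h2
        linarith
  have hε0 : ε ≠ 0 := by rcases hε with h | h <;> rw [h] <;> norm_num
  have hex : ∀ j ∈ A, ∃ j' ∈ A, (e j : ℤ) + e j' = G.natDegree + 2 * n₀ ∧ c j' = ε * c j := by
    intro j hj
    have hcj := hcoeff j hj
    have hne : G.coeff (e j - n₀) ≠ 0 := by rw [hcj]; exact hc j
    have hle : e j - n₀ ≤ G.natDegree := le_natDegree_of_ne_zero hne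
    have hval : G.coeff (G.natDegree - (e j - n₀)) = ε * c j := by
      have h1 : G.reverse.coeff (e j - n₀) = G.coeff (G.natDegree - (e j - n₀)) := by
        rw [coeff_reverse, revAt_le hle]
      rw [← h1, hrev, hcj]
    have hne2 : G.coeff (G.natDegree - (e j - n₀)) ≠ 0 := by
      rw [hval]
      exact mul_ne_zero hε0 (hc j)
    obtain ⟨j', hj', hj'e⟩ := hsupp _ hne2
    refine ⟨j', hj', ?_, ?_⟩
    · have h1 := hmin j hj
      have h2 := hmin j' hj'
      omega
    · rw [← hcoeff j' hj', hj'e, hval]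
  choose! f hf1 hf2 hf3 using hex
  exact ⟨f, _, ε, hε, fun j hj => ⟨hf1 j hj, hf2 j hj, hf3 j hj⟩⟩

/-- one term -/
lemma lm_single (A : Finset (Fin k)) (hA : A.card = 1) (c : Fin k → ℤ)
    (hc : ∀ j, c j ≠ 0) (e : Fin k → ℕ)
    (hlm : lm (sp (cZ c A) e) < Real.log (128 / 100)) : lm (sp (cZ c A) e) = 0 := by
  obtain ⟨j, rfl⟩ := Finset.card_eq_one.mp hA
  rw [sp_cZ, Finset.sum_singleton, mul_comm, lm_X_pow_mul, lm_log, Polynomial.map_C,
    mahlerMeasure_const, eq_intCast, Complex.norm_intCast] at hlm ⊢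
  have h1 : 1 ≤ |c j| := Int.one_le_abs (hc j)
  have h2 : |c j| < 2 := by
    by_contra hcon
    push Not at hcon
    have h3 : (2:ℝ) ≤ |(c j : ℝ)| := by exact_mod_cast hcon
    have h4 := Real.log_le_log (by norm_num : (0:ℝ) < 128 / 100)
      (by linarith : (128 / 100 : ℝ) ≤ |(c j : ℝ)|)
    linarith
  have h3 : |c j| = 1 := by omega
  have h4 : |(c j : ℝ)| = 1 := by exact_mod_cast h3
  rw [h4, Real.log_one]

/-- doubling a symmetric set of exponents does not change the Mahler measure -/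
lemma lm_double (A A' : Finset (Fin k)) (hA' : A'.Nonempty) (c : Fin k → ℤ)
    (e : Fin k → ℕ) (he : Function.Injective e)
    (f f' : Fin k → Fin k) (T T' ε ε' : ℤ) (hε : ε = 1 ∨ ε = -1) (hε' : ε' = 1 ∨ ε' = -1)
    (hf : ∀ j ∈ A, f j ∈ A ∧ (e j : ℤ) + e (f j) = T ∧ c (f j) = ε * c j)
    (hf' : ∀ j ∈ A', f' j ∈ A' ∧ (e j : ℤ) + e (f' j) = T' ∧ c (f' j) = ε' * c j)
    (hdisj : Disjoint A' (A'.image f)) (hAeq : A = A' ∪ A'.image f) :
    lm (sp (cZ c A) e) = lm (sp (cZ c A') e) := by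
  classical
  have hsub : A' ⊆ A := by rw [hAeq]; exact Finset.subset_union_left
  have hfinj : Set.InjOn f A' := by
    intro i hi j hj hij
    have h1 := (hf i (hsub hi)).2.1
    have h2 := (hf j (hsub hj)).2.1
    rw [hij] at h1
    apply he
    omega
  have hf'inj : Set.InjOn f' A' := by
    intro i hi j hj hij
    have h1 := (hf' i hi).2.1
    have h2 := (hf' j hj).2.1
    rw [hij] at h1
    apply he
    omega
  have hf'img : A'.image f' = A' := by
    apply Finset.eq_of_subset_of_card_le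
    · intro j hj
      obtain ⟨i, hi, rfl⟩ := Finset.mem_image.mp hj
      exact (hf' i hi).1
    · rw [Finset.card_image_of_injOn hf'inj]
  set t : ℤ := T - T' with ht
  have ht0 : t ≠ 0 := by
    intro h0
    obtain ⟨j, hj⟩ := hA'
    have h1 := (hf j (hsub hj)).2.1
    have h2 := (hf' j hj).2.1
    have h3 : f j = f' j := by
      apply he
      omega
    have h4 : f j ∈ A'.image f := Finset.mem_image_of_mem f hj
    have h5 : f j ∈ A' := by rw [h3]; exact (hf' j hj).1
    exact (Finset.disjoint_left.mp hdisj) h5 h4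
  have hε2 : ε' * ε' = 1 := by rcases hε' with h | h <;> rw [h] <;> norm_num
  -- the second half
  have hsecond : ∀ (a b : ℕ), (b : ℤ) - a = t →
      X ^ a * ∑ j ∈ A', C (c (f j)) * (X : ℤ[X]) ^ (e (f j)) =
        C (ε * ε') * X ^ b * ∑ j ∈ A', C (c j) * (X : ℤ[X]) ^ (e j) := by
    intro a b hab
    have h1 : ∑ j ∈ A', C (c j) * (X : ℤ[X]) ^ (e j) =
        ∑ j ∈ A', C (c (f' j)) * (X : ℤ[X]) ^ (e (f' j)) := by
      conv_lhs => rw [← hf'img]
      rw [Finset.sum_image hf'inj]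
    rw [h1, Finset.mul_sum, Finset.mul_sum]
    refine Finset.sum_congr rfl fun j hj => ?_
    have h2 := (hf j (hsub hj)).2
    have h3 := (hf' j hj).2
    have h4 : a + e (f j) = b + e (f' j) := by
      have := h2.1
      have := h3.1
      omega
    have h5 : c (f j) = (ε * ε') * c (f' j) := by
      rw [h2.2, h3.2]
      linear_combination (-(ε * c j)) * hε2
    rw [h5, C_mul]
    calc X ^ a * (C (ε * ε') * C (c (f' j)) * X ^ e (f j))
        = C (ε * ε') * C (c (f' j)) * X ^ (a + e (f j)) := by rw [pow_add]; ring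
      _ = C (ε * ε') * X ^ b * (C (c (f' j)) * X ^ e (f' j)) := by rw [h4, pow_add]; ring
  have hsum : sp (cZ c A) e = ∑ j ∈ A', C (c j) * (X : ℤ[X]) ^ (e j) +
      ∑ j ∈ A', C (c (f j)) * (X : ℤ[X]) ^ (e (f j)) := by
    rw [sp_cZ, hAeq, Finset.sum_union hdisj, Finset.sum_image hfinj]
  have hεε : ε * ε' = 1 ∨ ε * ε' = -1 := by
    rcases hε with h | h <;> rcases hε' with h' | h' <;> rw [h, h'] <;> norm_num
  set Pp : ℤ[X] := ∑ j ∈ A', C (c j) * (X : ℤ[X]) ^ (e j) with hPp
  have hspA' : sp (cZ c A') e = Pp := sp_cZ c A' e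
  rw [hspA']
  rcases lt_or_gt_of_ne ht0 with hneg | hpos
  · -- t < 0
    set a := (-t).toNat with ha
    have haz : (a : ℤ) = -t := Int.toNat_of_nonneg (by linarith)
    have ha0 : 0 < a := by omega
    have h1 := hsecond a 0 (by push_cast; linarith)
    have h2 : X ^ a * sp (cZ c A) e = (X ^ a + C (ε * ε')) * Pp := by
      rw [hsum, mul_add, h1]
      ring
    have h3 : lm (sp (cZ c A) e) = lm (X ^ a * sp (cZ c A) e) := (lm_X_pow_mul a _).symm
    rw [h3, h2, lm_log, lm_log, Polynomial.map_mul, mahlerMeasure_mul,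
      mahler_X_pow_add a ha0 _ hεε, one_mul]
  · set b := t.toNat with hb
    have hbz : (b : ℤ) = t := Int.toNat_of_nonneg (by linarith)
    have hb0 : 0 < b := by omega
    have h1 := hsecond 0 b (by push_cast; linarith)
    rw [pow_zero, one_mul] at h1
    have hsq : (C (ε * ε') : ℤ[X]) * C (ε * ε') = 1 := by
      rw [← C_mul]
      have : ε * ε' * (ε * ε') = 1 := by
        rcases hεε with h | h <;> rw [h] <;> norm_num
      rw [this, C_1]
    have h2 : sp (cZ c A) e = C (ε * ε') * ((X ^ b + C (ε * ε')) * Pp) := by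
      rw [hsum, h1]
      linear_combination (-Pp) * hsq
    have hCm : ((C (ε * ε') : ℤ[X]).map (Int.castRingHom ℂ)).mahlerMeasure = 1 := by
      rw [Polynomial.map_C, mahlerMeasure_const, eq_intCast, Complex.norm_intCast]
      rcases hεε with h | h <;> rw [h] <;> simp
    rw [h2, lm_log, lm_log, Polynomial.map_mul, mahlerMeasure_mul, hCm, one_mul,
      Polynomial.map_mul, mahlerMeasure_mul, mahler_X_pow_add b hb0 _ hεε, one_mul]

end Pool.Agent.Helper99.MK
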