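import Mathlib
import Pool.Agent.Helper99.MK.R1
import Pool.Agent.Helper99.MK.Sy

/-!
# The additive dimension of the exponents of polynomials of small Mahler measure
-/

set_option autoImplicit false

open Set MeasureTheory Module

namespace Pool.Agent.Helper99.MK

open Pool.Agent.H338R2.AS (es sp lm Sim small_values)
open Pool.Agent.H338R2.AS.T3 (VV VV_meas VV_tendsto zero_null es_continuous es_norm_le lm_eq
  log_integrable)

variable {k : ℕ}

/-- the closure, with the persistence of short relations -/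
theorem closure_exists2 (ρ : ℝ) : ∀ (n : ℕ) (l : List (Fin k → ℤ)),
    k ≤ finrank ℝ (spn l) + n →
    ∃ l' : List (Fin k → ℤ), spn l ≤ spn l' ∧ Clo (spn l') ρ ∧
      (∀ H : Fin k → ℤ, (∀ w ∈ l, idot H w = 0) → (∑ j, |(H j : ℝ)|) * ρ < 1 →
        ∀ w ∈ l', idot H w = 0) ∧
      ∀ (f : (Fin k → ℝ) → ℝ) (V : ℝ) (S : ℕ), Good f → VB f V → 1 ≤ S → S * ρ ≤ 1 / 8 →
        ∀ x, |PL l' f x - PL l f x| ≤ n * (V / S) := by
  intro n
  induction n with
  | zero =>
    intro l hl
    refine ⟨l, le_rfl, ?_, fun H h _ => h, ?_⟩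
    · have htop : spn l = ⊤ := by
        apply Submodule.eq_top_of_finrank_eq
        apply le_antisymm (Submodule.finrank_le _)
        rw [finrank_fin_fun]
        omega
      intro z u _ _
      rw [htop]
      exact Submodule.mem_top
    · intro f V S _ _ _ _ x
      simp
  | succ n ih =>
    intro l hl
    by_cases hc : Clo (spn l) ρ
    · refine ⟨l, le_rfl, hc, fun H h _ => h, ?_⟩
      intro f V S _ hV hS _ x
      have h1 := VB_nonneg hV
      rw [sub_self, abs_zero]
      positivity
    · unfold Clo at hc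
      push Not at hc
      obtain ⟨z, u, hu, hz, hzU⟩ := hc
      have hlt : spn l < spn (z :: l) := by
        rw [spn_cons]
        refine lt_of_le_of_ne le_sup_right ?_
        intro heq
        apply hzU
        rw [heq]
        exact Submodule.mem_sup_left (Submodule.mem_span_singleton_self _)
      have hfin := Submodule.finrank_lt_finrank_of_lt hlt
      obtain ⟨l', h1, h2, h3, h4⟩ := ih (z :: l) (by omega)
      refine ⟨l', hlt.le.trans h1, h2, ?_, ?_⟩
      · intro H hH hlen
        apply h3 H _ hlen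
        intro w hw
        rcases List.mem_cons.mp hw with rfl | hw
        · -- the relation persists
          have e1 := dot_zero_of_mem hH hu
          have e2 : ((idot H w : ℤ) : ℝ) = ∑ j, (H j : ℝ) * (ic w j - u j) := by
            rw [idot_cast]
            have : ∑ j, (H j : ℝ) * (ic w j - u j) =
                ∑ j, (H j : ℝ) * ic w j - ∑ j, (H j : ℝ) * u j := by
              rw [← Finset.sum_sub_distrib]
              exact Finset.sum_congr rfl fun j _ => by ring
            rw [this, e1, sub_zero]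
          have e3 : |((idot H w : ℤ) : ℝ)| < 1 := by
            rw [e2]
            calc |∑ j, (H j : ℝ) * (ic w j - u j)| ≤ ∑ j, |(H j : ℝ) * (ic w j - u j)| :=
                  Finset.abs_sum_le_sum_abs _ _
              _ ≤ ∑ j, |(H j : ℝ)| * ρ := by
                  refine Finset.sum_le_sum fun j _ => ?_
                  rw [abs_mul]
                  exact mul_le_mul_of_nonneg_left (hz j) (abs_nonneg _)
              _ = (∑ j, |(H j : ℝ)|) * ρ := by rw [Finset.sum_mul]
              _ < 1 := hlen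
          have e4 : |idot H w| < 1 := by exact_mod_cast e3
          exact Int.abs_lt_one_iff.mp e4
        · exact hH w hw
      · intro f V S hf hV hS hSρ x
        have e1 := h4 f V S hf hV hS hSρ x
        have hSpos : (0:ℝ) < S := by exact_mod_cast hS
        have e2 := key_close hf hV l z u hu hS (fun j => by
          calc (S:ℝ) * |ic z j - u j| ≤ S * ρ := by
                apply mul_le_mul_of_nonneg_left (hz j) hSpos.le
            _ ≤ 1 / 8 := hSρ) x
        have e3 : PL l' f x - PL l f x = (PL l' f x - PL (z :: l) f x) +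
          (PL (z :: l) f x - PL l f x) := by ring
        rw [e3]
        refine (abs_add_le _ _).trans ?_
        push_cast
        linarith

/-- the rational vectors in the span -/
def UQ (l : List (Fin k → ℤ)) : Submodule ℚ (Fin k → ℚ) where
  carrier := {b | (fun j => (b j : ℝ)) ∈ spn l}
  add_mem' := by
    intro b c hb hc
    have : (fun j => (((b + c) j : ℚ) : ℝ)) = (fun j => (b j : ℝ)) + (fun j => (c j : ℝ)) := by
      ext j; simp
    rw [Set.mem_ofPred_eq, this]
    exact Submodule.add_mem _ hb hc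
  zero_mem' := by
    have : (fun j => (((0 : Fin k → ℚ) j : ℚ) : ℝ)) = 0 := by ext j; simp
    rw [Set.mem_ofPred_eq, this]
    exact Submodule.zero_mem _
  smul_mem' := by
    intro t b hb
    have : (fun j => (((t • b) j : ℚ) : ℝ)) = (t : ℝ) • (fun j => (b j : ℝ)) := by
      ext j; simp
    rw [Set.mem_ofPred_eq, this]
    exact Submodule.smul_mem _ _ hb

lemma mem_UQ {l : List (Fin k → ℤ)} {b : Fin k → ℚ} :
    b ∈ UQ l ↔ (fun j => (b j : ℝ)) ∈ spn l := Iff.rfl

lemma int_mem_UQ {l : List (Fin k → ℤ)} {w : Fin k → ℤ} :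
    (fun j => (w j : ℚ)) ∈ UQ l ↔ ic w ∈ spn l := by
  rw [mem_UQ]
  have : (fun j => (((w j : ℤ) : ℚ) : ℝ)) = ic w := by
    ext j; simp [ic]
  rw [this]

lemma clear_den (u : Fin k → ℚ) : ∃ N : ℕ, 0 < N ∧ ∃ v : Fin k → ℤ, ∀ j, (v j : ℚ) = N * u j := by
  classical
  refine ⟨∏ j, (u j).den, Finset.prod_pos fun j _ => (u j).den_pos,
    fun j => (∏ i ∈ Finset.univ.erase j, ((u i).den : ℤ)) * (u j).num, fun j => ?_⟩
  rw [← Finset.mul_prod_erase Finset.univ _ (Finset.mem_univ j)]
  push_cast
  have h1 : ((u j).den : ℚ) * u j = (u j).num := by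
    rw [mul_comm]; exact Rat.mul_den_eq_num _
  rw [mul_assoc, mul_comm (((u j).den : ℚ)), mul_assoc, mul_comm (u j), h1]

/-- the truncated mean over the closure decreases when passing to faces -/
lemma face_step (c : Fin k → ℂ) {δ : ℝ} (hδ : 0 < δ) (l : List (Fin k → ℤ))
    (A : Finset (Fin k)) (hA : A.Nonempty) {u : Fin k → ℚ} (hu : u ∈ UQ l) :
    PL l (gg (cA c (face u A)) δ) 0 ≤ PL l (gg (cA c A) δ) 0 := by
  classical
  obtain ⟨N, hN, v, hv⟩ := clear_den u
  have hNq : (0:ℚ) < N := by exact_mod_cast hN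
  have hvU : ic v ∈ spn l := by
    have h1 : ic v = (N : ℝ) • (fun j => (u j : ℝ)) := by
      ext j
      have := hv j
      have h2 : ((v j : ℚ) : ℝ) = ((N * u j : ℚ) : ℝ) := by rw [this]
      simp only [ic, Pi.smul_apply, smul_eq_mul]
      push_cast at h2
      exact h2
    rw [h1]
    exact Submodule.smul_mem _ _ hu
  obtain ⟨j₀, hj₀, hmin⟩ := Finset.exists_min_image A v hA
  have hface : ∀ j, j ∈ face u A ↔ j ∈ A ∧ v j = v j₀ := by
    intro j
    rw [mem_face]
    have hiff : ∀ i i', u i ≤ u i' ↔ v i ≤ v i' := by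
      intro i i'
      have h1 : (v i ≤ v i') ↔ ((v i : ℚ) ≤ v i') := by exact_mod_cast Iff.rfl
      rw [h1, hv, hv]
      exact (mul_le_mul_iff_right₀ hNq).symm
    constructor
    · rintro ⟨h1, h2⟩
      exact ⟨h1, le_antisymm ((hiff _ _).mp (h2 j₀ hj₀)) (hmin j h1)⟩
    · rintro ⟨h1, h2⟩
      refine ⟨h1, fun i hi => ?_⟩
      rw [hiff, h2]
      exact hmin i hi
  have hpt : ∀ x, gg (cA c (face u A)) δ x ≤ PP v (gg (cA c A) δ) x := by
    intro x
    apply PP_ge_face (cA c A) (cA c (face u A)) hδ v (v j₀)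
    · intro j hj
      apply hmin
      by_contra hn
      apply hj
      simp [cA, hn]
    · intro j
      unfold cA
      by_cases h1 : j ∈ A
      · by_cases h2 : v j = v j₀
        · rw [if_pos ((hface j).mpr ⟨h1, h2⟩), if_pos h2, if_pos h1]
        · rw [if_neg (fun h => h2 ((hface j).mp h).2), if_neg h2]
      · rw [if_neg (fun h => h1 ((hface j).mp h).1), if_neg h1]
        simp
  have h1 := PL_mono (l := l) (gg_cont (cA c (face u A)) hδ)
    (PP_cont (w := v) (gg_cont (cA c A) hδ)) hpt 0
  refine h1.trans (le_of_eq ?_)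
  rw [← PP_PL_comm (gg_cont _ hδ), PP_of_mem (spn_le_Inv (gg_good _ hδ) hvU)]

/-- the errors with the standard choice of parameters -/
lemma err_le {r : ℕ} (hk : 2 ≤ r + 1) {η : ℝ} (hη : 0 < η) (hη1 : η ≤ 1) :
    2 * (((r + 1 : ℕ) : ℝ) * (((2 * (((r + 1 : ℕ) : ℝ) ^ 2 + 1)) *
        (Real.log (r + 1) + r * Real.log (2 / (η / (80 * ((r + 1 : ℕ) : ℝ) ^ 2))))) /
          (SS (r + 1) η : ℝ))) +
      (r * Real.log 2) * (40 * r * (η / (80 * ((r + 1 : ℕ) : ℝ) ^ 2))) ≤ η := by
  have hr : 1 ≤ r := by omega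
  set K : ℝ := ((r + 1 : ℕ) : ℝ) with hkdef
  have hk2 : (2:ℝ) ≤ K := by rw [hkdef]; exact_mod_cast hk
  set S := SS (r + 1) η with hSdef
  have hS : 1 ≤ S := SS_pos hk hη
  have hSpos : (1:ℝ) ≤ S := by exact_mod_cast hS
  have hSge : 2560 * K ^ 6 / η ^ 2 ≤ S := Nat.le_ceil _
  set s : ℝ := η / (80 * K ^ 2) with hs
  have hs0 : 0 < s := by positivity
  have hs1 : s ≤ 1 := by
    rw [hs, div_le_one (by positivity)]
    nlinarith
  have hrk : (r:ℝ) = K - 1 := by rw [hkdef]; push_cast; ring
  have h2s : 2 / s = 160 * K ^ 2 / η := by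
    rw [hs]; field_simp; norm_num
  have hbig : 0 < 160 * K ^ 2 / η := by positivity
  have hklt : (r:ℝ) + 1 ≤ 160 * K ^ 2 / η := by
    rw [hrk, le_div_iff₀ hη]
    nlinarith
  have hlogs : Real.log (r + 1) + r * Real.log (2 / s) ≤ 160 * K ^ 3 / η := by
    rw [h2s]
    have h1 : Real.log (r + 1) ≤ Real.log (160 * K ^ 2 / η) :=
      Real.log_le_log (by positivity) hklt
    have h2 : Real.log (160 * K ^ 2 / η) ≤ 160 * K ^ 2 / η :=
      (Real.log_le_sub_one_of_pos hbig).trans (by linarith)
    have hr0 : (0:ℝ) ≤ r := Nat.cast_nonneg _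
    calc Real.log (r + 1) + r * Real.log (160 * K ^ 2 / η) ≤
        160 * K ^ 2 / η + r * (160 * K ^ 2 / η) := by gcongr; exact h1.trans h2
      _ = 160 * K ^ 3 / η := by rw [hrk]; ring
  have hlognn : 0 ≤ Real.log (r + 1) + r * Real.log (2 / s) := by
    have h1 : 0 ≤ Real.log ((r:ℝ) + 1) := Real.log_nonneg (by linarith [Nat.cast_nonneg (α := ℝ) r])
    have h2 : 0 ≤ Real.log (2 / s) := Real.log_nonneg (by rw [le_div_iff₀ hs0]; linarith)
    positivity
  have hE1 : 2 * (K * (((2 * (K ^ 2 + 1)) *
        (Real.log (r + 1) + r * Real.log (2 / s))) / S)) ≤ η / 2 := by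
    have hk1 : K ^ 2 + 1 ≤ 2 * K ^ 2 := by nlinarith
    calc 2 * (K * (((2 * (K ^ 2 + 1)) *
        (Real.log (r + 1) + r * Real.log (2 / s))) / S))
        ≤ 2 * (K * (((2 * (2 * K ^ 2)) * (160 * K ^ 3 / η)) / S)) := by
          gcongr
      _ = (1280 * K ^ 6 / η) / S := by ring
      _ ≤ η / 2 := by
          rw [div_le_iff₀ (by linarith)]
          calc 1280 * K ^ 6 / η = η / 2 * (2560 * K ^ 6 / η ^ 2) := by
                field_simp; norm_num
            _ ≤ η / 2 * S := by gcongr
  have hE2 : (r * Real.log 2) * (40 * r * s) ≤ η / 2 := by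
    have hl2 : Real.log 2 ≤ 1 := by
      have := Real.log_two_lt_d9
      linarith
    have hl0 : 0 ≤ Real.log 2 := Real.log_nonneg (by norm_num)
    have hrk' : (r:ℝ) ≤ K := by rw [hrk]; linarith
    calc (r * Real.log 2) * (40 * r * s) ≤ (K * 1) * (40 * K * s) := by gcongr
      _ = η / 2 := by rw [hs]; field_simp; norm_num
  linarith

/-- integer polynomials with small Mahler measure: structure of the exponents -/
theorem additive_dim {r : ℕ} (hr : 1 ≤ r) (c : Fin (r + 1) → ℤ) (hc : ∀ j, c j ≠ 0)
    (e : Fin (r + 1) → ℕ) (he : Function.Injective e)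
    (hlm : lm (sp c e) ≤ Real.log (127 / 100)) :
    ∃ (m : ℕ) (H : Fin m → Fin (r + 1) → ℤ), 2 ^ (r - m) ≤ r + 1 ∧
      (0 < lm (sp c e) → 2 ^ (r - m) < r + 1) ∧
      LinearIndependent ℤ H ∧ ∀ i, ∑ j, H i j = 0 ∧ ∑ j, H i j * (e j : ℤ) = 0 ∧
        ∑ j, |H i j| ≤ (mK (r + 1) (1 / 200) : ℤ) := by
  classical
  have hk : 2 ≤ r + 1 := by omega
  set η : ℝ := 1 / 200 with hηdef
  have hη : 0 < η := by norm_num [hηdef]
  have hη1 : η ≤ 1 := by norm_num [hηdef]
  set K : ℝ := ((r + 1 : ℕ) : ℝ) with hkdef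
  have hk2 : (2:ℝ) ≤ K := by rw [hkdef]; exact_mod_cast hk
  have herr := err_le hk hη hη1
  set S := SS (r + 1) η with hSdef
  have hS : 1 ≤ S := SS_pos hk hη
  have hSpos : (1:ℝ) ≤ S := by exact_mod_cast hS
  set ρ : ℝ := 1 / (8 * (S:ℝ)) with hρdef
  have hρ : 0 < ρ := by positivity
  have hρ8 : ρ ≤ 1 / 8 := by
    rw [hρdef]
    apply div_le_div_of_nonneg_left zero_le_one (by norm_num)
    linarith
  have hρ1 : ρ ≤ 1 := by linarith
  have hSρ : S * ρ ≤ 1 / 8 := by
    rw [hρdef]
    apply le_of_eq
    field_simp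
  set M := (288 * (r + 1) * S ^ 2) ^ 2 with hMdef
  have hM : (1 - 4 * (ρ / 3) ^ 2) ^ M < (1 / (2 * M + 1) : ℝ) ^ (r + 1) := hM_holds hk hS
  set s : ℝ := η / (80 * K ^ 2) with hs
  have hs0 : 0 < s := by positivity
  have hs1 : s ≤ 1 := by
    rw [hs, div_le_one (by positivity)]
    nlinarith
  -- coefficients
  obtain ⟨j₀, hj₀⟩ := Finite.exists_max (fun j => ‖(c j : ℂ)‖)
  set C : Fin (r + 1) → ℂ := fun j => (c j : ℂ) with hC
  have hCne : ∀ j, C j ≠ 0 := fun j => Int.cast_ne_zero.mpr (hc j)
  set H₀ : ℝ := ‖C j₀‖ with hH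
  set L : ℝ := ∑ j, ‖C j‖ with hL
  have hHpos : 0 < H₀ := by rw [hH, norm_pos_iff]; exact hCne j₀
  have hHL : H₀ ≤ L := Finset.single_le_sum (f := fun j => ‖C j‖) (fun j _ => norm_nonneg _)
    (Finset.mem_univ j₀)
  have hLH : L ≤ (r + 1) * H₀ := by
    have := Finset.sum_le_card_nsmul Finset.univ (fun j => ‖C j‖) H₀ (fun j _ => hj₀ j)
    simpa using this
  have hLpos : 0 < L := by linarith
  set δ : ℝ := (s / 2) ^ r * H₀ with hδdef
  have hδ : 0 < δ := by positivity
  have hδH : δ ≤ H₀ := by
    rw [hδdef]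
    apply mul_le_of_le_one_left hHpos.le
    apply pow_le_one₀ (by positivity)
    linarith
  have hδL : δ ≤ L := hδH.trans hHL
  set V : ℝ := (2 * (((r + 1 : ℕ) : ℝ) ^ 2 + 1)) * Real.log (L / δ) with hV
  have hlog : Real.log (L / δ) ≤ Real.log (r + 1) + r * Real.log (2 / s) := by
    have h1 : L / δ ≤ (r + 1) * (2 / s) ^ r := by
      rw [div_le_iff₀ hδ, hδdef]
      calc L ≤ (r + 1) * H₀ := hLH
        _ = (r + 1) * (2 / s) ^ r * ((s / 2) ^ r * H₀) := by
            have : (2 / s) ^ r * (s / 2) ^ r = 1 := by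
              rw [← mul_pow, show 2 / s * (s / 2) = 1 by field_simp, one_pow]
            linear_combination (-(r + 1) * H₀) * this
    calc Real.log (L / δ) ≤ Real.log ((r + 1) * (2 / s) ^ r) :=
          Real.log_le_log (by positivity) h1
      _ = Real.log (r + 1) + r * Real.log (2 / s) := by
          rw [Real.log_mul (by positivity) (by positivity), Real.log_pow]
  have herr2 : 2 * (K * (V / S)) + (r * Real.log 2) * (40 * r * s) ≤ η := by
    refine le_trans ?_ herr
    rw [hV]
    gcongr
  -- the closure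
  set E : Fin (r + 1) → ℤ := fun j => (e j : ℤ) with hE
  have hEinj : Function.Injective E := fun x y hxy => he (Nat.cast_injective hxy)
  obtain ⟨l, hl1, hl2, hl3, hl4⟩ := closure_exists2 ρ (r + 1) [E, one1] (by omega)
  have hEl : ic E ∈ spn l := hl1 (mem_spn (by simp))
  have h1l : ic (one1 : Fin (r + 1) → ℤ) ∈ spn l := hl1 (mem_spn (by simp))
  have hcAle : ∀ A : Finset (Fin (r + 1)), ∑ j, ‖cA C A j‖ ≤ L := by
    intro A
    rw [hL]
    refine Finset.sum_le_sum fun j _ => ?_
    unfold cA
    split_ifs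
    · exact le_rfl
    · rw [norm_zero]; exact norm_nonneg _
  have hclose : ∀ A : Finset (Fin (r + 1)),
      |PL l (gg (cA C A) δ) 0 - PL [E, one1] (gg (cA C A) δ) 0| ≤ K * (V / S) := by
    intro A
    exact hl4 (gg (cA C A) δ) V S (gg_good _ hδ) (gg_VB _ hδ hδL (hcAle A)) hS hSρ 0
  have hcAuniv : cA C Finset.univ = C := by ext j; simp [cA]
  -- the family of faces
  set P : Finset (Fin (r + 1)) → Prop := fun A => A.Nonempty ∧
    PL l (gg (cA C A) δ) 0 ≤ PL l (gg C δ) 0 with hP
  have htail := tail_bound hr (es_continuous C E) hHpos hs0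
    (fun s hs => small_values C E hEinj j₀ s hs) (log_integrable c e)
  have hbase : PL [E, one1] (gg C δ) 0 ≤ lm (sp c e) + (r * Real.log 2) * (40 * r * s) := by
    rw [PL_pair C hδ E, lm_eq]
    have := htail.2
    linarith
  have hsmall : ∀ A, P A → lm (sp (cZ c A) e) < Real.log (128 / 100) := by
    intro A hPA
    obtain ⟨hAne, hle⟩ := hPA
    obtain ⟨j₁, hj₁⟩ := hAne
    have hcast : (fun j => ((cZ c A j : ℤ) : ℂ)) = cA C A := by
      ext j
      unfold cZ cA
      split_ifs <;> simp [hC]
    have hnull : volume {t : ℝ | t ∈ Set.Icc (0:ℝ) 1 ∧ ‖es (cA C A) E t‖ = 0} = 0 := by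
      apply zero_null (G := es (cA C A) E) (r := r) (H := ‖cA C A j₁‖)
      · rw [norm_pos_iff]
        simp only [cA, if_pos hj₁]
        exact hCne j₁
      · intro s hs
        exact small_values (cA C A) E hEinj j₁ s hs
    have h1 : lm (sp (cZ c A) e) ≤ PL [E, one1] (gg (cA C A) δ) 0 := by
      rw [PL_pair (cA C A) hδ E, lm_eq, hcast]
      have hint := log_integrable (cZ c A) e
      rw [hcast] at hint
      have hcontmax : Continuous fun t => Real.log (max ‖es (cA C A) E t‖ δ) := by
        apply Continuous.log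
        · exact (es_continuous (cA C A) E).norm.max continuous_const
        · intro t
          exact (lt_max_of_lt_right hδ).ne'
      rw [intervalIntegral.integral_of_le zero_le_one, intervalIntegral.integral_of_le zero_le_one]
      apply integral_mono_ae
      · exact hint.1
      · exact (hcontmax.intervalIntegrable 0 1).1
      · rw [Filter.EventuallyLE, ae_restrict_iff' measurableSet_Ioc, ae_iff]
        refine measure_mono_null ?_ hnull
        intro t ht
        simp only [Set.mem_ofPred_eq, not_forall, not_le] at ht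
        obtain ⟨ht1, ht2⟩ := ht
        refine ⟨⟨ht1.1.le, ht1.2⟩, ?_⟩
        by_contra hne
        have hpos : 0 < ‖es (cA C A) E t‖ := lt_of_le_of_ne (norm_nonneg _) (Ne.symm hne)
        have h5 := Real.log_le_log hpos (le_max_left ‖es (cA C A) E t‖ δ)
        exact absurd h5 (not_le.mpr ht2)
    have h2 := hclose A
    have h3 := hclose Finset.univ
    rw [hcAuniv] at h3
    rw [abs_le] at h2 h3
    have h4 : lm (sp (cZ c A) e) ≤ lm (sp c e) + η := by
      have g1 : PL [E, one1] (gg (cA C A) δ) 0 ≤ PL l (gg (cA C A) δ) 0 + K * (V / S) := by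
        linarith [h2.1]
      have g2 : PL l (gg C δ) 0 ≤ PL [E, one1] (gg C δ) 0 + K * (V / S) := by
        linarith [h3.2]
      calc lm (sp (cZ c A) e) ≤ PL [E, one1] (gg (cA C A) δ) 0 := h1
        _ ≤ PL l (gg (cA C A) δ) 0 + K * (V / S) := g1
        _ ≤ PL l (gg C δ) 0 + K * (V / S) := by gcongr
        _ ≤ PL [E, one1] (gg C δ) 0 + K * (V / S) + K * (V / S) := by gcongr
        _ ≤ lm (sp c e) + (r * Real.log 2) * (40 * r * s) + K * (V / S) + K * (V / S) := by gcongr
        _ = lm (sp c e) + (2 * (K * (V / S)) + (r * Real.log 2) * (40 * r * s)) := by ring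
        _ ≤ lm (sp c e) + η := by gcongr
    have h5 : Real.log (127 / 100) + 1 / 200 < Real.log (128 / 100) := by
      have h6 : Real.log (128 / 100) = Real.log (127 / 100) + Real.log (128 / 127) := by
        rw [← Real.log_mul (by norm_num) (by norm_num)]
        norm_num
      have h7 := Real.one_sub_inv_le_log_of_pos (show (0:ℝ) < 128 / 127 by norm_num)
      norm_num at h7
      rw [h6]
      linarith
    linarith
  -- counting
  have hsym : ∀ A, P A → ∃ (f : Fin (r + 1) → Fin (r + 1)) (T : ℤ) (ε : ℤ), (ε = 1 ∨ ε = -1) ∧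
      ∀ j ∈ A, f j ∈ A ∧ (e j : ℤ) + e (f j) = T ∧ c (f j) = ε * c j := fun A hPA =>
    sym_of_small A hPA.1 c hc e he (hsmall A hPA)
  choose! σ T ε hε hσ using hsym
  have hcount : 2 ^ (finrank ℚ (UQ l) - 1) ≤ r + 1 ∧ (r + 1 ≤ 2 ^ (finrank ℚ (UQ l) - 1) →
      lm (sp (cZ c Finset.univ) e) = 0) := by
    apply count_univ (UQ l) P (fun A => lm (sp (cZ c A) e) = 0) σ (fun A h => h.1)
      (e := fun j => ((E j : ℤ) : ℚ))
    · rintro A ⟨hA1, hA2⟩ u hu
      exact ⟨face_nonempty hA1, (face_step C hδ l A hA1 hu).trans hA2⟩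
    · intro A hPA j hj
      exact (hσ A hPA j hj).1
    · intro A hPA b hb i hi j hj
      set Hh : Fin (r + 1) → ℤ := Pi.single i 1 + Pi.single (σ A i) 1 - Pi.single j 1 -
        Pi.single (σ A j) 1 with hHh
      have hsingle : ∀ (i : Fin (r + 1)) (x : Fin (r + 1) → ℝ),
          ∑ a, ((Pi.single i (1:ℤ) : Fin (r + 1) → ℤ) a : ℝ) * x a = x i := by
        intro i x
        rw [Finset.sum_eq_single i]
        · simp
        · intro b _ hb
          rw [Pi.single_eq_of_ne hb]; simp
        · simp
      have hdot : ∀ x : Fin (r + 1) → ℝ, ∑ a, (Hh a : ℝ) * x a =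
          x i + x (σ A i) - x j - x (σ A j) := by
        intro x
        have : ∀ a, (Hh a : ℝ) * x a = ((Pi.single i (1:ℤ) : Fin (r + 1) → ℤ) a : ℝ) * x a +
            ((Pi.single (σ A i) (1:ℤ) : Fin (r + 1) → ℤ) a : ℝ) * x a -
            ((Pi.single j (1:ℤ) : Fin (r + 1) → ℤ) a : ℝ) * x a -
            ((Pi.single (σ A j) (1:ℤ) : Fin (r + 1) → ℤ) a : ℝ) * x a := by
          intro a
          rw [hHh]
          simp only [Pi.add_apply, Pi.sub_apply]
          push_cast
          ring
        rw [Finset.sum_congr rfl fun a _ => this a, Finset.sum_sub_distrib,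
          Finset.sum_sub_distrib, Finset.sum_add_distrib, hsingle, hsingle, hsingle, hsingle]
      have hbase2 : ∀ w ∈ [E, one1], idot Hh w = 0 := by
        intro w hw
        have h0 : ((idot Hh w : ℤ) : ℝ) = 0 := by
          rw [idot_cast, hdot]
          simp only [List.mem_cons, List.not_mem_nil, or_false] at hw
          rcases hw with rfl | rfl
          · have h1 := (hσ A hPA i hi).2.1
            have h2 := (hσ A hPA j hj).2.1
            simp only [ic, hE]
            have h3 : ((e i : ℤ) : ℝ) + ((e (σ A i) : ℤ) : ℝ) = T A := by exact_mod_cast h1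
            have h4 : ((e j : ℤ) : ℝ) + ((e (σ A j) : ℤ) : ℝ) = T A := by exact_mod_cast h2
            linarith
          · simp [ic, one1]
        exact_mod_cast h0
      have hlen : (∑ a, |(Hh a : ℝ)|) * ρ < 1 := by
        have h1 : ∑ a, |(Hh a : ℝ)| ≤ 4 := by
          calc ∑ a, |(Hh a : ℝ)| ≤ ∑ a, (((Pi.single i (1:ℤ) : Fin (r + 1) → ℤ) a : ℝ) * 1 +
              ((Pi.single (σ A i) (1:ℤ) : Fin (r + 1) → ℤ) a : ℝ) * 1 +
              ((Pi.single j (1:ℤ) : Fin (r + 1) → ℤ) a : ℝ) * 1 +
              ((Pi.single (σ A j) (1:ℤ) : Fin (r + 1) → ℤ) a : ℝ) * 1) := by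
                refine Finset.sum_le_sum fun a _ => ?_
                have hs : ∀ i : Fin (r + 1), (0:ℝ) ≤
                    ((Pi.single i (1:ℤ) : Fin (r + 1) → ℤ) a : ℝ) := by
                  intro i
                  by_cases h : a = i
                  · subst h; simp
                  · rw [Pi.single_eq_of_ne h]; simp
                have h1 := hs i
                have h2 := hs (σ A i)
                have h3 := hs j
                have h4 := hs (σ A j)
                rw [hHh]
                simp only [Pi.add_apply, Pi.sub_apply]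
                push_cast
                rw [abs_le]
                constructor <;> linarith
            _ = 4 := by
                rw [Finset.sum_add_distrib, Finset.sum_add_distrib, Finset.sum_add_distrib]
                have h1 := fun i => hsingle i (fun _ => 1)
                rw [h1, h1, h1, h1]
                norm_num
        calc (∑ a, |(Hh a : ℝ)|) * ρ ≤ 4 * (1 / 8) := by gcongr
          _ < 1 := by norm_num
      have hH0 := hl3 Hh hbase2 hlen
      have h1 := dot_zero_of_mem hH0 (mem_UQ.mp hb)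
      rw [hdot] at h1
      have h2 : ((b i + b (σ A i) : ℚ) : ℝ) = ((b j + b (σ A j) : ℚ) : ℝ) := by
        push_cast
        linarith
      exact_mod_cast h2
    · exact int_mem_UQ.mpr hEl
    · intro x y hxy
      apply hEinj
      have hxy' : ((E x : ℤ) : ℚ) = ((E y : ℤ) : ℚ) := hxy
      exact_mod_cast hxy'
    · intro A hPA hA1
      exact lm_single A hA1 c hc e (hsmall A hPA)
    · intro A A' hPA hPA' hd hAeq hQ
      have h1 := lm_double A A' hPA'.1 c e he (σ A) (σ A') (T A) (T A') (ε A) (ε A') (hε A hPA)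
        (hε A' hPA') (hσ A hPA) (hσ A' hPA') hd hAeq
      rw [h1]
      exact hQ
    · refine ⟨⟨0, Finset.mem_univ _⟩, ?_⟩
      rw [hcAuniv]
  -- real and rational dimension
  have hdim : finrank ℝ (spn l) ≤ finrank ℚ (UQ l) := by
    obtain ⟨f, hf1, hf2, hf3⟩ := Submodule.exists_fun_fin_finrank_span_eq ℝ
      {v : Fin (r + 1) → ℝ | ∃ w ∈ l, v = ic w}
    choose w hw1 hw2 using hf1
    have hfw : f = fun i => ic (w i) := by ext i; rw [hw2 i]
    set g : Fin (finrank ℝ (spn l)) → UQ l := fun i =>
      ⟨fun j => (w i j : ℚ), int_mem_UQ.mpr (mem_spn (hw1 i))⟩ with hg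
    have hgi : LinearIndependent ℚ g := by
      have h1 : LinearIndependent ℚ f := LinearIndependent.restrict_scalars (R := ℚ) (K := ℝ)
        (by
          intro a b hab
          simpa using hab) hf3
      let φ : (UQ l) →ₗ[ℚ] (Fin (r + 1) → ℝ) :=
        { toFun := fun b => fun j => ((b : Fin (r + 1) → ℚ) j : ℝ)
          map_add' := by intro a b; ext j; simp
          map_smul' := by
            intro t b
            ext j
            simp [Rat.smul_def] }
      have h2 : f = φ ∘ g := by
        rw [hfw]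
        ext i j
        change ((w i j : ℤ) : ℝ) = (((w i j : ℤ) : ℚ) : ℝ)
        push_cast
        rfl
      rw [h2] at h1
      exact LinearIndependent.of_comp φ h1
    have h3 := hgi.fintype_card_le_finrank
    rwa [Fintype.card_fin] at h3
  -- the relations
  set R : Set (Fin (r + 1) → ℝ) := {v | ∃ Hh : Fin (r + 1) → ℤ, (∀ w ∈ l, idot Hh w = 0) ∧
    ∑ j, |Hh j| ≤ ((r + 1 : ℕ) : ℤ) * M ∧ v = ic Hh} with hR
  obtain ⟨m, f, hf1, hf2, hf3⟩ : ∃ (m : ℕ) (f : Fin m → Fin (r + 1) → ℝ), (∀ i, f i ∈ R) ∧
      Submodule.span ℝ (Set.range f) = Submodule.span ℝ R ∧ LinearIndependent ℝ f :=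
    ⟨_, Submodule.exists_fun_fin_finrank_span_eq ℝ R⟩
  choose Hf hHf1 hHf2 hHf3 using hf1
  let Φ : (Fin (r + 1) → ℝ) →ₗ[ℝ] (Fin m → ℝ) :=
    { toFun := fun a => fun i => ∑ j, (Hf i j : ℝ) * a j
      map_add' := by
        intro a b
        ext i
        simp only [Pi.add_apply]
        rw [← Finset.sum_add_distrib]
        exact Finset.sum_congr rfl fun j _ => by ring
      map_smul' := by
        intro t a
        ext i
        simp only [Pi.smul_apply, smul_eq_mul, RingHom.id_apply]
        rw [Finset.mul_sum]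
        exact Finset.sum_congr rfl fun j _ => by ring }
  have hker : LinearMap.ker Φ ≤ spn l := by
    intro a ha
    rw [LinearMap.mem_ker] at ha
    apply transference hρ hρ1 hl2 a M hM
    intro Hh hHh hlen
    -- Hh is in the span of the f i
    let ψ : (Fin (r + 1) → ℝ) →ₗ[ℝ] ℝ :=
      { toFun := fun v => ∑ j, v j * a j
        map_add' := by
          intro v w
          simp only [Pi.add_apply]
          rw [← Finset.sum_add_distrib]
          exact Finset.sum_congr rfl fun j _ => by ring
        map_smul' := by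
          intro t v
          simp only [Pi.smul_apply, smul_eq_mul, RingHom.id_apply]
          rw [Finset.mul_sum]
          exact Finset.sum_congr rfl fun j _ => by ring }
    have h1 : Submodule.span ℝ (Set.range f) ≤ LinearMap.ker ψ := by
      rw [Submodule.span_le]
      rintro _ ⟨i, rfl⟩
      change ψ (f i) = 0
      rw [hHf3 i]
      have := congrFun ha i
      exact this
    have h2 : ic Hh ∈ Submodule.span ℝ (Set.range f) := by
      rw [hf2]
      exact Submodule.subset_span ⟨Hh, hHh, by exact_mod_cast hlen, rfl⟩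
    exact h1 h2
  have hrank : r + 1 ≤ m + finrank ℝ (spn l) := by
    have h1 := LinearMap.finrank_range_add_finrank_ker Φ
    have h2 : finrank ℝ (LinearMap.range Φ) ≤ m := by
      have := Submodule.finrank_le (LinearMap.range Φ)
      rwa [finrank_fin_fun] at this
    have h3 := Submodule.finrank_mono hker
    rw [finrank_fin_fun] at h1
    omega
  have hpow : 2 ^ (r - m) ≤ 2 ^ (finrank ℚ (UQ l) - 1) := by
    apply Nat.pow_le_pow_right (by norm_num)
    omega
  refine ⟨m, Hf, hpow.trans hcount.1, ?_, ?_, ?_⟩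
  · intro hpos
    by_contra hcon
    push Not at hcon
    have h1 := hcount.2 (hcon.trans hpow)
    have h2 : cZ c Finset.univ = c := by ext j; simp [cZ]
    rw [h2] at h1
    rw [h1] at hpos
    exact lt_irrefl _ hpos
  · have h1 : LinearIndependent ℤ f := LinearIndependent.restrict_scalars (R := ℤ) (K := ℝ)
        (by
          intro a b hab
          simpa using hab) hf3
    let φ : (Fin (r + 1) → ℤ) →ₗ[ℤ] (Fin (r + 1) → ℝ) :=
        { toFun := ic
          map_add' := fun a b => ic_add a b
          map_smul' := by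
            intro t b
            ext j
            simp [ic] }
    have h2 : f = φ ∘ Hf := by
      ext i j
      rw [hHf3 i]
      rfl
    rw [h2] at h1
    exact LinearIndependent.of_comp φ h1
  · intro i
    have e1 := dot_zero_of_mem (hHf1 i) hEl
    have e2 := dot_zero_of_mem (hHf1 i) h1l
    refine ⟨?_, ?_, ?_⟩
    · have : ((∑ j, Hf i j : ℤ) : ℝ) = 0 := by
        rw [← e2]
        push_cast
        refine Finset.sum_congr rfl fun j _ => ?_
        simp [ic, one1]
      exact_mod_cast this
    · have : ((∑ j, Hf i j * (e j : ℤ) : ℤ) : ℝ) = 0 := by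
        rw [← e1]
        push_cast
        refine Finset.sum_congr rfl fun j _ => ?_
        simp [ic, hE]
      exact_mod_cast this
    · have h1 := hHf2 i
      have h2 : mK (r + 1) η = (r + 1) * M := rfl
      rw [h2]
      push_cast at h1 ⊢
      exact h1

end Pool.Agent.Helper99.MK
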