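import Mathlib
import Pool.Graph.R_pool_sql_team_seeded_64922ed1.Results.MP_7ab245_nt.DobrowolskiDiscriminant
import Pool.Agent.Helper99.MK.R1

/-!
# Dobrowolski's theorem for all polynomials, and the bound by the number of monomials
-/

set_option autoImplicit false

open Polynomial

namespace Pool.Agent.Helper99.MK

open Pool.Agent.H338R2.AS (es sp lm lm_zero lm_nonneg lm_eq_log exists_sp sp_natDegree_le)
open Pool.Agent.H388SL (MM one_le_MM MM_mul MM_pos)
open Pool.Agent.X184.Leh (ratio_nonneg ratio_anti)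

theorem dobr_full : ∃ c : ℝ, 0 < c ∧ ∀ F : ℤ[X], 0 < lm F → ∀ Y : ℝ, 0 ≤ Y →
    Real.log F.natDegree ≤ Y → c * (Real.log (2 + Y) / (1 + Y)) ^ 3 ≤ lm F := by
  obtain ⟨c1, hc1, hc⟩ :=
    Pool.Agent.Results.MP_7ab245_nt.DobrowolskiDiscriminant.dobrowolski
  have hlog2 : 0 < Real.log 2 := Real.log_pos (by norm_num)
  refine ⟨min c1 (Real.log 2), by positivity, ?_⟩
  set c := min c1 (Real.log 2) with hcdef
  have hc0 : 0 < c := by positivity
  intro F hF Y hY hFY
  have hF0 : F ≠ 0 := by
    rintro rfl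
    rw [lm_zero] at hF
    exact lt_irrefl _ hF
  have hφ0 : 0 ≤ Real.log (2 + Y) / (1 + Y) := ratio_nonneg hY
  have hφ1 : Real.log (2 + Y) / (1 + Y) ≤ 1 := by
    have h1 := ratio_anti (x := 0) (y := Y) le_rfl hY
    rw [add_zero, add_zero, div_one] at h1
    have := Real.log_two_lt_d9
    linarith
  have hφ3 : (Real.log (2 + Y) / (1 + Y)) ^ 3 ≤ 1 := pow_le_one₀ hφ0 hφ1
  have hφ30 : 0 ≤ (Real.log (2 + Y) / (1 + Y)) ^ 3 := by positivity
  -- irreducible case
  have hirr : ∀ p : ℤ[X], Irreducible p → p.natDegree ≤ F.natDegree →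
      Real.log (MM p) = 0 ∨ c * (Real.log (2 + Y) / (1 + Y)) ^ 3 ≤ Real.log (MM p) := by
    intro p hp hpd
    have hp0 : p ≠ 0 := hp.ne_zero
    rcases (one_le_MM hp0).eq_or_lt with h1 | h1
    · left; rw [← h1, Real.log_one]
    right
    rcases Nat.eq_zero_or_pos p.natDegree with h0 | hpos
    · obtain ⟨n, hn⟩ : ∃ n : ℤ, p = C n := ⟨p.coeff 0, eq_C_of_natDegree_eq_zero h0⟩
      have hMn : MM p = |(n:ℝ)| := by
        rw [hn, MM, Polynomial.map_C, mahlerMeasure_const, eq_intCast, Complex.norm_intCast]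
      rw [hMn] at h1 ⊢
      have h2 : (1:ℤ) < |n| := by
        have : ((1:ℤ):ℝ) < ((|n| : ℤ) : ℝ) := by push_cast; exact h1
        exact_mod_cast this
      have h3 : (2:ℝ) ≤ |(n:ℝ)| := by
        have : (2:ℤ) ≤ |n| := by omega
        have : ((2:ℤ):ℝ) ≤ ((|n| : ℤ) : ℝ) := by exact_mod_cast this
        push_cast at this
        exact this
      calc c * (Real.log (2 + Y) / (1 + Y)) ^ 3 ≤ Real.log 2 * 1 := by
            apply mul_le_mul (min_le_right _ _) hφ3 hφ30 hlog2.le
        _ ≤ Real.log |(n:ℝ)| := by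
            rw [mul_one]
            exact Real.log_le_log (by norm_num) h3
    · have h2 : Real.exp (c1 * (Real.log (2 + Real.log p.natDegree) /
          (1 + Real.log p.natDegree)) ^ 3) ≤ MM p := hc p hp h1 hpos
      rw [← Real.le_log_iff_exp_le (by linarith : (0:ℝ) < MM p)] at h2
      refine le_trans ?_ h2
      have hn1 : (1:ℝ) ≤ p.natDegree := by exact_mod_cast hpos
      have hlp : 0 ≤ Real.log p.natDegree := Real.log_nonneg hn1
      have hlY : Real.log p.natDegree ≤ Y := by
        refine le_trans ?_ hFY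
        apply Real.log_le_log (by linarith)
        exact_mod_cast hpd
      have h3 := ratio_anti hlp hlY
      calc c * (Real.log (2 + Y) / (1 + Y)) ^ 3 ≤ c1 * (Real.log (2 + Y) / (1 + Y)) ^ 3 :=
            mul_le_mul_of_nonneg_right (min_le_left _ _) hφ30
        _ ≤ c1 * (Real.log (2 + Real.log p.natDegree) / (1 + Real.log p.natDegree)) ^ 3 := by
            gcongr
  have key : ∀ G : ℤ[X], G ≠ 0 → G.natDegree ≤ F.natDegree →
      Real.log (MM G) = 0 ∨ c * (Real.log (2 + Y) / (1 + Y)) ^ 3 ≤ Real.log (MM G) := by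
    intro G
    refine WfDvdMonoid.induction_on_irreducible G ?_ ?_ ?_
    · intro h; exact absurd rfl h
    · intro u hu _ _
      left
      obtain ⟨r, hr, hru⟩ := Polynomial.isUnit_iff.mp hu
      rw [← hru, MM, Polynomial.map_C, mahlerMeasure_const]
      have h1 : |r| = 1 := Int.isUnit_iff_abs_eq.mp hr
      have h2 : ‖(Int.castRingHom ℂ) r‖ = 1 := by
        rw [eq_intCast, Complex.norm_intCast]
        exact_mod_cast h1
      rw [h2, Real.log_one]
    · intro a p ha hp ih hne hdeg
      rw [natDegree_mul hp.ne_zero ha] at hdeg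
      have h1 := ih ha (by omega)
      have h2 := hirr p hp (by omega)
      rw [MM_mul, Real.log_mul (MM_pos hp.ne_zero).ne' (MM_pos ha).ne']
      have h3 : 0 ≤ Real.log (MM a) := Real.log_nonneg (one_le_MM ha)
      have h4 : 0 ≤ Real.log (MM p) := Real.log_nonneg (one_le_MM hp.ne_zero)
      rcases h1 with h1 | h1 <;> rcases h2 with h2 | h2
      · left; rw [h1, h2, add_zero]
      · right; linarith
      · right; linarith
      · right; linarith
  have h := key F hF0 le_rfl
  rw [lm_eq_log hF0] at h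
  rcases h with h | h
  · rw [h] at hF; exact absurd hF (lt_irrefl _)
  · exact h

/-- the optimisation -/
lemma optimise {c : ℝ} (hc : 0 < c) : ∃ c' : ℝ, 0 < c' ∧ ∀ (K ε : ℝ), 2 ≤ K → 0 < ε → ε ≤ 1 →
    c * (Real.log (2 + 184 * K * Real.log (2 * K / ε)) / (1 + 184 * K * Real.log (2 * K / ε))) ^ 3
      ≤ 3 / 2 * ε → c' / K ^ 3 ≤ ε := by
  have hlog2 : 0 < Real.log 2 := Real.log_pos (by norm_num)
  set B : ℝ := 3 / 2 * 14721 ^ 3 / (c * Real.log 2 ^ 3) + 1 with hB
  have hB1 : 1 ≤ B := by
    rw [hB]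
    have : 0 ≤ 3 / 2 * 14721 ^ 3 / (c * Real.log 2 ^ 3) := by positivity
    linarith
  refine ⟨min 1 (min (2 / 3 * c / 2210 ^ 3) (1 / B ^ 2)), by positivity, ?_⟩
  set c' := min 1 (min (2 / 3 * c / 2210 ^ 3) (1 / B ^ 2)) with hc'
  have hc'1 : c' ≤ 1 := min_le_left _ _
  have hc'2 : c' ≤ 2 / 3 * c / 2210 ^ 3 := (min_le_right _ _).trans (min_le_left _ _)
  have hc'3 : c' ≤ 1 / B ^ 2 := (min_le_right _ _).trans (min_le_right _ _)
  have hc'0 : 0 < c' := by positivity
  intro K ε hK hε hε1 h
  have hK0 : 0 < K := by linarith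
  set X := 184 * K * Real.log (2 * K / ε) with hX
  have hlogK : Real.log 2 ≤ Real.log K := Real.log_le_log (by norm_num) hK
  have hlogK0 : 0 < Real.log K := by linarith
  set v := Real.log (1 / ε) with hv
  have hv0 : 0 ≤ v := Real.log_nonneg (by rw [le_div_iff₀ hε]; linarith)
  have hX1 : X = 184 * K * (Real.log (2 * K) + v) := by
    rw [hX, hv, ← Real.log_mul (by positivity) (by positivity)]
    congr 2
    field_simp
  have hlog2K : Real.log (2 * K) ≤ 2 * Real.log K := by
    rw [Real.log_mul (by norm_num) hK0.ne']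
    linarith
  have hlog2K0 : 0 ≤ Real.log (2 * K) := Real.log_nonneg (by linarith)
  have hX0 : 0 ≤ X := by rw [hX1]; positivity
  have hεv : ε = Real.exp (-v) := by
    rw [hv, one_div, Real.log_inv, neg_neg, Real.exp_log hε]
  rcases le_or_gt v (10 * Real.log K) with hcase | hcase
  · -- ε at least K^{-10}
    have hXY : X ≤ 2208 * K * Real.log K := by
      rw [hX1]
      calc 184 * K * (Real.log (2 * K) + v) ≤ 184 * K * (2 * Real.log K + 10 * Real.log K) := by
            gcongr
        _ = 2208 * K * Real.log K := by ring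
    have h1 := ratio_anti hX0 hXY
    have h2 : 1 / (2210 * K) ≤ Real.log (2 + 2208 * K * Real.log K) /
        (1 + 2208 * K * Real.log K) := by
      rw [div_le_div_iff₀ (by positivity) (by positivity), one_mul]
      have h3 : Real.log K ≤ Real.log (2 + 2208 * K * Real.log K) := by
        apply Real.log_le_log hK0
        have h4 : (1:ℝ) ≤ 2208 * Real.log K := by
          have := Real.log_two_gt_d9
          linarith
        nlinarith
      have h5 : (1:ℝ) ≤ 2 * (K * Real.log K) := by
        have h6 : 2 * Real.log 2 ≤ K * Real.log K := by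
          apply mul_le_mul hK hlogK hlog2.le hK0.le
        have := Real.log_two_gt_d9
        linarith
      calc 1 + 2208 * K * Real.log K ≤ Real.log K * (2210 * K) := by linarith
        _ ≤ Real.log (2 + 2208 * K * Real.log K) * (2210 * K) := by gcongr
    have h3 : (1 / (2210 * K)) ^ 3 ≤ (Real.log (2 + X) / (1 + X)) ^ 3 := by
      apply pow_le_pow_left₀ (by positivity)
      exact h2.trans h1
    have h4 : c * (1 / (2210 * K)) ^ 3 ≤ 3 / 2 * ε :=
      (mul_le_mul_of_nonneg_left h3 hc.le).trans h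
    calc c' / K ^ 3 ≤ (2 / 3 * c / 2210 ^ 3) / K ^ 3 := by gcongr
      _ = 2 / 3 * (c * (1 / (2210 * K)) ^ 3) := by field_simp
      _ ≤ 2 / 3 * (3 / 2 * ε) := by gcongr
      _ = ε := by ring
  · -- ε smaller than K^{-10}
    have hKe : K ≤ Real.exp (v / 10) := by
      rw [← Real.log_le_iff_le_exp hK0]
      linarith
    have hlogKv : 2 * Real.log K ≤ v := by linarith
    have hve : v ≤ 40 * Real.exp (v / 40) := by
      have := Real.add_one_le_exp (v / 40)
      linarith
    have h1X : 1 + X ≤ 14721 * Real.exp (v / 8) := by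
      have e1 : X ≤ 184 * Real.exp (v / 10) * (2 * (40 * Real.exp (v / 40))) := by
        rw [hX1]
        gcongr
        linarith
      have e2 : 184 * Real.exp (v / 10) * (2 * (40 * Real.exp (v / 40))) =
          14720 * Real.exp (v / 8) := by
        rw [show v / 8 = v / 10 + v / 40 by ring, Real.exp_add]
        ring
      have e3 : 1 ≤ Real.exp (v / 8) := Real.one_le_exp (by positivity)
      linarith
    have h2 : Real.log 2 / (14721 * Real.exp (v / 8)) ≤ Real.log (2 + X) / (1 + X) := by
      apply div_le_div₀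
      · exact Real.log_nonneg (by linarith)
      · exact Real.log_le_log (by norm_num) (by linarith)
      · linarith
      · exact h1X
    have h3 : (Real.log 2 / (14721 * Real.exp (v / 8))) ^ 3 ≤ (Real.log (2 + X) / (1 + X)) ^ 3 :=
      pow_le_pow_left₀ (by positivity) h2 3
    have h4 : c * (Real.log 2 / (14721 * Real.exp (v / 8))) ^ 3 ≤ 3 / 2 * Real.exp (-v) := by
      rw [← hεv]
      exact (mul_le_mul_of_nonneg_left h3 hc.le).trans h
    have h5 : Real.exp (5 * v / 8) ≤ B := by
      have e1 : (Real.log 2 / (14721 * Real.exp (v / 8))) ^ 3 =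
          Real.log 2 ^ 3 / (14721 ^ 3 * Real.exp (3 * v / 8)) := by
        rw [div_pow, mul_pow, ← Real.exp_nat_mul]
        congr 3
        push_cast
        ring
      rw [e1] at h4
      have e2 : c * Real.log 2 ^ 3 * Real.exp v ≤ 3 / 2 * 14721 ^ 3 * Real.exp (3 * v / 8) := by
        have e3 : 0 < 14721 ^ 3 * Real.exp (3 * v / 8) := by positivity
        have e4 : c * Real.log 2 ^ 3 ≤ 3 / 2 * Real.exp (-v) * (14721 ^ 3 * Real.exp (3 * v / 8)) := by
          rw [mul_div_assoc', div_le_iff₀ e3] at h4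
          exact h4
        have e5 : Real.exp (-v) * Real.exp v = 1 := by rw [← Real.exp_add]; simp
        calc c * Real.log 2 ^ 3 * Real.exp v ≤
            (3 / 2 * Real.exp (-v) * (14721 ^ 3 * Real.exp (3 * v / 8))) * Real.exp v := by gcongr
          _ = 3 / 2 * 14721 ^ 3 * Real.exp (3 * v / 8) * (Real.exp (-v) * Real.exp v) := by ring
          _ = _ := by rw [e5, mul_one]
      have e6 : Real.exp v = Real.exp (5 * v / 8) * Real.exp (3 * v / 8) := by
        rw [← Real.exp_add]; congr 1; ring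
      rw [e6] at e2
      have e7 : c * Real.log 2 ^ 3 * Real.exp (5 * v / 8) ≤ 3 / 2 * 14721 ^ 3 := by
        have : (c * Real.log 2 ^ 3 * Real.exp (5 * v / 8)) * Real.exp (3 * v / 8) ≤
            (3 / 2 * 14721 ^ 3) * Real.exp (3 * v / 8) := by linarith
        exact le_of_mul_le_mul_right this (Real.exp_pos _)
      have e8 : Real.exp (5 * v / 8) ≤ 3 / 2 * 14721 ^ 3 / (c * Real.log 2 ^ 3) := by
        rw [le_div_iff₀ (by positivity)]
        linarith
      rw [hB]
      linarith
    have h6 : Real.exp v ≤ B ^ 2 := by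
      calc Real.exp v ≤ Real.exp (5 * v / 8 + 5 * v / 8) := by
            apply Real.exp_le_exp.mpr
            linarith
        _ = Real.exp (5 * v / 8) ^ 2 := by rw [Real.exp_add]; ring
        _ ≤ B ^ 2 := by gcongr
    have h7 : 1 / B ^ 2 ≤ ε := by
      rw [hεv, Real.exp_neg, ← one_div]
      apply div_le_div_of_nonneg_left zero_le_one (Real.exp_pos _) h6
    calc c' / K ^ 3 ≤ c' := by
          apply div_le_self hc'0.le
          exact one_le_pow₀ (by linarith)
      _ ≤ ε := hc'3.trans h7

theorem monomial_cubic : ∃ c : ℝ, 0 < c ∧ ∀ F : ℤ[X], 0 < lm F →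
    c / (F.support.card : ℝ) ^ 3 ≤ lm F := by
  obtain ⟨c, hc, hdob⟩ := dobr_full
  obtain ⟨c', hc', hopt⟩ := optimise hc
  have hlog2 : 0 < Real.log 2 := Real.log_pos (by norm_num)
  refine ⟨min (min c' 1) (Real.log 2), by positivity, ?_⟩
  intro F hF
  have hF0 : F ≠ 0 := by
    rintro rfl
    rw [lm_zero] at hF; exact lt_irrefl _ hF
  have hkpos : 0 < F.support.card := Finset.card_pos.mpr (Polynomial.support_nonempty.mpr hF0)
  generalize hk : F.support.card = k at hkpos ⊢
  obtain ⟨cf, d, hcf, hd, hFs⟩ := exists_sp F hk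
  rcases Nat.lt_or_ge k 2 with hk1 | hk2
  · -- monomials
    have hk1 : k = 1 := by omega
    subst hk1
    have h1 : F = C (cf 0) * X ^ (d 0) := by rw [hFs, sp]; simp
    have h2 : lm F = Real.log |(cf 0 : ℝ)| := by
      rw [h1, C_mul_X_pow_eq_monomial, lm, Polynomial.map_monomial, logMahlerMeasure_monomial,
        eq_intCast, Complex.norm_intCast]
    have h5 : 2 ≤ |cf 0| := by
      by_contra hlt
      have h6 : |cf 0| ≤ 1 := by omega
      have h7 : 1 ≤ |cf 0| := Int.one_le_abs (hcf 0)
      have h8 : |cf 0| = 1 := le_antisymm h6 h7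
      have h9 : |(cf 0 : ℝ)| = 1 := by exact_mod_cast h8
      rw [h2, h9, Real.log_one] at hF
      exact lt_irrefl _ hF
    have h6 : (2:ℝ) ≤ |(cf 0 : ℝ)| := by exact_mod_cast h5
    rw [h2]
    have h7 : Real.log 2 ≤ Real.log |(cf 0 : ℝ)| := Real.log_le_log (by norm_num) h6
    refine le_trans ?_ h7
    norm_num
  · set ε := lm F with hε
    have hk2' : (2:ℝ) ≤ k := by exact_mod_cast hk2
    rcases le_or_gt ε 1 with hε1 | hε1
    · have hη : 0 < ε / 2 := by positivity
      obtain ⟨a, hainj, happ, hale⟩ := reduce hk2 cf hcf d hd hη (by linarith)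
      rw [← hFs, ← hε] at happ
      rw [abs_le] at happ
      have hG0 : 0 < lm (sp cf a) := by linarith [happ.1]
      have hdeg : (sp cf a).natDegree ≤
          3 * ((4 * mK k (ε / 2) + 1) ^ k + 1) * (2 * mK k (ε / 2) + 1) ^ k :=
        sp_natDegree_le cf a _ hale
      have hdl := deg_le hk2 hη (by linarith : ε / 2 ≤ 1)
      have hX0 : 0 ≤ 184 * (k:ℝ) * Real.log (2 * k / ε) := by
        have : 0 ≤ Real.log (2 * k / ε) := Real.log_nonneg (by rw [le_div_iff₀ hF]; linarith)
        positivity
      have hlogdeg : Real.log (sp cf a).natDegree ≤ 184 * (k:ℝ) * Real.log (2 * k / ε) := by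
        have h1 : ((sp cf a).natDegree : ℝ) ≤ ((k:ℝ) / (ε / 2)) ^ (184 * k) := by
          refine le_trans ?_ hdl
          exact_mod_cast hdeg
        rcases Nat.eq_zero_or_pos (sp cf a).natDegree with h0 | hpos
        · rw [h0, Nat.cast_zero, Real.log_zero]; exact hX0
        · have h2 := Real.log_le_log (by exact_mod_cast hpos) h1
          rw [Real.log_pow] at h2
          refine h2.trans (le_of_eq ?_)
          push_cast
          congr 2
          field_simp
      have h3 := hdob _ hG0 _ hX0 hlogdeg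
      have h4 := hopt k ε hk2' hF hε1 (by linarith [happ.2])
      refine le_trans ?_ h4
      gcongr
      exact (min_le_left _ _).trans (min_le_left _ _)
    · refine le_trans ?_ hε1.le
      rw [div_le_one (by positivity)]
      calc min (min c' 1) (Real.log 2) ≤ 1 := (min_le_left _ _).trans (min_le_right _ _)
        _ ≤ (k:ℝ) ^ 3 := one_le_pow₀ (by linarith)

end Pool.Agent.Helper99.MK
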